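import Pool.Agent.CRO.Words

/-!
A finitely generated group acting on an abelian group through a nilpotent quotient, each element
acting locally unipotently, acts nilpotently on each element.
-/

open scoped commutatorElement

namespace CRO

universe u

variable {K V : Type u} [Group K] [AddCommGroup V] (ρ : K →* Module.End ℤ V) (L : Subgroup K)

/-- stability under `L` -/
def Stab (U : AddSubgroup V) : Prop := ∀ g ∈ L, ∀ u ∈ U, ρ g u ∈ U

/-- elements killed modulo `U` by `m`-fold products of `g - 1` -/
def FF (U : AddSubgroup V) : ℕ → AddSubgroup V
  | 0 => U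
  | m + 1 =>
    { carrier := {v | ∀ g ∈ L, ρ g v - v ∈ FF U m}
      add_mem' := by
        intro a b ha hb g hg
        have : ρ g (a + b) - (a + b) = (ρ g a - a) + (ρ g b - b) := by
          rw [map_add]; abel
        rw [this]
        exact AddSubgroup.add_mem _ (ha g hg) (hb g hg)
      zero_mem' := by
        intro g _
        simp
      neg_mem' := by
        intro a ha g hg
        have : ρ g (-a) - (-a) = -(ρ g a - a) := by
          rw [map_neg]; abel
        rw [this]
        exact AddSubgroup.neg_mem _ (ha g hg) }

lemma mem_FF_succ {U : AddSubgroup V} {m : ℕ} {v : V} :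
    v ∈ FF ρ L U (m + 1) ↔ ∀ g ∈ L, ρ g v - v ∈ FF ρ L U m := Iff.rfl

lemma FF_stab {U : AddSubgroup V} (hU : Stab ρ L U) (m : ℕ) : Stab ρ L (FF ρ L U m) := by
  induction m with
  | zero => exact hU
  | succ m ih =>
    intro l hl v hv g hg
    have h1 : ρ g (ρ l v) - ρ l v = ρ l (ρ (l⁻¹ * g * l) v - v) := by
      rw [map_sub, ← Module.End.mul_apply, ← Module.End.mul_apply, ← map_mul, ← map_mul]
      congr 3
      group
    rw [h1]
    exact ih l hl _ (hv _ (L.mul_mem (L.mul_mem (L.inv_mem hl) hg) hl))

lemma FF_le_succ {U : AddSubgroup V} (hU : Stab ρ L U) (m : ℕ) :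
    FF ρ L U m ≤ FF ρ L U (m + 1) := by
  intro v hv g hg
  exact AddSubgroup.sub_mem _ (FF_stab ρ L hU m g hg v hv) hv

lemma FF_mono {U : AddSubgroup V} (hU : Stab ρ L U) {m n : ℕ} (h : m ≤ n) :
    FF ρ L U m ≤ FF ρ L U n := by
  induction h with
  | refl => exact le_rfl
  | step _ ih => exact ih.trans (FF_le_succ ρ L hU _)

lemma FF_comp {U : AddSubgroup V} (m n : ℕ) : FF ρ L (FF ρ L U m) n = FF ρ L U (m + n) := by
  induction n with
  | zero => rfl
  | succ n ih =>
    ext v
    rw [← Nat.add_assoc, mem_FF_succ, mem_FF_succ, ih]

/-- elements such that the module they generate is centralised modulo `U` by `M` -/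
def PP (M : Subgroup K) (U : AddSubgroup V) : AddSubgroup V where
  carrier := {v | ∀ l ∈ L, ∀ g ∈ M, ρ g (ρ l v) - ρ l v ∈ U}
  add_mem' := by
    intro a b ha hb l hl g hg
    have : ρ g (ρ l (a + b)) - ρ l (a + b) = (ρ g (ρ l a) - ρ l a) + (ρ g (ρ l b) - ρ l b) := by
      simp only [map_add]; abel
    rw [this]
    exact AddSubgroup.add_mem _ (ha l hl g hg) (hb l hl g hg)
  zero_mem' := by
    intro l _ g _
    simp
  neg_mem' := by
    intro a ha l hl g hg
    have : ρ g (ρ l (-a)) - ρ l (-a) = -(ρ g (ρ l a) - ρ l a) := by
      simp only [map_neg]; abel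
    rw [this]
    exact AddSubgroup.neg_mem _ (ha l hl g hg)

lemma PP_stab (M : Subgroup K) (U : AddSubgroup V) : Stab ρ L (PP ρ L M U) := by
  intro k hk v hv l hl g hg
  have := hv (l * k) (L.mul_mem hl hk) g hg
  rwa [map_mul, Module.End.mul_apply] at this

lemma mem_PP {M : Subgroup K} {U : AddSubgroup V} {v : V} :
    v ∈ PP ρ L M U ↔ ∀ l ∈ L, ∀ g ∈ M, ρ g (ρ l v) - ρ l v ∈ U := Iff.rfl

/-- commuting modulo `U` -/
lemma PP_comm {c : ℕ} {U : AddSubgroup V} {w : V} (hw : w ∈ PP ρ L (gam L (c + 1)) U)
    {y : K} (hy : y ∈ gam L c) {g : K} (hg : g ∈ L) : ρ y (ρ g w) - ρ g (ρ y w) ∈ U := by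
  have hyL : y ∈ L := gam_le L c hy
  have h1 : ρ y (ρ g w) = ρ ⁅y, g⁆ (ρ (g * y) w) := by
    rw [← Module.End.mul_apply, ← Module.End.mul_apply, ← map_mul, ← map_mul]
    congr 2
    rw [commutatorElement_def]; group
  have h2 : ρ g (ρ y w) = ρ (g * y) w := by
    rw [map_mul, Module.End.mul_apply]
  rw [h1, h2]
  exact hw _ (L.mul_mem hg hyL) _ (Subgroup.commutator_mem_commutator hy hg)

theorem exists_mem_FF {X : Set K} (hX : X.Finite) (hL : L = Subgroup.closure X)
    (hun : ∀ b ∈ L, ∀ v, ∃ n : ℕ, ((ρ b - 1) ^ n) v = 0) :
    ∀ c : ℕ, ∀ U : AddSubgroup V, Stab ρ L U → ∀ v ∈ PP ρ L (gam L c) U,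
      ∃ m, v ∈ FF ρ L U m := by
  intro c
  induction c with
  | zero =>
    intro U hU v hv
    refine ⟨1, fun g hg => ?_⟩
    have := hv 1 L.one_mem g hg
    change ρ g v - v ∈ U
    simpa using this
  | succ c ih =>
    intro U hU v hv
    have hY : (lnc X c).Finite := lnc_finite hX c
    have hYg : ∀ y ∈ lnc X c, y ∈ gam L c := by
      intro y hy
      rw [hL]
      exact lnc_mem_gam c hy
    -- inner induction
    have inner : ∀ N : ℕ, ∀ w ∈ PP ρ L (gam L (c + 1)) U, ∀ n : K → ℕ,
        (∀ y ∈ hY.toFinset, ((ρ y - 1) ^ (n y)) w ∈ U) → (∑ y ∈ hY.toFinset, n y) ≤ N →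
        ∃ m, w ∈ FF ρ L U m := by
      intro N
      induction N with
      | zero =>
        -- all exponents vanish
        intro w hw n hn hN
        by_cases hne : (hY.toFinset).Nonempty
        · obtain ⟨y, hy⟩ := hne
          have h1 : n y = 0 := by
            have := Finset.single_le_sum (f := n) (fun i _ => Nat.zero_le _) hy
            omega
          have h2 := hn y hy
          rw [h1, pow_zero, Module.End.one_apply] at h2
          exact ⟨0, h2⟩
        · -- no generators: `gam L c` is trivial
          have h1 : gam L c = ⊥ := by
            rw [eq_bot_iff, hL]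
            refine (gam_le_ncl X c).trans ?_
            refine ncl_le (fun y hy => ?_) ?_
            · exact absurd ⟨y, hY.mem_toFinset.2 hy⟩ hne
            · intro l _ u hu
              have hu' := Subgroup.mem_bot.1 hu
              rw [hu']
              simp
          refine ih U hU w ?_
          intro l hl g hg
          rw [h1, Subgroup.mem_bot] at hg
          rw [hg]
          simp
      | succ N ihN =>
        intro w hw n hn hN
        -- each `(y - 1) w` is fine
        have hone : ∀ y ∈ hY.toFinset, ∃ m, ρ y w - w ∈ FF ρ L U m := by
          intro y hy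
          have hyL : y ∈ L := gam_le L c (hYg y (hY.mem_toFinset.1 hy))
          have hyg := hYg y (hY.mem_toFinset.1 hy)
          by_cases hny : n y = 0
          · have h2 := hn y hy
            rw [hny, pow_zero, Module.End.one_apply] at h2
            exact ⟨0, AddSubgroup.sub_mem _ (hU y hyL w h2) h2⟩
          · have hw' : ρ y w - w ∈ PP ρ L (gam L (c + 1)) U :=
              AddSubgroup.sub_mem _ (PP_stab ρ L _ _ y hyL w hw) hw
            classical
            refine ihN _ hw' (Function.update n y (n y - 1)) ?_ ?_
            · intro y' hy'
              have hyg' := hYg y' (hY.mem_toFinset.1 hy')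
              have hyL' := gam_le L c hyg'
              by_cases hyy : y' = y
              · subst hyy
                rw [Function.update_self]
                have h2 := hn y' hy'
                obtain ⟨k, hk⟩ := Nat.exists_eq_succ_of_ne_zero hny
                rw [hk, Nat.succ_eq_add_one, pow_succ, Module.End.mul_apply] at h2
                rw [hk]
                exact h2
              · rw [Function.update_of_ne hyy]
                -- commutation
                have hcomm : ∀ k : ℕ, ((ρ y' - 1) ^ k) (ρ y w - w) -
                    (ρ y - 1) (((ρ y' - 1) ^ k) w) ∈ U ∧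
                    ((ρ y' - 1) ^ k) w ∈ PP ρ L (gam L (c + 1)) U := by
                  intro k
                  induction k with
                  | zero =>
                    simp only [pow_zero, Module.End.one_apply, LinearMap.sub_apply, sub_self]
                    exact ⟨AddSubgroup.zero_mem _, hw⟩
                  | succ k ihk =>
                    obtain ⟨h3, h4⟩ := ihk
                    set z := ((ρ y' - 1) ^ k) w with hz
                    rw [pow_succ', Module.End.mul_apply, Module.End.mul_apply, ← hz]
                    constructor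
                    · have h5 : (ρ y' - 1) (((ρ y' - 1) ^ k) (ρ y w - w) - (ρ y - 1) z) ∈ U := by
                        rw [LinearMap.sub_apply, Module.End.one_apply]
                        exact AddSubgroup.sub_mem _ (hU y' hyL' _ h3) h3
                      have h6 := PP_comm ρ L h4 hyg' hyL
                      have h7 : (ρ y' - 1) (((ρ y' - 1) ^ k) (ρ y w - w)) -
                          (ρ y - 1) ((ρ y' - 1) z) =
                          (ρ y' - 1) (((ρ y' - 1) ^ k) (ρ y w - w) - (ρ y - 1) z) +
                          (ρ y' (ρ y z) - ρ y (ρ y' z)) := by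
                        simp only [LinearMap.sub_apply, Module.End.one_apply, map_sub]
                        abel
                      rw [h7]
                      exact AddSubgroup.add_mem _ h5 h6
                    · rw [LinearMap.sub_apply, Module.End.one_apply]
                      exact AddSubgroup.sub_mem _ (PP_stab ρ L _ _ y' hyL' z h4) h4
                have h3 := (hcomm (n y')).1
                have h4 : (ρ y - 1) (((ρ y' - 1) ^ (n y')) w) ∈ U := by
                  rw [LinearMap.sub_apply, Module.End.one_apply]
                  exact AddSubgroup.sub_mem _ (hU y hyL _ (hn y' hy')) (hn y' hy')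
                have h5 := AddSubgroup.add_mem _ h3 h4
                simpa using h5
            · have h2 : ∑ y' ∈ hY.toFinset, Function.update n y (n y - 1) y' + 1 =
                  ∑ y' ∈ hY.toFinset, n y' := by
                rw [← Finset.add_sum_erase _ _ hy, ← Finset.add_sum_erase _ n hy,
                  Function.update_self]
                have h3 : ∑ x ∈ hY.toFinset.erase y, Function.update n y (n y - 1) x =
                    ∑ x ∈ hY.toFinset.erase y, n x := by
                  refine Finset.sum_congr rfl fun x hx => ?_
                  rw [Function.update_of_ne (Finset.ne_of_mem_erase hx)]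
                rw [h3]
                omega
              omega
        choose! m hm using hone
        set M := hY.toFinset.sup m with hM
        have hmM : ∀ y ∈ hY.toFinset, ρ y w - w ∈ FF ρ L U M := fun y hy =>
          FF_mono ρ L hU (Finset.le_sup hy) (hm y hy)
        have hUM := FF_stab ρ L hU M
        obtain ⟨m', hm'⟩ := ih (FF ρ L U M) hUM w (by
          -- `gam L c` acts trivially mod `FF U M`
          have key : ∀ y ∈ lnc X c, ∀ l ∈ L, ρ y (ρ l w) - ρ l w ∈ FF ρ L U M := by
            intro y hy l hl
            have h1 := PP_comm ρ L hw (hYg y hy) hl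
            have h2 := hUM l hl _ (hmM y (hY.mem_toFinset.2 hy))
            rw [map_sub] at h2
            have h3 : ρ y (ρ l w) - ρ l w = (ρ y (ρ l w) - ρ l (ρ y w)) +
              (ρ l (ρ y w) - ρ l w) := by abel
            rw [h3]
            exact AddSubgroup.add_mem _ (FF_mono ρ L hU (Nat.zero_le M) h1) h2
          intro l hl g hg
          have hg' : g ∈ ncl L (lnc X c) := by
            rw [hL] at hg ⊢
            exact gam_le_ncl X c hg
          have hnL : ncl L (lnc X c) ≤ L := by
            refine ncl_le (fun y hy => gam_le _ _ (hYg y hy)) ?_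
            intro l hl u hu
            exact L.mul_mem (L.mul_mem hl hu) (L.inv_mem hl)
          unfold ncl at hg' hnL
          have hgen : ∀ g ∈ Subgroup.closure {w | ∃ l ∈ L, ∃ y ∈ lnc X c, w = l * y * l⁻¹},
              ∀ l ∈ L, ρ g (ρ l w) - ρ l w ∈ FF ρ L U M := by
            intro g hg
            induction hg using Subgroup.closure_induction with
            | mem g hg =>
              obtain ⟨k, hk, y, hy, rfl⟩ := hg
              intro l hl
              have h1 := hUM k hk _ (key y hy (k⁻¹ * l) (L.mul_mem (L.inv_mem hk) hl))
              have h2 : ρ (k * y * k⁻¹) (ρ l w) - ρ l w =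
                  ρ k (ρ y (ρ (k⁻¹ * l) w) - ρ (k⁻¹ * l) w) := by
                rw [map_sub]
                simp only [← Module.End.mul_apply, ← map_mul]
                congr 3
                · group
                · group
              rw [h2]
              exact h1
            | one =>
              intro l _
              simp
            | mul a b ha hb ha' hb' =>
              intro l hl
              have h1 := ha' (b * l) (L.mul_mem (hnL hb) hl)
              have h2 := hb' l hl
              have h3 : ρ (a * b) (ρ l w) - ρ l w = (ρ a (ρ (b * l) w) - ρ (b * l) w) +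
                  (ρ b (ρ l w) - ρ l w) := by
                simp only [map_mul, Module.End.mul_apply]
                abel
              rw [h3]
              exact AddSubgroup.add_mem _ h1 h2
            | inv a ha ha' =>
              intro l hl
              have h1 := ha' (a⁻¹ * l) (L.mul_mem (L.inv_mem (hnL ha)) hl)
              have h3 : ρ a⁻¹ (ρ l w) - ρ l w = -(ρ a (ρ (a⁻¹ * l) w) - ρ (a⁻¹ * l) w) := by
                simp only [← Module.End.mul_apply, ← map_mul, mul_inv_cancel_left]
                abel
              rw [h3]
              exact AddSubgroup.neg_mem _ h1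
          exact hgen g hg' l hl)
        refine ⟨M + m', ?_⟩
        rwa [FF_comp] at hm'
    have hex : ∀ y : K, ∃ n : ℕ, y ∈ L → ((ρ y - 1) ^ n) v = 0 := by
      intro y
      by_cases hy : y ∈ L
      · obtain ⟨n, hn⟩ := hun y hy v
        exact ⟨n, fun _ => hn⟩
      · exact ⟨0, fun h => absurd h hy⟩
    choose n hn using hex
    refine inner _ v hv n ?_ le_rfl
    intro y hy
    rw [hn y (gam_le L c (hYg y (hY.mem_toFinset.1 hy)))]
    exact AddSubgroup.zero_mem _

end CRO
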