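import Pool.Agent.CRO.Convex

/-!
The quotient of a centrally ordered group by its centre is bi-orderable.
-/

namespace CRO

universe u

lemma map_center_comm {G : Type u} [Group G] {K : Type*} [Group K] (φ : G →* K) :
    ∀ x ∈ (Subgroup.center G).map φ, ∀ y ∈ (Subgroup.center G).map φ, Commute x y := by
  rintro _ ⟨x, hx, rfl⟩ _ ⟨y, -, rfl⟩
  have : Commute x y := by
    have h := (Subgroup.mem_center_iff.1 hx) y
    exact h.symm
  exact this.map φ

variable {G : Type u} [Group G] [LinearOrder G] [MulLeftStrictMono G] [MulRightStrictMono G]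

/-- elements having a power in `Z C` -/
noncomputable def Nsub (hc : Cen G) (C : Subgroup G) (hC : IsConv C) : Subgroup G :=
  haveI := hC.normal hc
  (isol hC.BO_quotient ((Subgroup.center G).map (QuotientGroup.mk' C))
    (map_center_comm _)).comap (QuotientGroup.mk' C)

lemma mem_Nsub {hc : Cen G} {C : Subgroup G} {hC : IsConv C} {x : G} :
    x ∈ Nsub hc C hC ↔ ∃ k : ℕ, k ≠ 0 ∧ ∃ z ∈ Subgroup.center G, z⁻¹ * x ^ k ∈ C := by
  have := hC.normal hc
  constructor
  · rintro ⟨k, hk, z, hz, hzx⟩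
    refine ⟨k, hk, z, hz, ?_⟩
    rw [← map_pow] at hzx
    exact QuotientGroup.eq.1 hzx
  · rintro ⟨k, hk, z, hz, hzx⟩
    refine ⟨k, hk, z, hz, ?_⟩
    rw [← map_pow]
    exact QuotientGroup.eq.2 hzx

lemma comm_mem_of_mem_Nsub {hc : Cen G} {C : Subgroup G} {hC : IsConv C} {x : G}
    (hx : x ∈ Nsub hc C hC) (g : G) : x⁻¹ * (g⁻¹ * x * g) ∈ C := by
  have := hC.normal hc
  obtain ⟨k, hk, z, hz, hzx⟩ := hx
  have h1 : Commute ((QuotientGroup.mk' C x) ^ k) (QuotientGroup.mk' C g) := by
    rw [← hzx]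
    have : Commute z g := ((Subgroup.mem_center_iff.1 hz) g).symm
    exact this.map _
  have h2 := hC.BO_quotient.commute_of_pow hk h1
  have h3 : QuotientGroup.mk' C (x⁻¹ * (g⁻¹ * x * g)) = 1 := by
    simp only [map_mul, map_inv]
    rw [mul_assoc _ (QuotientGroup.mk' C x), h2.eq]
    group
  rwa [← MonoidHom.mem_ker, QuotientGroup.ker_mk'] at h3

theorem BO_center_quotient (hc : Cen G) : BO (G ⧸ Subgroup.center G) := by
  have hBO := bo_of_order G
  let v : G → Set {C : Subgroup G // IsConv C} := fun x => {C | x ∈ Nsub hc C.1 C.2}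
  have hv : ∀ x C, C ∈ v x ↔ x ∈ Nsub hc C.1 C.2 := fun _ _ => Iff.rfl
  have hv1 : v 1 = Set.univ := by
    ext C
    simp only [Set.mem_univ, iff_true]
    exact (Nsub hc C.1 C.2).one_mem
  have hmono : ∀ C D : {C : Subgroup G // IsConv C}, C.1 ≤ D.1 → ∀ x, C ∈ v x → D ∈ v x := by
    intro C D hCD x hx
    obtain ⟨k, hk, z, hz, hzx⟩ := mem_Nsub.1 ((hv x C).1 hx)
    exact (hv x D).2 (mem_Nsub.2 ⟨k, hk, z, hz, hCD hzx⟩)
  have hN : ∀ x, x ∈ Subgroup.center G ↔ v x = v 1 := by
    intro x
    rw [hv1]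
    constructor
    · intro hx
      ext C
      simp only [Set.mem_univ, iff_true]
      exact (hv x C).2 (mem_Nsub.2 ⟨1, one_ne_zero, x, hx, by simp [C.1.one_mem]⟩)
    · intro hx
      have h1 : (⟨⊥, isConv_bot⟩ : {C : Subgroup G // IsConv C}) ∈ v x := by
        rw [hx]; trivial
      obtain ⟨k, hk, z, hz, hzx⟩ := mem_Nsub.1 ((hv x _).1 h1)
      rw [Subgroup.mem_bot, inv_mul_eq_one] at hzx
      rw [Subgroup.mem_center_iff]
      intro g
      have h2 : Commute (x ^ k) g := by
        rw [← hzx]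
        exact ((Subgroup.mem_center_iff.1 hz) g).symm
      exact (hBO.commute_of_pow hk h2).symm
  refine BO_of_valuation v (Subgroup.center G) hN ?_ ?_ ?_ ?_ ?_ ?_
  · intro x
    rw [hv1]
    exact Set.subset_univ _
  · intro x y
    by_contra hcon
    rw [not_or] at hcon
    obtain ⟨C, hC, hC'⟩ := Set.not_subset.1 hcon.1
    obtain ⟨D, hD, hD'⟩ := Set.not_subset.1 hcon.2
    rcases C.2.total D.2 with h | h
    · exact hD' (hmono C D h x hC)
    · exact hC' (hmono D C h y hD)
  · intro z x y h1 h2 C hC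
    exact (Nsub hc C.1 C.2).mul_mem (h1 hC) (h2 hC)
  · intro x
    ext C
    exact (Nsub hc C.1 C.2).inv_mem_iff
  · intro x k hk
    ext C
    constructor
    · intro h
      have := C.2.normal hc
      have h' := (hv _ C).1 h
      unfold Nsub at h'
      rw [Subgroup.mem_comap, map_pow] at h'
      exact isol_isolated hk h'
    · intro h
      exact (Nsub hc C.1 C.2).pow_mem h k
  · intro x g hx
    set u := x⁻¹ * (g⁻¹ * x * g) with hu
    have hsub : v x ⊆ v u := by
      intro C hC
      have h1 := comm_mem_of_mem_Nsub ((hv x C).1 hC) g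
      exact (hv u C).2 <| mem_Nsub.2 ⟨1, one_ne_zero, 1, Subgroup.one_mem _, by simpa using h1⟩
    refine ⟨hsub, fun hcon => ?_⟩
    by_cases hu1 : u = 1
    · apply hx
      rw [hN]
      refine le_antisymm ?_ (by rw [hu1] at hcon; exact hcon)
      rw [hv1]
      exact Set.subset_univ _
    · obtain ⟨t, ht, htu⟩ : ∃ t : G, 1 < t ∧ (t = u ∨ t = u⁻¹) := by
        rcases lt_or_gt_of_ne hu1 with h | h
        · exact ⟨u⁻¹, by simpa using h, Or.inr rfl⟩
        · exact ⟨u, h, Or.inl rfl⟩
      have hD : (⟨up t ht.le, isConv_up t ht.le⟩ : {C : Subgroup G // IsConv C}) ∈ v u := by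
        refine (hv u _).2 (mem_Nsub.2 ⟨1, one_ne_zero, 1, Subgroup.one_mem _, ?_⟩)
        have h1 := self_mem_up t ht.le
        have h2 : u ∈ up t ht.le := by
          rcases htu with h | h
          · have h3 : u = t := h.symm
            rw [h3]
            exact h1
          · have h3 : u = t⁻¹ := by rw [h, inv_inv]
            rw [h3]
            exact Subgroup.inv_mem _ h1
        simpa using h2
      obtain ⟨k, hk, z, hz, hzx⟩ := mem_Nsub.1 ((hv x _).1 (hcon hD))
      have h1 := comm_mem_lo_of_mem_up hc ht hzx g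
      have hzg : g * z = z * g := Subgroup.mem_center_iff.1 hz g
      have hzg' : g⁻¹ * z⁻¹ = z⁻¹ * g⁻¹ := by
        have := congrArg (fun w => w⁻¹) hzg
        simp only [mul_inv_rev] at this
        exact this.symm
      have h2 : (z⁻¹ * x ^ k)⁻¹ * (g⁻¹ * (z⁻¹ * x ^ k) * g) = (x ^ k)⁻¹ * (g⁻¹ * x ^ k * g) := by
        calc (z⁻¹ * x ^ k)⁻¹ * (g⁻¹ * (z⁻¹ * x ^ k) * g)
            = (x ^ k)⁻¹ * z * (g⁻¹ * z⁻¹) * x ^ k * g := by group
          _ = (x ^ k)⁻¹ * z * (z⁻¹ * g⁻¹) * x ^ k * g := by rw [hzg']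
          _ = _ := by group
      rw [h2] at h1
      have hlc := isConv_lo t ht
      have hln := hlc.normal hc
      have h3 : Commute ((QuotientGroup.mk' (lo t ht) x) ^ k) (QuotientGroup.mk' (lo t ht) g) := by
        rw [← map_pow]
        have h4 : QuotientGroup.mk' (lo t ht) ((x ^ k)⁻¹ * (g⁻¹ * x ^ k * g)) = 1 := by
          rwa [← MonoidHom.mem_ker, QuotientGroup.ker_mk']
        simp only [map_mul, map_inv] at h4
        have h5 := congrArg (fun w => (QuotientGroup.mk' (lo t ht) g) *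
          (QuotientGroup.mk' (lo t ht) (x ^ k)) * w) h4
        simp only [mul_one] at h5
        have h6 : (QuotientGroup.mk' (lo t ht) g) * (QuotientGroup.mk' (lo t ht) (x ^ k)) *
            ((QuotientGroup.mk' (lo t ht) (x ^ k))⁻¹ * ((QuotientGroup.mk' (lo t ht) g)⁻¹ *
              (QuotientGroup.mk' (lo t ht) (x ^ k)) * (QuotientGroup.mk' (lo t ht) g))) =
            (QuotientGroup.mk' (lo t ht) (x ^ k)) * (QuotientGroup.mk' (lo t ht) g) := by group
        rw [h6] at h5
        exact h5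
      have h4 := hlc.BO_quotient.commute_of_pow hk h3
      have h5 : u ∈ lo t ht := by
        rw [← QuotientGroup.ker_mk' (lo t ht), MonoidHom.mem_ker, hu]
        simp only [map_mul, map_inv]
        rw [mul_assoc _ (QuotientGroup.mk' (lo t ht) x), h4.eq]
        group
      refine self_notMem_lo t ht ?_
      rcases htu with h | h
      · have : u = t := h.symm
        rw [this] at h5
        exact h5
      · have h7 := (lo t ht).inv_mem h5
        have : u⁻¹ = t := h.symm
        rw [this] at h7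
        exact h7

end CRO
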