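import Pool.Agent.CRO.Ext

/-!
Every elementary amenable subgroup of a bi-orderable group all of whose right orders are Conrad is
locally nilpotent.
-/

open scoped commutatorElement

namespace CRO

universe u

section LNext

variable {G : Type u} [Group G]

lemma gam_le_of_le {S T : Subgroup G} (h : S ≤ T) {n : ℕ} (hT : gam T n = ⊥) : gam S n = ⊥ := by
  rw [eq_bot_iff, ← hT]
  exact gam_mono h n

/-- adjoining one normalising element -/
theorem LN.insert (hB : BO G) (hA : AC G) {M : Subgroup G} (hM : LN M) {x : G}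
    (hx : x ∈ Subgroup.normalizer M) : LN (Subgroup.closure (insert x (M : Set G))) := by
  intro X hX hXS
  have h1 : ∀ z ∈ X, ∃ v ∈ M, ∃ j : ℤ, z = v * x ^ j := fun z hz =>
    exists_of_mem_closure hx subset_rfl (hXS hz)
  choose! v hv j hj using h1
  obtain ⟨n, hn⟩ := nilpotent_insert hB hA hM hx (hX.image v) (by
    rintro _ ⟨z, hz, rfl⟩
    exact hv z hz)
  refine ⟨n, gam_le_of_le ?_ hn⟩
  rw [Subgroup.closure_le]
  intro z hz
  rw [SetLike.mem_coe, hj z hz]
  refine Subgroup.mul_mem _ (Subgroup.subset_closure (Set.mem_insert_of_mem _ ⟨z, hz, rfl⟩))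
    (Subgroup.zpow_mem _ (Subgroup.subset_closure (Set.mem_insert _ _)) _)

/-- extension by an abelian group -/
theorem LN.abelian_ext (hB : BO G) (hA : AC G) {N S : Subgroup G} (hN : LN N)
    (hS : ∀ a ∈ S, ∀ b ∈ S, ⁅a, b⁆ ∈ N) (hNS : N ≤ S) : LN S := by
  have key : ∀ X : Set G, X.Finite → X ⊆ S → LN (Subgroup.closure (X ∪ N)) := by
    intro X hX
    induction X, hX using Set.Finite.induction_on with
    | empty =>
      intro _
      rw [Set.empty_union, Subgroup.closure_eq]
      exact hN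
    | @insert a X _ _ ih =>
      intro hXS
      have h1 := ih ((Set.subset_insert a X).trans hXS)
      have haS : a ∈ S := hXS (Set.mem_insert a X)
      have hle : Subgroup.closure (X ∪ N) ≤ S := by
        rw [Subgroup.closure_le]
        exact Set.union_subset ((Set.subset_insert a X).trans hXS) hNS
      have hN' : N ≤ Subgroup.closure (X ∪ N) := fun z hz =>
        Subgroup.subset_closure (Or.inr hz)
      have hnorm : a ∈ Subgroup.normalizer (Subgroup.closure (X ∪ N)) := by
        have h2 : ∀ b ∈ S, ∀ z ∈ Subgroup.closure (X ∪ N), b * z * b⁻¹ ∈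
            Subgroup.closure (X ∪ N) := by
          intro b hb z hz
          have h3 : b * z * b⁻¹ = ⁅b, z⁆ * z := by rw [commutatorElement_def]; group
          rw [h3]
          exact Subgroup.mul_mem _ (hN' (hS b hb z (hle hz))) hz
        rw [Subgroup.mem_normalizer_iff]
        intro h
        refine ⟨h2 a haS h, fun h3 => ?_⟩
        have h4 := h2 a⁻¹ (S.inv_mem haS) _ h3
        have h5 : a⁻¹ * (a * h * a⁻¹) * a⁻¹⁻¹ = h := by group
        rwa [h5] at h4
      refine (h1.insert hB hA hnorm).mono ?_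
      rw [Subgroup.closure_le]
      rintro z (hz | hz)
      · rcases hz with rfl | hz
        · exact Subgroup.subset_closure (Set.mem_insert _ _)
        · exact Subgroup.subset_closure (Set.mem_insert_of_mem _
            (Subgroup.subset_closure (Or.inl hz)))
      · exact Subgroup.subset_closure (Set.mem_insert_of_mem _ (hN' hz))
  intro X hX hXS
  obtain ⟨n, hn⟩ := key X hX hXS X hX (fun z hz => Subgroup.subset_closure (Or.inl hz))
  exact ⟨n, hn⟩

end LNext

/-- The smallest class of groups which contains all abelian groups and all periodic (torsion)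
groups and is closed under subgroups, quotients, extensions and directed unions. It contains all
elementary amenable groups, in particular all locally soluble groups. -/
inductive EA : (H : Type u) → [Group H] → Prop
  | abelian (H : Type u) [Group H] (h : ∀ a b : H, a * b = b * a) : EA H
  | periodic (H : Type u) [Group H] (h : ∀ a : H, ∃ n : ℕ, n ≠ 0 ∧ a ^ n = 1) : EA H
  | subgroup (H K : Type u) [Group H] [Group K] (f : K →* H) (hf : Function.Injective f)
      (h : EA H) : EA K
  | quotient (H K : Type u) [Group H] [Group K] (f : H →* K) (hf : Function.Surjective f)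
      (h : EA H) : EA K
  | extension (H : Type u) [Group H] (N : Subgroup H) [N.Normal] (h1 : EA N) (h2 : EA (H ⧸ N)) :
      EA H
  | union (H : Type u) [Group H] (ι : Type u) (S : ι → Subgroup H)
      (hdir : ∀ i j, ∃ k, S i ≤ S k ∧ S j ≤ S k) (hS : ∀ x, ∃ i, x ∈ S i) (h : ∀ i, EA (S i)) :
      EA H

/-- the inductive property -/
def Good (H : Type u) [Group H] : Prop :=
  ∀ (G : Type u) [Group G], BO G → AC G → ∀ U : Subgroup (H × G),
    LN (U.comap (MonoidHom.inr H G)) → LN (U.map (MonoidHom.snd H G))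

theorem EA.good {H : Type u} [Group H] (h : EA H) : Good H := by
  induction h with
  | abelian H h =>
    intro G _ hB hA U hU
    refine LN.abelian_ext hB hA hU ?_ ?_
    · rintro _ ⟨⟨a, x⟩, hx, rfl⟩ _ ⟨⟨b, y⟩, hy, rfl⟩
      rw [Subgroup.mem_comap]
      have h1 : ⁅(a, x), (b, y)⁆ ∈ U := by
        rw [commutatorElement_def]
        exact U.mul_mem (U.mul_mem (U.mul_mem hx hy) (U.inv_mem hx)) (U.inv_mem hy)
      have h2 : ⁅(a, x), (b, y)⁆ = (MonoidHom.inr H G) ⁅x, y⁆ := by
        refine Prod.ext ?_ rfl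
        change a * b * a⁻¹ * b⁻¹ = 1
        rw [h a b]; group
      change (MonoidHom.inr H G) ⁅x, y⁆ ∈ U
      rw [← h2]
      exact h1
    · intro x hx
      exact ⟨(1, x), hx, rfl⟩
  | periodic H h =>
    intro G _ hB hA U hU
    refine LN.of_pow hB hA hU ?_
    rintro _ ⟨⟨a, x⟩, hx, rfl⟩
    obtain ⟨n, hn, h1⟩ := h a
    refine ⟨n, hn, ?_⟩
    have h2 := U.pow_mem hx n
    rw [Prod.pow_mk, h1] at h2
    exact h2
  | subgroup H K f hf _ ih =>
    intro G _ hB hA U hU
    have h1 := ih G hB hA (U.map (f.prodMap (MonoidHom.id G))) (hU.mono (by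
      rintro x ⟨⟨a, y⟩, ha, hay⟩
      have h2 : f a = 1 := congrArg Prod.fst hay
      have h3 : y = x := congrArg Prod.snd hay
      have h4 : a = 1 := hf (by rw [h2, map_one])
      subst h3 h4
      exact ha))
    refine h1.mono ?_
    rintro _ ⟨⟨a, x⟩, hx, rfl⟩
    exact ⟨(f a, x), ⟨(a, x), hx, rfl⟩, rfl⟩
  | quotient H K f hf _ ih =>
    intro G _ hB hA U hU
    have h1 := ih G hB hA (U.comap (f.prodMap (MonoidHom.id G))) (hU.mono (by
      intro x hx
      have h2 : (f 1, x) ∈ U := hx
      rw [map_one] at h2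
      exact h2))
    refine h1.mono ?_
    rintro _ ⟨⟨a, x⟩, hx, rfl⟩
    obtain ⟨b, rfl⟩ := hf a
    exact ⟨(b, x), hx, rfl⟩
  | extension H N _ _ ih1 ih2 =>
    intro G _ hB hA U hU
    have h1 := ih1 G hB hA (U.comap (N.subtype.prodMap (MonoidHom.id G))) (hU.mono (by
      intro x hx
      exact hx))
    have h2 := ih2 G hB hA (U.map ((QuotientGroup.mk' N).prodMap (MonoidHom.id G))) (h1.mono (by
      rintro x ⟨⟨a, y⟩, ha, hay⟩
      have h2 : QuotientGroup.mk' N a = 1 := congrArg Prod.fst hay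
      have h3 : y = x := congrArg Prod.snd hay
      rw [← MonoidHom.mem_ker, QuotientGroup.ker_mk'] at h2
      subst h3
      exact ⟨(⟨a, h2⟩, y), ha, rfl⟩))
    refine h2.mono ?_
    rintro _ ⟨⟨a, x⟩, hx, rfl⟩
    exact ⟨(QuotientGroup.mk' N a, x), ⟨(a, x), hx, rfl⟩, rfl⟩
  | union H ι S hdir hS _ ih =>
    intro G _ hB hA U hU
    have h1 : ∀ i, LN ((U.comap ((S i).subtype.prodMap (MonoidHom.id G))).map
        (MonoidHom.snd (S i) G)) := fun i => ih i G hB hA _ (hU.mono (by
          intro x hx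
          exact hx))
    have : Nonempty ι := ⟨(hS 1).choose⟩
    refine LN.union _ ?_ ?_ h1
    · intro i j
      obtain ⟨k, hk1, hk2⟩ := hdir i j
      refine ⟨k, ?_, ?_⟩
      · rintro _ ⟨⟨⟨a, ha⟩, x⟩, hx, rfl⟩
        exact ⟨(⟨a, hk1 ha⟩, x), hx, rfl⟩
      · rintro _ ⟨⟨⟨a, ha⟩, x⟩, hx, rfl⟩
        exact ⟨(⟨a, hk2 ha⟩, x), hx, rfl⟩
    · rintro _ ⟨⟨a, x⟩, hx, rfl⟩
      obtain ⟨i, hi⟩ := hS a
      exact ⟨i, (⟨a, hi⟩, x), hx, rfl⟩

theorem locally_nilpotent_of_EA {G : Type u} [Group G] (hB : BO G) (hA : AC G) (S : Subgroup G)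
    (hS : EA S) : LN S := by
  have h1 := hS.good G hB hA (MonoidHom.range ((MonoidHom.id S).prod S.subtype)) (by
    refine LN_bot.mono ?_
    rintro x ⟨y, hy⟩
    have h2 : y = 1 := congrArg Prod.fst hy
    have h3 : (y : G) = x := congrArg Prod.snd hy
    rw [Subgroup.mem_bot, ← h3, h2]
    rfl)
  refine h1.mono ?_
  intro x hx
  exact ⟨(⟨x, hx⟩, x), ⟨⟨x, hx⟩, rfl⟩, rfl⟩

/-- right orders of a locally nilpotent subgroup are Conrad -/
theorem AC_of_LN {G : Type u} [Group G] {S : Subgroup G} (hS : LN S) : AC S := by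
  intro P hP f g hbad
  have h1 : ∃ n, gam (Subgroup.closure ({(g : G), ((g * f⁻¹ : S) : G)} : Set G)) n = ⊥ :=
    hS _ (Set.toFinite _) (by
      rintro x (rfl | rfl)
      · exact g.2
      · exact (g * f⁻¹).2)
  obtain ⟨n, hn⟩ := h1
  have h2 := mseq_eq_of_gam (S := Subgroup.closure ({g, g * f⁻¹} : Set S)) (x := g)
    (y := g * f⁻¹) (Subgroup.subset_closure (by simp)) (Subgroup.subset_closure (by simp))
    (n := n) (by
      rw [eq_bot_iff]
      intro z hz
      have h3 : S.subtype z ∈ (gam (Subgroup.closure ({g, g * f⁻¹} : Set S)) n).map S.subtype :=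
        ⟨z, hz, rfl⟩
      rw [map_gam, MonoidHom.map_closure] at h3
      have h4 : S.subtype '' {g, g * f⁻¹} = {(g : G), ((g * f⁻¹ : S) : G)} := by
        rw [Set.image_pair]; rfl
      rw [h4, hn, Subgroup.mem_bot] at h3
      exact Subgroup.mem_bot.2 (Subtype.ext h3))
  exact mseq_ne_of_bad hP hbad n h2

end CRO
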