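import Mathlib

/-!
Relative right cones, relatively convex subgroups, hulls, the all-Conrad property.
-/

namespace CRO

universe u

variable {G : Type u} [Group G]

/-- positive cone of a right-invariant order on the cosets `C g`. For `C = ⊥` this is the positive
cone of a right order. -/
structure RCone (C : Subgroup G) (P : Set G) : Prop where
  mul : ∀ x ∈ P, ∀ y ∈ P, x * y ∈ P
  left : ∀ c ∈ C, ∀ x ∈ P, c * x ∈ P
  right : ∀ x ∈ P, ∀ c ∈ C, x * c ∈ P
  disj : ∀ x ∈ P, x ∉ C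
  total : ∀ x, x ∉ C → x ∈ P ∨ x⁻¹ ∈ P

/-- bi-invariant cone -/
structure BCone (P : Set G) : Prop where
  mul : ∀ x ∈ P, ∀ y ∈ P, x * y ∈ P
  conj : ∀ x ∈ P, ∀ g, g⁻¹ * x * g ∈ P
  one : (1 : G) ∉ P
  total : ∀ x, x ≠ 1 → x ∈ P ∨ x⁻¹ ∈ P

def RC (C : Subgroup G) : Prop := ∃ P : Set G, RCone C P

variable (G) in
def BO : Prop := ∃ P : Set G, BCone P

/-- `(f, g)` is a bad pair for `P`: it violates the Conrad property. -/
structure Bad (P : Set G) (f g : G) : Prop where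
  pos : f ∈ P
  lt : g * f⁻¹ ∈ P
  bad : ∀ m : ℕ, 0 < m → f * g ^ m * f⁻¹ * g⁻¹ ∉ P

variable (G) in
/-- all right orders are Conrad -/
def AC : Prop := ∀ P : Set G, RCone (⊥ : Subgroup G) P → ∀ f g, ¬ Bad P f g

lemma RCone.inv_notMem {C : Subgroup G} {P : Set G} (h : RCone C P) {x : G} (hx : x ∈ P) :
    x⁻¹ ∉ P := by
  intro hx'
  have := h.mul _ hx _ hx'
  rw [mul_inv_cancel] at this
  exact h.disj _ this C.one_mem

lemma RCone.one_notMem {C : Subgroup G} {P : Set G} (h : RCone C P) : (1 : G) ∉ P :=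
  fun h1 => h.disj _ h1 C.one_mem

lemma RCone.inv {C : Subgroup G} {P : Set G} (h : RCone C P) : RCone C {x | x⁻¹ ∈ P} where
  mul := by
    intro x hx y hy
    simp only [Set.mem_ofPred_eq, mul_inv_rev] at *
    exact h.mul _ hy _ hx
  left := by
    intro c hc x hx
    simp only [Set.mem_ofPred_eq, mul_inv_rev] at *
    exact h.right _ hx _ (C.inv_mem hc)
  right := by
    intro x hx c hc
    simp only [Set.mem_ofPred_eq, mul_inv_rev] at *
    exact h.left _ (C.inv_mem hc) _ hx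
  disj := by
    intro x hx hxC
    exact h.disj _ hx (C.inv_mem hxC)
  total := by
    intro x hx
    have := h.total x hx
    simp only [Set.mem_ofPred_eq, inv_inv]
    tauto

lemma BCone.rcone {P : Set G} (h : BCone P) : RCone (⊥ : Subgroup G) P where
  mul := h.mul
  left := by
    intro c hc x hx
    rw [Subgroup.mem_bot] at hc
    simpa [hc] using hx
  right := by
    intro x hx c hc
    rw [Subgroup.mem_bot] at hc
    simpa [hc] using hx
  disj := by
    intro x hx hx1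
    rw [Subgroup.mem_bot] at hx1
    exact h.one (hx1 ▸ hx)
  total := by
    intro x hx
    exact h.total x (by simpa [Subgroup.mem_bot] using hx)

lemma RC_top : RC (⊤ : Subgroup G) :=
  ⟨∅, by simp, by simp, by simp, by simp, by simp⟩

lemma BO.rc_bot (h : BO G) : RC (⊥ : Subgroup G) := by
  obtain ⟨P, hP⟩ := h
  exact ⟨P, hP.rcone⟩

/-- a relative cone together with a cone on a smaller relative piece. -/
lemma RCone.combine {C D : Subgroup G} {P Q : Set G} (hDC : D ≤ C) (hP : RCone C P)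
    (hmul : ∀ x ∈ Q, ∀ y ∈ Q, x * y ∈ Q) (hleft : ∀ c ∈ D, ∀ x ∈ Q, c * x ∈ Q)
    (hright : ∀ x ∈ Q, ∀ c ∈ D, x * c ∈ Q) (hdisj : ∀ x ∈ Q, x ∉ D) (hQC : ∀ x ∈ Q, x ∈ C)
    (htot : ∀ x ∈ C, x ∉ D → x ∈ Q ∨ x⁻¹ ∈ Q) : RCone D (P ∪ Q) where
  mul := by
    rintro x (hx | hx) y (hy | hy)
    · exact Or.inl (hP.mul _ hx _ hy)
    · exact Or.inl (hP.right _ hx _ (hQC _ hy))
    · exact Or.inl (hP.left _ (hQC _ hx) _ hy)
    · exact Or.inr (hmul _ hx _ hy)
  left := by
    rintro c hc x (hx | hx)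
    · exact Or.inl (hP.left _ (hDC hc) _ hx)
    · exact Or.inr (hleft _ hc _ hx)
  right := by
    rintro x (hx | hx) c hc
    · exact Or.inl (hP.right _ hx _ (hDC hc))
    · exact Or.inr (hright _ hx _ hc)
  disj := by
    rintro x (hx | hx) hxD
    · exact hP.disj _ hx (hDC hxD)
    · exact hdisj _ hx hxD
  total := by
    intro x hx
    by_cases hxC : x ∈ C
    · rcases htot x hxC hx with h | h
      · exact Or.inl (Or.inr h)
      · exact Or.inr (Or.inr h)
    · rcases hP.total x hxC with h | h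
      · exact Or.inl (Or.inl h)
      · exact Or.inr (Or.inl h)

/-- combining a relative cone with a right order of the whole group. -/
lemma RCone.combine' {C : Subgroup G} {P Q : Set G} (hP : RCone C P)
    (hQ : RCone (⊥ : Subgroup G) Q) : RCone (⊥ : Subgroup G) (P ∪ {x | x ∈ C ∧ x ∈ Q}) := by
  refine RCone.combine bot_le hP ?_ ?_ ?_ ?_ ?_ ?_
  · rintro x ⟨hx, hx'⟩ y ⟨hy, hy'⟩
    exact ⟨C.mul_mem hx hy, hQ.mul _ hx' _ hy'⟩
  · intro c hc x hx
    rw [Subgroup.mem_bot] at hc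
    simpa [hc] using hx
  · intro x hx c hc
    rw [Subgroup.mem_bot] at hc
    simpa [hc] using hx
  · rintro x ⟨hx, hx'⟩
    exact hQ.disj _ hx'
  · rintro x ⟨hx, hx'⟩
    exact hx
  · intro x hx hx1
    rcases hQ.total x hx1 with h | h
    · exact Or.inl ⟨hx, h⟩
    · exact Or.inr ⟨C.inv_mem hx, h⟩

lemma RCone.comap {K : Type*} [Group K] (φ : G →* K) {C : Subgroup K} {P : Set K}
    (hP : RCone C P) : RCone (C.comap φ) (φ ⁻¹' P) where
  mul := by
    intro x hx y hy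
    simpa using hP.mul _ hx _ hy
  left := by
    intro x hx y hy
    simpa using hP.left _ hx _ hy
  right := by
    intro x hx y hy
    simpa using hP.right _ hx _ hy
  disj := by
    intro x hx hxC
    exact hP.disj _ hx hxC
  total := by
    intro x hx
    simpa using hP.total (φ x) hx

lemma RC.comap {K : Type*} [Group K] (φ : G →* K) {C : Subgroup K} (h : RC C) :
    RC (C.comap φ) := by
  obtain ⟨P, hP⟩ := h
  exact ⟨_, hP.comap φ⟩

lemma RCone.trans {H : Subgroup G} {P : Set G} (hP : RCone H P) {C : Subgroup H} {Q : Set H}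
    (hQ : RCone C Q) : RCone (C.map H.subtype) (P ∪ (H.subtype '' Q)) := by
  refine RCone.combine ?_ hP ?_ ?_ ?_ ?_ ?_ ?_
  · rintro _ ⟨x, -, rfl⟩
    exact x.2
  · rintro _ ⟨x, hx, rfl⟩ _ ⟨y, hy, rfl⟩
    exact ⟨x * y, hQ.mul _ hx _ hy, rfl⟩
  · rintro _ ⟨x, hx, rfl⟩ _ ⟨y, hy, rfl⟩
    exact ⟨x * y, hQ.left _ hx _ hy, rfl⟩
  · rintro _ ⟨x, hx, rfl⟩ _ ⟨y, hy, rfl⟩
    exact ⟨x * y, hQ.right _ hx _ hy, rfl⟩
  · rintro _ ⟨x, hx, rfl⟩ ⟨y, hy, hxy⟩
    have : y = x := H.subtype_injective hxy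
    exact hQ.disj _ hx (this ▸ hy)
  · rintro _ ⟨x, hx, rfl⟩
    exact x.2
  · intro x hx hxC
    have hx' : (⟨x, hx⟩ : H) ∉ C := fun h => hxC ⟨⟨x, hx⟩, h, rfl⟩
    rcases hQ.total _ hx' with h | h
    · exact Or.inl ⟨_, h, rfl⟩
    · exact Or.inr ⟨_, h, rfl⟩

lemma RC.trans {H : Subgroup G} (h : RC H) {C : Subgroup H} (hC : RC C) :
    RC (C.map H.subtype) := by
  obtain ⟨P, hP⟩ := h
  obtain ⟨Q, hQ⟩ := hC
  exact ⟨_, hP.trans hQ⟩

lemma RC.iInf {ι : Type*} (C : ι → Subgroup G) (h : ∀ i, RC (C i)) : RC (⨅ i, C i) := by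
  classical
  choose P hP using h
  let r : ι → ι → Prop := WellOrderingRel
  have hr : IsWellOrder ι r := WellOrderingRel.isWellOrder
  have hwf : WellFounded r := hr.wf
  refine ⟨{g | ∃ i, (∀ j, r j i → g ∈ C j) ∧ g ∈ P i}, ?_, ?_, ?_, ?_, ?_⟩
  · rintro x ⟨i, hi, hxi⟩ y ⟨j, hj, hyj⟩
    rcases trichotomous_of r i j with h | h | h
    · exact ⟨i, fun k hk => (C k).mul_mem (hi k hk) (hj k (_root_.trans hk h)),
        (hP i).right _ hxi _ (hj i h)⟩
    · subst h
      exact ⟨i, fun k hk => (C k).mul_mem (hi k hk) (hj k hk), (hP i).mul _ hxi _ hyj⟩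
    · exact ⟨j, fun k hk => (C k).mul_mem (hi k (_root_.trans hk h)) (hj k hk),
        (hP j).left _ (hi j h) _ hyj⟩
  · rintro c hc x ⟨i, hi, hxi⟩
    rw [Subgroup.mem_iInf] at hc
    exact ⟨i, fun k hk => (C k).mul_mem (hc k) (hi k hk), (hP i).left _ (hc i) _ hxi⟩
  · rintro x ⟨i, hi, hxi⟩ c hc
    rw [Subgroup.mem_iInf] at hc
    exact ⟨i, fun k hk => (C k).mul_mem (hi k hk) (hc k), (hP i).right _ hxi _ (hc i)⟩
  · rintro x ⟨i, hi, hxi⟩ hx
    rw [Subgroup.mem_iInf] at hx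
    exact (hP i).disj _ hxi (hx i)
  · intro x hx
    rw [Subgroup.mem_iInf, not_forall] at hx
    obtain ⟨i, hi, hmin⟩ := hwf.has_min {i | x ∉ C i} hx
    have hmin' : ∀ j, r j i → x ∈ C j := by
      intro j hj
      by_contra hc
      exact hmin j hc hj
    rcases (hP i).total x hi with h | h
    · exact Or.inl ⟨i, hmin', h⟩
    · exact Or.inr ⟨i, fun j hj => (C j).inv_mem (hmin' j hj), h⟩

/-- the relatively convex hull -/
def hull (S : Subgroup G) : Subgroup G := ⨅ C : {C : Subgroup G // RC C ∧ S ≤ C}, C.1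

lemma RC_hull (S : Subgroup G) : RC (hull S) := RC.iInf _ fun C => C.2.1

lemma le_hull (S : Subgroup G) : S ≤ hull S := le_iInf fun C => C.2.2

lemma hull_le {S C : Subgroup G} (hC : RC C) (h : S ≤ C) : hull S ≤ C :=
  iInf_le (fun C : {C : Subgroup G // RC C ∧ S ≤ C} => C.1) ⟨C, hC, h⟩

lemma hull_comap_le {K : Type*} [Group K] (φ : G →* K) (S : Subgroup G) :
    hull S ≤ (hull (S.map φ)).comap φ :=
  hull_le ((RC_hull _).comap φ) (Subgroup.map_le_iff_le_comap.1 (le_hull _))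

/-- the defining inequalities of a bad pair are strict -/
lemma Bad.strict {P : Set G} (hP : RCone (⊥ : Subgroup G) P) {f g : G} (h : Bad P f g)
    (m : ℕ) (hm : 0 < m) : g * f * (f * g ^ m)⁻¹ ∈ P := by
  -- we write `a < b` for `b * a⁻¹ ∈ P`
  have hf := h.pos
  have hg : g ∈ P := by
    have := hP.mul _ h.lt _ hf
    simpa using this
  have key : ∀ m : ℕ, 0 < m → f * g ^ m = g * f ∨ g * f * (f * g ^ m)⁻¹ ∈ P := by
    intro m hm
    by_cases h1 : f * g ^ m = g * f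
    · exact Or.inl h1
    · right
      have h2 : f * g ^ m * f⁻¹ * g⁻¹ ∉ (⊥ : Subgroup G) := by
        rw [Subgroup.mem_bot]
        intro h3
        apply h1
        have : f * g ^ m * f⁻¹ * g⁻¹ = f * g ^ m * (g * f)⁻¹ := by group
        rw [this, mul_inv_eq_one] at h3
        exact h3
      rcases hP.total _ h2 with h3 | h3
      · exact absurd h3 (h.bad m hm)
      · convert h3 using 1
        group
  -- f < f g
  have hinc : ∀ m : ℕ, f * g ^ (m + 1) * (f * g ^ m)⁻¹ ∈ P := by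
    intro m
    have h1 : f * g ^ (m + 1) * (f * g ^ m)⁻¹ = f * (g * f⁻¹) := by
      rw [pow_succ']
      group
    rw [h1]
    exact hP.mul _ hf _ h.lt
  rcases key m hm with h1 | h1
  · exfalso
    have h2 := hinc m
    rw [h1] at h2
    have h3 : f * g ^ (m + 1) * (g * f)⁻¹ = f * g ^ (m + 1) * f⁻¹ * g⁻¹ := by group
    rw [h3] at h2
    exact h.bad (m + 1) (by omega) h2
  · exact h1

/-- a convenient way to produce bad pairs -/
lemma Bad.mk' {P : Set G} (hP : RCone (⊥ : Subgroup G) P) {f g : G} (hf : f ∈ P)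
    (hg : g * f⁻¹ ∈ P) (h : ∀ m : ℕ, 0 < m → g * f * (f * g ^ m)⁻¹ ∈ P) : Bad P f g := by
  refine ⟨hf, hg, fun m hm h1 => ?_⟩
  have h2 := h m hm
  have h3 : g * f * (f * g ^ m)⁻¹ = (f * g ^ m * f⁻¹ * g⁻¹)⁻¹ := by group
  rw [h3] at h2
  exact hP.inv_notMem h1 h2

lemma AC.subgroup (h : AC G) {H : Subgroup G} (hH : RC H) : AC H := by
  intro Q hQ f g hbad
  obtain ⟨P, hP⟩ := hH
  have h1 := hP.trans hQ
  rw [Subgroup.map_bot] at h1
  refine h _ h1 f g ?_
  refine Bad.mk' h1 (Or.inr ⟨f, hbad.pos, rfl⟩) (Or.inr ⟨_, hbad.lt, rfl⟩) ?_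
  intro m hm
  exact Or.inr ⟨_, hbad.strict hQ m hm, rfl⟩

lemma AC.quotient (h : AC G) (hG : RC (⊥ : Subgroup G)) (N : Subgroup G) [N.Normal] :
    AC (G ⧸ N) := by
  intro Q hQ f g hbad
  obtain ⟨P, hP⟩ := hG
  have h1 := (hQ.comap (QuotientGroup.mk' N)).combine' hP
  obtain ⟨f, rfl⟩ := QuotientGroup.mk'_surjective N f
  obtain ⟨g, rfl⟩ := QuotientGroup.mk'_surjective N g
  refine h _ h1 f g ?_
  refine Bad.mk' h1 (Or.inl hbad.pos) (Or.inl ?_) ?_
  · simpa using hbad.lt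
  · intro m hm
    left
    simpa using hbad.strict hQ m hm

lemma BO.rc (h : BO G) : RC (⊥ : Subgroup G) := h.rc_bot

lemma BO.of_injective {K : Type*} [Group K] (φ : G →* K) (hφ : Function.Injective φ) (h : BO K) :
    BO G := by
  obtain ⟨P, hP⟩ := h
  refine ⟨φ ⁻¹' P, ?_, ?_, ?_, ?_⟩
  · intro x hx y hy
    simpa using hP.mul _ hx _ hy
  · intro x hx g
    simpa using hP.conj _ hx (φ g)
  · simpa using hP.one
  · intro x hx
    have : φ x ≠ 1 := by
      rwa [Ne, ← map_one φ, hφ.eq_iff]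
    simpa using hP.total _ this

lemma BO.subgroup (h : BO G) (H : Subgroup G) : BO H :=
  BO.of_injective H.subtype H.subtype_injective h

end CRO
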