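import Pool.Agent.CRO.Action

/-!
The conjugation action on an abelian normal subgroup, written additively.
-/

open scoped commutatorElement

namespace CRO

universe u

variable {K : Type u} [Group K]

/-- abelian subgroup -/
class Ab (A : Subgroup K) : Prop where
  comm : ∀ x ∈ A, ∀ y ∈ A, x * y = y * x

instance (A : Subgroup K) [h : Ab A] : AddCommGroup (Additive A) :=
  { (inferInstance : AddGroup (Additive A)) with
    add_comm := fun a b => Subtype.ext (h.comm _ (Additive.toMul a).2 _ (Additive.toMul b).2) }

variable (A : Subgroup K) [hn : A.Normal] [h : Ab A]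

/-- conjugation as an endomorphism -/
def cEnd : K →* Module.End ℤ (Additive A) where
  toFun g := AddMonoidHom.toIntLinearMap
    { toFun := fun a => Additive.ofMul (MulAut.conjNormal g (Additive.toMul a))
      map_zero' := by simp
      map_add' := by
        intro a b
        simp }
  map_one' := by
    ext a
    simp
  map_mul' := by
    intro g k
    ext a
    simp [mul_assoc]

/-- value in the group -/
def val {A : Subgroup K} (a : Additive A) : K := (Additive.toMul a : A)

variable {A}

omit hn h in
lemma val_mem (a : Additive A) : val a ∈ A := (Additive.toMul a).2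

omit hn h in
lemma val_inj {a b : Additive A} (hab : val a = val b) : a = b := Subtype.ext hab

omit hn in
@[simp] lemma val_add (a b : Additive A) : val (a + b) = val a * val b := rfl

omit hn in
@[simp] lemma val_neg (a : Additive A) : val (-a) = (val a)⁻¹ := rfl

omit hn in
@[simp] lemma val_zero : val (0 : Additive A) = 1 := rfl

omit hn in
@[simp] lemma val_sub (a b : Additive A) : val (a - b) = val a * (val b)⁻¹ := by
  rw [sub_eq_add_neg]; rfl

omit hn in
@[simp] lemma val_nsmul (n : ℕ) (a : Additive A) : val (n • a) = val a ^ n := by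
  induction n with
  | zero => simp
  | succ n ih => rw [succ_nsmul, val_add, ih, pow_succ]

omit hn in
@[simp] lemma val_zsmul (n : ℤ) (a : Additive A) : val (n • a) = val a ^ n := by
  cases n with
  | ofNat n => simp
  | negSucc n => rw [negSucc_zsmul, val_neg, val_nsmul, zpow_negSucc]

@[simp] lemma val_cEnd (g : K) (a : Additive A) : val (cEnd A g a) = g * val a * g⁻¹ := rfl

lemma cEnd_of_mem {g : K} (hg : g ∈ A) : cEnd A g = 1 := by
  refine LinearMap.ext fun a => val_inj ?_
  rw [val_cEnd, Module.End.one_apply, h.comm _ hg _ (val_mem a)]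
  group

lemma val_cEnd_sub (g : K) (a : Additive A) : val (cEnd A g a - a) = ⁅g, val a⁆ := by
  rw [val_sub, val_cEnd, commutatorElement_def]

/-- element of `A` -/
def el (a : K) (ha : a ∈ A) : Additive A := Additive.ofMul ⟨a, ha⟩

omit hn h in
@[simp] lemma val_el (a : K) (ha : a ∈ A) : val (el a ha) = a := rfl

/-- f.g. subgroups are nilpotent if they are nilpotent modulo `A` and act locally unipotently -/
theorem exists_gam_eq_bot {X : Set K} (hX : X.Finite) {c : ℕ}
    (hc : gam (Subgroup.closure X) c ≤ A)
    (hun : ∀ b ∈ Subgroup.closure X, ∀ v : Additive A, ∃ n : ℕ, ((cEnd A b - 1) ^ n) v = 0) :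
    ∃ m, gam (Subgroup.closure X) m = ⊥ := by
  set L := Subgroup.closure X with hL
  have hstab0 : Stab (cEnd A) L (⊥ : AddSubgroup (Additive A)) := by
    intro g _ u hu
    rw [AddSubgroup.mem_bot] at *
    rw [hu, map_zero]
  have h1 : ∀ v : Additive A, ∃ m, v ∈ FF (cEnd A) L ⊥ m := by
    intro v
    refine exists_mem_FF (cEnd A) L hX hL hun c ⊥ hstab0 v ?_
    intro l hl g hg
    rw [cEnd_of_mem (hc hg)]
    simp
  have hY := lnc_finite hX c
  have hYA : ∀ y ∈ lnc X c, y ∈ A := fun y hy => hc (lnc_mem_gam c hy)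
  choose m hm using h1
  have h2 : ∃ M, ∀ y, ∀ hy : y ∈ lnc X c, el y (hYA y hy) ∈ FF (cEnd A) L ⊥ M := by
    classical
    let f : K → ℕ := fun y => if hy : y ∈ lnc X c then m (el y (hYA y hy)) else 0
    refine ⟨hY.toFinset.sup f, fun y hy => ?_⟩
    have h3 : f y ≤ hY.toFinset.sup f := Finset.le_sup (hY.mem_toFinset.2 hy)
    have h4 : f y = m (el y (hYA y hy)) := dif_pos hy
    rw [h4] at h3
    exact FF_mono _ _ hstab0 h3 (hm _)
  obtain ⟨M, hM⟩ := h2
  have hFs := FF_stab (cEnd A) L hstab0
  -- `gam L c` is contained in the subgroup of elements with values in `FF`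
  let U : ℕ → Subgroup K := fun n =>
    { carrier := {x | ∃ hx : x ∈ A, el x hx ∈ FF (cEnd A) L ⊥ n}
      mul_mem' := by
        rintro a b ⟨ha, ha'⟩ ⟨hb, hb'⟩
        exact ⟨A.mul_mem ha hb, AddSubgroup.add_mem _ ha' hb'⟩
      one_mem' := ⟨A.one_mem, AddSubgroup.zero_mem _⟩
      inv_mem' := by
        rintro a ⟨ha, ha'⟩
        exact ⟨A.inv_mem ha, AddSubgroup.neg_mem _ ha'⟩ }
  have h3 : gam L c ≤ U M := by
    refine (gam_le_ncl X c).trans ?_
    refine ncl_le (fun y hy => ⟨hYA y hy, hM y hy⟩) ?_
    rintro l hl u ⟨hu, hu'⟩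
    exact ⟨hn.conj_mem u hu l, hFs M l hl _ hu'⟩
  have h4 : ∀ n c, gam L c ≤ U n → gam L (c + n) = ⊥ := by
    intro n
    induction n with
    | zero =>
      intro c hc
      rw [eq_bot_iff]
      intro x hx
      obtain ⟨hxA, hx'⟩ := hc hx
      have h5 : el x hxA = 0 := hx'
      rw [Subgroup.mem_bot]
      have h6 := congrArg val h5
      simpa using h6
    | succ n ih =>
      intro c hc
      have h5 : gam L (c + 1) ≤ U n := by
        rw [gam_succ, Subgroup.commutator_le]
        intro x hx g hg
        obtain ⟨hxA, hx'⟩ := hc hx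
        have h6 := (mem_FF_succ _ _).1 hx' g hg
        have h7 : ⁅x, g⁆ ∈ A := by
          rw [commutatorElement_def, mul_assoc, mul_assoc]
          refine A.mul_mem hxA ?_
          rw [← mul_assoc]
          exact hn.conj_mem _ (A.inv_mem hxA) g
        refine ⟨h7, ?_⟩
        have h8 : el ⁅x, g⁆ h7 = -(cEnd A g (el x hxA) - el x hxA) := by
          apply val_inj
          rw [val_neg, val_cEnd_sub, val_el, val_el, commutatorElement_inv]
        rw [h8]
        exact AddSubgroup.neg_mem _ h6
      have := ih (c + 1) h5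
      rw [← this]
      congr 1
      omega
  exact ⟨c + M, h4 M c h3⟩

end CRO
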