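import Pool.Agent.CRO.Graded

/-!
Convex subgroups of centrally ordered groups; the quotient by the centre.
-/

namespace CRO

universe u

section BOlemmas

variable {K : Type u} [Group K]

lemma pow_lt_pow_of_lt {G : Type u} [Group G] [LinearOrder G] [MulLeftStrictMono G]
    [MulRightStrictMono G] {a b : G} (h : a < b) {k : ℕ} (hk : k ≠ 0) : a ^ k < b ^ k := by
  obtain ⟨k, rfl⟩ := Nat.exists_eq_succ_of_ne_zero hk
  clear hk
  induction k with
  | zero => simpa using h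
  | succ k ih =>
    have h1 : a ^ (k + 1) * a < b ^ (k + 1) * a := mul_lt_mul_left ih a
    have h2 : b ^ (k + 1) * a < b ^ (k + 1) * b := mul_lt_mul_right h _
    rw [Nat.succ_eq_add_one, pow_succ, pow_succ b]
    exact h1.trans h2

lemma BO.pow_inj (h : BO K) {a b : K} {k : ℕ} (hk : k ≠ 0) (hab : a ^ k = b ^ k) : a = b := by
  obtain ⟨_, _, _⟩ := h.exists_order
  rcases lt_trichotomy a b with h1 | h1 | h1
  · exact absurd hab (pow_lt_pow_of_lt h1 hk).ne
  · exact h1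
  · exact absurd hab (pow_lt_pow_of_lt h1 hk).ne'

lemma BO.commute_of_pow (h : BO K) {a b : K} {k : ℕ} (hk : k ≠ 0) (hab : Commute (a ^ k) b) :
    Commute a b := by
  have h1 : (b⁻¹ * a * b) ^ k = a ^ k := by
    have : (b⁻¹ * a * b) ^ k = b⁻¹ * a ^ k * b := by
      have := conj_pow (i := k) (a := b⁻¹) (b := a)
      simpa using this
    rw [this, mul_assoc, hab.eq]
    group
  have h2 := h.pow_inj hk h1
  have : b * (b⁻¹ * a * b) = b * a := by rw [h2]
  have h3 : a * b = b * a := by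
    rw [← this]; group
  exact h3

lemma BO.commute_of_pow_pow (h : BO K) {a b : K} {k l : ℕ} (hk : k ≠ 0) (hl : l ≠ 0)
    (hab : Commute (a ^ k) (b ^ l)) : Commute a b := by
  have h1 := h.commute_of_pow hk hab
  exact (h.commute_of_pow hl h1.symm).symm

/-- the isolator of a commutative subgroup of a bi-orderable group -/
def isol (h : BO K) (N : Subgroup K) (hN : ∀ x ∈ N, ∀ y ∈ N, Commute x y) : Subgroup K where
  carrier := {g | ∃ k : ℕ, k ≠ 0 ∧ g ^ k ∈ N}
  mul_mem' := by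
    rintro a b ⟨k, hk, ha⟩ ⟨l, hl, hb⟩
    have hab : Commute a b := h.commute_of_pow_pow hk hl (hN _ ha _ hb)
    refine ⟨k * l, Nat.mul_ne_zero hk hl, ?_⟩
    rw [hab.mul_pow, pow_mul, mul_comm k l, pow_mul]
    exact N.mul_mem (N.pow_mem ha l) (N.pow_mem hb k)
  one_mem' := ⟨1, one_ne_zero, by simp⟩
  inv_mem' := by
    rintro a ⟨k, hk, ha⟩
    refine ⟨k, hk, ?_⟩
    rw [inv_pow]
    exact N.inv_mem ha

lemma mem_isol {h : BO K} {N : Subgroup K} {hN : ∀ x ∈ N, ∀ y ∈ N, Commute x y} {g : K} :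
    g ∈ isol h N hN ↔ ∃ k : ℕ, k ≠ 0 ∧ g ^ k ∈ N := Iff.rfl

lemma le_isol {h : BO K} {N : Subgroup K} {hN : ∀ x ∈ N, ∀ y ∈ N, Commute x y} :
    N ≤ isol h N hN := fun x hx => ⟨1, one_ne_zero, by simpa using hx⟩

lemma isol_comm {h : BO K} {N : Subgroup K} {hN : ∀ x ∈ N, ∀ y ∈ N, Commute x y} :
    ∀ x ∈ isol h N hN, ∀ y ∈ isol h N hN, Commute x y := by
  rintro a ⟨k, hk, ha⟩ b ⟨l, hl, hb⟩
  exact h.commute_of_pow_pow hk hl (hN _ ha _ hb)

lemma isol_normal {h : BO K} {N : Subgroup K} [hn : N.Normal]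
    {hN : ∀ x ∈ N, ∀ y ∈ N, Commute x y} : (isol h N hN).Normal := by
  refine ⟨?_⟩
  rintro a ⟨k, hk, ha⟩ g
  refine ⟨k, hk, ?_⟩
  rw [conj_pow]
  exact hn.conj_mem _ ha g

lemma isol_isolated {h : BO K} {N : Subgroup K} {hN : ∀ x ∈ N, ∀ y ∈ N, Commute x y}
    {x : K} {k : ℕ} (hk : k ≠ 0) (hx : x ^ k ∈ isol h N hN) : x ∈ isol h N hN := by
  obtain ⟨l, hl, hx⟩ := hx
  refine ⟨k * l, Nat.mul_ne_zero hk hl, ?_⟩
  rwa [pow_mul]

end BOlemmas

section order

attribute [local instance] mulLeftMono_of_mulLeftStrictMono mulRightMono_of_mulRightStrictMono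

variable {G : Type u} [Group G] [LinearOrder G] [MulLeftStrictMono G] [MulRightStrictMono G]

lemma one_lt_pow_of_lt {a : G} (h : 1 < a) {k : ℕ} (hk : k ≠ 0) : 1 < a ^ k := by
  have := pow_lt_pow_of_lt h hk
  simpa using this

lemma one_le_pow_of_le {a : G} (h : 1 ≤ a) (k : ℕ) : 1 ≤ a ^ k := by
  rcases h.eq_or_lt with h | h
  · rw [← h, one_pow]
  · rcases Nat.eq_zero_or_pos k with hk | hk
    · rw [hk, pow_zero]
    · exact (one_lt_pow_of_lt h hk.ne').le

lemma pow_le_pow_of_le' {a b : G} (h : a ≤ b) (k : ℕ) : a ^ k ≤ b ^ k := by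
  rcases h.eq_or_lt with h | h
  · rw [h]
  · rcases Nat.eq_zero_or_pos k with hk | hk
    · simp [hk]
    · exact (pow_lt_pow_of_lt h hk.ne').le

lemma mul_le_mul_of_le {a b c d : G} (h : a ≤ b) (h' : c ≤ d) : a * c ≤ b * d := by
  have h1 : a * c ≤ b * c := by
    rcases h.eq_or_lt with h | h
    · rw [h]
    · exact (mul_lt_mul_left h c).le
  have h2 : b * c ≤ b * d := by
    rcases h'.eq_or_lt with h | h
    · rw [h]
    · exact (mul_lt_mul_right h b).le
  exact h1.trans h2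

lemma pow_le_pow_exp {a : G} (h : 1 ≤ a) {k l : ℕ} (hkl : k ≤ l) : a ^ k ≤ a ^ l := by
  obtain ⟨m, rfl⟩ := Nat.exists_eq_add_of_le hkl
  rw [pow_add]
  have := mul_le_mul_of_le (le_refl (a ^ k)) (one_le_pow_of_le h m)
  simpa using this

/-- convex subgroup -/
def IsConv (C : Subgroup G) : Prop := ∀ x ∈ C, ∀ y, 1 ≤ y → y ≤ x → y ∈ C

lemma IsConv.normal (hc : Cen G) {C : Subgroup G} (h : IsConv C) : C.Normal := by
  have key : ∀ x ∈ C, 1 < x → ∀ g, g⁻¹ * x * g ∈ C := by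
    intro x hx hx1 g
    refine h (x ^ 2) (C.pow_mem hx 2) _ ?_ (hc x g hx1).le
    have := conj_lt_conj hx1 g
    simpa using this.le
  refine ⟨fun x hx g => ?_⟩
  rcases lt_trichotomy 1 x with h1 | h1 | h1
  · simpa using key x hx h1 g⁻¹
  · rw [← h1]
    simp
  · have := key x⁻¹ (C.inv_mem hx) (by simpa using h1) g⁻¹
    have h2 := C.inv_mem this
    have h3 : (g⁻¹⁻¹ * x⁻¹ * g⁻¹)⁻¹ = g * x * g⁻¹ := by group
    rwa [h3] at h2

lemma isConv_bot : IsConv (⊥ : Subgroup G) := by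
  intro x hx y h1 h2
  rw [Subgroup.mem_bot] at *
  subst hx
  exact le_antisymm h2 h1

lemma IsConv.iInf {ι : Sort*} {C : ι → Subgroup G} (h : ∀ i, IsConv (C i)) :
    IsConv (⨅ i, C i) := by
  intro x hx y h1 h2
  rw [Subgroup.mem_iInf] at *
  exact fun i => h i x (hx i) y h1 h2

lemma IsConv.total {C D : Subgroup G} (hC : IsConv C) (hD : IsConv D) : C ≤ D ∨ D ≤ C := by
  by_cases h : C ≤ D
  · exact Or.inl h
  · right
    obtain ⟨x, hx, hxD⟩ := SetLike.not_le_iff_exists.1 h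
    obtain ⟨x, hx, hxD, hx1⟩ : ∃ x ∈ C, x ∉ D ∧ 1 < x := by
      rcases lt_trichotomy 1 x with h1 | h1 | h1
      · exact ⟨x, hx, hxD, h1⟩
      · exact absurd (h1 ▸ D.one_mem) hxD
      · exact ⟨x⁻¹, C.inv_mem hx, fun h => hxD (by simpa using h), by simpa using h1⟩
    have key : ∀ y ∈ D, 1 ≤ y → y ∈ C := by
      intro y hy hy1
      refine hC x hx y hy1 ?_
      by_contra hcon
      exact hxD (hD y hy x hx1.le (not_le.1 hcon).le)
    intro y hy
    rcases le_total 1 y with h1 | h1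
    · exact key y hy h1
    · have := key y⁻¹ (D.inv_mem hy) (by simpa using h1)
      simpa using this

lemma rcone_conv {C : Subgroup G} (hC : IsConv C) : RCone C {x | 1 < x ∧ x ∉ C} where
  mul := by
    rintro x ⟨hx, hxC⟩ y ⟨hy, hyC⟩
    have h2 : y < x * y := by
      have := mul_lt_mul_left hx y
      simpa using this
    refine ⟨hy.trans h2, fun h => hyC (hC _ h y hy.le h2.le)⟩
  left := by
    rintro c hc x ⟨hx, hxC⟩
    have h1 : c * x ∉ C := fun h => hxC ((Subgroup.mul_mem_cancel_left C hc).1 h)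
    refine ⟨?_, h1⟩
    by_contra hcon
    rw [not_lt] at hcon
    apply hxC
    refine hC _ (C.inv_mem hc) x hx.le ?_
    rw [le_inv_iff_mul_le_one_left]
    exact hcon
  right := by
    rintro x ⟨hx, hxC⟩ c hc
    have h1 : x * c ∉ C := fun h => hxC ((Subgroup.mul_mem_cancel_right C hc).1 h)
    refine ⟨?_, h1⟩
    by_contra hcon
    rw [not_lt] at hcon
    apply hxC
    refine hC _ (C.inv_mem hc) x hx.le ?_
    rw [le_inv_iff_mul_le_one_right]
    exact hcon
  disj := by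
    rintro x ⟨-, h⟩
    exact h
  total := by
    intro x hx
    rcases lt_trichotomy 1 x with h1 | h1 | h1
    · exact Or.inl ⟨h1, hx⟩
    · exact absurd (h1 ▸ C.one_mem) hx
    · exact Or.inr ⟨by simpa using h1, fun h => hx (by simpa using h)⟩

lemma IsConv.BO_quotient {C : Subgroup G} (hC : IsConv C) [hn : C.Normal] : BO (G ⧸ C) := by
  refine BO_quotient_of_cone C (rcone_conv hC) ?_
  rintro x ⟨hx, hxC⟩ g
  refine ⟨by simpa using conj_lt_conj hx g, fun h => hxC ?_⟩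
  have := hn.conj_mem _ h g
  simpa [mul_assoc] using this

/-- elements infinitely smaller than `t` -/
def lo (t : G) (ht : 1 < t) : Subgroup G where
  carrier := {y | ∀ n : ℕ, y ^ n < t ∧ (y⁻¹) ^ n < t}
  one_mem' := by
    intro n
    simp [ht]
  inv_mem' := by
    intro y hy n
    have := hy n
    rw [inv_inv]
    exact ⟨this.2, this.1⟩
  mul_mem' := by
    intro y z hy hz n
    have key : ∀ a b : G, (∀ n : ℕ, a ^ n < t) → (∀ n : ℕ, b ^ n < t) → ∀ n : ℕ,
        (a * b) ^ n < t := by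
      intro a b ha hb n
      rcases le_total a b with h | h
      · have h1 : (a * b) ^ n ≤ (b ^ 2) ^ n := by
          refine pow_le_pow_of_le' ?_ n
          rw [pow_two]
          exact mul_le_mul_of_le h le_rfl
        rw [← pow_mul] at h1
        exact h1.trans_lt (hb _)
      · have h1 : (a * b) ^ n ≤ (a ^ 2) ^ n := by
          refine pow_le_pow_of_le' ?_ n
          rw [pow_two]
          exact mul_le_mul_of_le le_rfl h
        rw [← pow_mul] at h1
        exact h1.trans_lt (ha _)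
    refine ⟨key y z (fun n => (hy n).1) (fun n => (hz n).1) n, ?_⟩
    rw [mul_inv_rev]
    exact key _ _ (fun n => (hz n).2) (fun n => (hy n).2) n

lemma mem_lo {t : G} {ht : 1 < t} {y : G} :
    y ∈ lo t ht ↔ ∀ n : ℕ, y ^ n < t ∧ (y⁻¹) ^ n < t := Iff.rfl

lemma isConv_lo (t : G) (ht : 1 < t) : IsConv (lo t ht) := by
  intro x hx y h1 h2 n
  refine ⟨(pow_le_pow_of_le' h2 n).trans_lt (hx n).1, ?_⟩
  have : (y⁻¹) ^ n ≤ 1 := by
    rw [inv_pow, inv_le_one']
    exact one_le_pow_of_le h1 n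
  exact this.trans_lt ht

lemma self_notMem_lo (t : G) (ht : 1 < t) : t ∉ lo t ht := by
  intro h
  have := (h 1).1
  simp at this

/-- the convex subgroup generated by `t` -/
def up (t : G) (ht : 1 ≤ t) : Subgroup G where
  carrier := {y | ∃ n : ℕ, y ≤ t ^ n ∧ y⁻¹ ≤ t ^ n}
  one_mem' := ⟨0, by simp⟩
  inv_mem' := by
    rintro y ⟨n, h1, h2⟩
    exact ⟨n, h2, by simpa using h1⟩
  mul_mem' := by
    rintro y z ⟨n, h1, h2⟩ ⟨m, h3, h4⟩
    refine ⟨n + m, ?_, ?_⟩
    · rw [pow_add]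
      exact mul_le_mul_of_le h1 h3
    · rw [mul_inv_rev, add_comm, pow_add]
      exact mul_le_mul_of_le h4 h2

lemma isConv_up (t : G) (ht : 1 ≤ t) : IsConv (up t ht) := by
  rintro x ⟨n, hx, -⟩ y h1 h2
  refine ⟨n, h2.trans hx, ?_⟩
  have : y⁻¹ ≤ 1 := by simpa using h1
  exact this.trans (one_le_pow_of_le ht n)

lemma self_mem_up (t : G) (ht : 1 ≤ t) : t ∈ up t ht :=
  ⟨1, by simp, by
    rw [pow_one]
    have : t⁻¹ ≤ 1 := by simpa using ht
    exact this.trans ht⟩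

lemma conj_pow' (b x : G) (n : ℕ) : (b⁻¹ * x * b) ^ n = b⁻¹ * x ^ n * b := by
  have := conj_pow (i := n) (a := b⁻¹) (b := x)
  simpa using this

/-- key estimate -/
lemma comm_pow_lt (hc : Cen G) {x : G} (hx : 1 < x) (b : G) (n : ℕ) :
    (x⁻¹ * (b⁻¹ * x * b)) ^ n < x := by
  by_contra hcon
  rw [not_lt] at hcon
  set u := x⁻¹ * (b⁻¹ * x * b) with hu
  have hu1 : 1 < u := by
    by_contra h
    rw [not_lt] at h
    have h1 : u ^ n ≤ 1 := by
      have := pow_le_pow_of_le' h n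
      simpa using this
    exact absurd (hcon.trans h1) (not_le.2 hx)
  -- conjugates of `u`
  have hconj : ∀ c : G, u < (c⁻¹ * u * c) ^ 2 := by
    intro c
    have h1 : 1 < c⁻¹ * u * c := by simpa using conj_lt_conj hu1 c
    have := hc (c⁻¹ * u * c) c⁻¹ h1
    convert this using 1
    group
  -- product
  have hprod : ∀ k : ℕ, ∃ y : G, 1 < y ∧ u < y ^ 2 ∧
      x * y ^ k ≤ (b ^ k)⁻¹ * x * b ^ k := by
    intro k
    induction k with
    | zero =>
      refine ⟨u, hu1, ?_, by simp⟩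
      rw [pow_two]
      exact lt_mul_of_one_lt_right' u hu1
    | succ k ih =>
      obtain ⟨y, hy1, hy2, hy3⟩ := ih
      have h1 : (b ^ (k + 1))⁻¹ * x * b ^ (k + 1) =
          ((b ^ k)⁻¹ * x * b ^ k) * ((b ^ k)⁻¹ * u * b ^ k) := by
        rw [hu, pow_succ']
        group
      rw [h1]
      set z := (b ^ k)⁻¹ * u * b ^ k with hz
      have hz1 : 1 < z := by simpa using conj_lt_conj hu1 (b ^ k)
      refine ⟨min y z, lt_min hy1 hz1, ?_, ?_⟩
      · rcases le_total y z with h | h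
        · rw [min_eq_left h]
          exact hy2
        · rw [min_eq_right h]
          exact hconj _
      · rw [pow_succ, ← mul_assoc]
        refine mul_le_mul_of_le (le_trans ?_ hy3) (min_le_right _ _)
        exact mul_le_mul_of_le le_rfl (pow_le_pow_of_le' (min_le_left _ _) k)
  obtain ⟨y, hy1, hy2, hy3⟩ := hprod (2 * n)
  have h1 : x ≤ y ^ (2 * n) := by
    rw [pow_mul]
    exact hcon.trans (pow_le_pow_of_le' hy2.le n)
  have h2 := hc x (b ^ (2 * n)) hx
  have h3 : x ^ 2 ≤ x * y ^ (2 * n) := by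
    rw [pow_two]
    exact mul_le_mul_of_le le_rfl h1
  exact absurd (lt_of_le_of_lt (h3.trans hy3) h2) (lt_irrefl _)

lemma comm_mem_lo (hc : Cen G) {x : G} (hx : 1 < x) (b : G) :
    x⁻¹ * (b⁻¹ * x * b) ∈ lo x hx := by
  intro n
  refine ⟨comm_pow_lt hc hx b n, ?_⟩
  rcases le_total 1 (x⁻¹ * (b⁻¹ * x * b)) with h | h
  · have : (x⁻¹ * (b⁻¹ * x * b))⁻¹ ^ n ≤ 1 := by
      rw [inv_pow, inv_le_one']
      exact one_le_pow_of_le h n
    exact this.trans_lt hx
  · -- use conjugation by `b⁻¹`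
    have h1 := comm_pow_lt hc hx b⁻¹ n
    have h2 := conj_lt_conj h1 b
    rw [← conj_pow'] at h2
    have h3 : b⁻¹ * (x⁻¹ * (b⁻¹⁻¹ * x * b⁻¹)) * b = (x⁻¹ * (b⁻¹ * x * b))⁻¹ := by group
    rw [h3] at h2
    refine h2.trans_le ?_
    have h4 := mul_le_mul_of_le (le_refl x) h
    simpa [mul_assoc] using h4

lemma comm_mem_lo_of_mem_up (hc : Cen G) {t : G} (ht : 1 < t) {d : G} (hd : d ∈ up t ht.le)
    (b : G) : d⁻¹ * (b⁻¹ * d * b) ∈ lo t ht := by
  have hn := (isConv_lo t ht).normal hc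
  have key : ∀ d ∈ up t ht.le, 1 < d → d⁻¹ * (b⁻¹ * d * b) ∈ lo t ht := by
    intro d hd hd1
    obtain ⟨k, hk, -⟩ := hd
    have h1 := comm_mem_lo hc hd1 b
    have h2 : lo d hd1 ≤ lo t ht := by
      have h3 : ∀ y, (∀ n : ℕ, y ^ n < d) → ∀ n : ℕ, y ^ n < t := by
        intro y hy n
        by_contra hcon
        rw [not_lt] at hcon
        have h4 := pow_le_pow_of_le' hcon k
        rw [← pow_mul] at h4
        exact absurd (hk.trans h4) (not_le.2 (hy _))
      intro y hy n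
      exact ⟨h3 y (fun n => (hy n).1) n, h3 y⁻¹ (fun n => (hy n).2) n⟩
    exact h2 h1
  rcases lt_trichotomy 1 d with h | h | h
  · exact key d hd h
  · rw [← h]
    simp [(lo t ht).one_mem]
  · have h1 := key d⁻¹ (Subgroup.inv_mem _ hd) (by simpa using h)
    have h2 := hn.conj_mem _ (Subgroup.inv_mem _ h1) d⁻¹
    convert h2 using 1
    group

end order

end CRO
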