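import Pool.Agent.CRO.NilPow
import Mathlib.Order.Filter.Ultrafilter.Basic
import Mathlib.Order.Filter.AtTopBot.Basic

/-!
Locally nilpotent subgroups and relatively convex hulls.
-/

open scoped commutatorElement

namespace CRO

universe u

section

variable {G : Type u} [Group G]

/-- locally nilpotent subgroups -/
def LN (S : Subgroup G) : Prop :=
  ∀ X : Set G, X.Finite → X ⊆ S → ∃ n, gam (Subgroup.closure X) n = ⊥

lemma LN.mono {S T : Subgroup G} (h : LN T) (hST : S ≤ T) : LN S :=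
  fun X hX hXS => h X hX (hXS.trans hST)

lemma LN_bot : LN (⊥ : Subgroup G) := by
  intro X _ hXS
  refine ⟨0, ?_⟩
  rw [gam_zero, eq_bot_iff, Subgroup.closure_le]
  exact hXS

/-- a directed union of relatively convex subgroups is relatively convex -/
lemma RC.directed {ι : Type*} [SemilatticeSup ι] [Nonempty ι] (C : ι → Subgroup G)
    (hC : Monotone C) (h : ∀ i, RC (C i)) :
    ∃ K : Subgroup G, RC K ∧ ∀ x, x ∈ K ↔ ∃ i, x ∈ C i := by
  have hmem : ∀ x, x ∈ (⨆ i, C i) ↔ ∃ i, x ∈ C i := fun x =>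
    Subgroup.mem_iSup_of_directed hC.directed_le
  refine ⟨⨆ i, C i, ?_, hmem⟩
  choose P hP using h
  let U : Ultrafilter ι := Ultrafilter.of Filter.atTop
  have hU : (U : Filter ι) ≤ Filter.atTop := Ultrafilter.of_le _
  have hev : ∀ x, x ∈ (⨆ i, C i) → ∀ᶠ i in (U : Filter ι), x ∈ C i := by
    intro x hx
    obtain ⟨i, hi⟩ := (hmem x).1 hx
    exact hU ((Filter.eventually_ge_atTop i).mono fun j hj => hC hj hi)
  refine ⟨{x | ∀ᶠ i in (U : Filter ι), x ∈ P i}, ?_, ?_, ?_, ?_, ?_⟩
  · intro x hx y hy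
    filter_upwards [hx, hy] with i h1 h2
    exact (hP i).mul _ h1 _ h2
  · intro c hc x hx
    filter_upwards [hev c hc, hx] with i h1 h2
    exact (hP i).left _ h1 _ h2
  · intro x hx c hc
    filter_upwards [hev c hc, hx] with i h1 h2
    exact (hP i).right _ h2 _ h1
  · intro x hx hxK
    obtain ⟨i, h1, h2⟩ := (hx.and (hev x hxK)).exists
    exact (hP i).disj _ h1 h2
  · intro x hx
    have h1 : ∀ i, x ∈ P i ∨ x⁻¹ ∈ P i := fun i =>
      (hP i).total x fun h2 => hx ((hmem x).2 ⟨i, h2⟩)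
    exact Ultrafilter.eventually_or.1 (Filter.Eventually.of_forall h1)

/-- the relatively convex hull of a locally nilpotent subgroup is locally nilpotent -/
theorem LN.hull (hB : BO G) (hA : AC G) {S : Subgroup G} (h : LN S) : LN (CRO.hull S) := by
  classical
  let C : Finset S → Subgroup G := fun Y =>
    CRO.hull (Subgroup.closure ((↑) '' (Y : Set S) : Set G))
  have hmono : Monotone C := by
    intro Y Z hYZ
    refine hull_le (RC_hull _) (le_trans ?_ (le_hull _))
    exact Subgroup.closure_mono (Set.image_mono (by exact_mod_cast hYZ))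
  obtain ⟨K, hK, hKmem⟩ := RC.directed C hmono (fun Y => RC_hull _)
  have hSK : CRO.hull S ≤ K := by
    refine hull_le hK ?_
    intro x hx
    rw [hKmem]
    exact ⟨{⟨x, hx⟩}, le_hull _ (Subgroup.subset_closure ⟨⟨x, hx⟩, by simp, rfl⟩)⟩
  intro X hX hXS
  have hex : ∃ Y : Finset S, X ⊆ C Y := by
    clear hSK
    induction X, hX using Set.Finite.induction_on with
    | empty => exact ⟨∅, Set.empty_subset _⟩
    | @insert a X _ _ ih =>
      obtain ⟨Y, hY⟩ := ih ((Set.subset_insert a X).trans hXS)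
      have ha : a ∈ K := by
        have h1 : a ∈ CRO.hull S := hXS (Set.mem_insert a X)
        exact hull_le hK (by
          intro x hx
          rw [hKmem]
          exact ⟨{⟨x, hx⟩}, le_hull _ (Subgroup.subset_closure ⟨⟨x, hx⟩, by simp, rfl⟩)⟩) h1
      obtain ⟨Z, hZ⟩ := (hKmem a).1 ha
      refine ⟨Y ∪ Z, ?_⟩
      rintro x (rfl | hx)
      · exact hmono Finset.subset_union_right hZ
      · exact hmono Finset.subset_union_left (hY hx)
  obtain ⟨Y, hY⟩ := hex
  obtain ⟨n, hn⟩ := h ((↑) '' (Y : Set S)) (Y.finite_toSet.image _) (by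
    rintro _ ⟨y, _, rfl⟩
    exact y.2)
  refine ⟨n, ?_⟩
  have h1 := gam_hull n G hB hA _ hn
  rw [eq_bot_iff, ← h1]
  exact gam_mono ((Subgroup.closure_le _).2 hY) n

theorem LN.of_pow (hB : BO G) (hA : AC G) {S T : Subgroup G} (h : LN S)
    (hT : ∀ x ∈ T, ∃ n : ℕ, n ≠ 0 ∧ x ^ n ∈ S) : LN T := by
  refine (h.hull hB hA).mono ?_
  intro x hx
  obtain ⟨n, hn, h1⟩ := hT x hx
  exact (RC_hull S).isolated hn (le_hull S h1)

lemma LN.union {T : Subgroup G} {ι : Type*} [Nonempty ι] (S : ι → Subgroup G)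
    (hdir : Directed (· ≤ ·) S) (hT : ∀ x ∈ T, ∃ i, x ∈ S i) (h : ∀ i, LN (S i)) : LN T := by
  intro X hX hXT
  have hex : ∃ i, X ⊆ S i := by
    induction X, hX using Set.Finite.induction_on with
    | empty => exact ⟨Classical.arbitrary ι, Set.empty_subset _⟩
    | @insert a X _ _ ih =>
      obtain ⟨i, hi⟩ := ih ((Set.subset_insert a X).trans hXT)
      obtain ⟨j, hj⟩ := hT a (hXT (Set.mem_insert a X))
      obtain ⟨k, hk1, hk2⟩ := hdir i j
      refine ⟨k, ?_⟩
      rintro x (rfl | hx)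
      · exact hk2 hj
      · exact hk1 (hi hx)
  obtain ⟨i, hi⟩ := hex
  exact h i X hX hi

end

end CRO
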