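import Pool.Agent.CRO.Main
import Pool.Agent.CRO.LocNil

/-!
Extensions of locally nilpotent subgroups by cyclic groups.
-/

open scoped commutatorElement

namespace CRO

universe u

section Basic

variable {Q : Type u} [Group Q]

lemma comm_mem_of_normalizes {V : Subgroup Q} {y : Q} (hy : y ∈ Subgroup.normalizer V) {v w : Q}
    (hv : v ∈ V) (hw : w ∈ V) (j k : ℤ) : ⁅v * y ^ j, w * y ^ k⁆ ∈ V := by
  have hyp : ∀ j : ℤ, y ^ j ∈ Subgroup.normalizer V := fun j => Subgroup.zpow_mem _ hy j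
  have h7 : ⁅v * y ^ j, w * y ^ k⁆ = v * (y ^ j * w * (y ^ j)⁻¹) *
      (y ^ k * v⁻¹ * (y ^ k)⁻¹) * w⁻¹ := by
    have h8 : y ^ k * (y ^ j)⁻¹ = (y ^ j)⁻¹ * y ^ k := by
      rw [← zpow_neg, ← zpow_add, ← zpow_add, add_comm]
    rw [commutatorElement_def]
    calc v * y ^ j * (w * y ^ k) * (v * y ^ j)⁻¹ * (w * y ^ k)⁻¹
        = v * (y ^ j * w) * (y ^ k * (y ^ j)⁻¹) * v⁻¹ *
          (y ^ k)⁻¹ * w⁻¹ := by
          simp only [mul_inv_rev, mul_assoc]
      _ = v * (y ^ j * w) * ((y ^ j)⁻¹ * y ^ k) * v⁻¹ *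
          (y ^ k)⁻¹ * w⁻¹ := by rw [h8]
      _ = _ := by simp only [mul_assoc]
  rw [h7]
  exact V.mul_mem (V.mul_mem (V.mul_mem hv ((Subgroup.mem_normalizer_iff.1 (hyp j) w).1 hw))
    ((Subgroup.mem_normalizer_iff.1 (hyp k) _).1 (V.inv_mem hv))) (V.inv_mem hw)

/-- subgroup generated by a normalised subgroup and one element -/
lemma exists_of_mem_closure {V : Subgroup Q} {y : Q} (hy : y ∈ Subgroup.normalizer V) {Y : Set Q}
    (hY : Y ⊆ V) {k : Q} (hk : k ∈ Subgroup.closure (insert y Y)) :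
    ∃ v ∈ V, ∃ j : ℤ, k = v * y ^ j := by
  have hyp : ∀ j : ℤ, y ^ j ∈ Subgroup.normalizer V := fun j => Subgroup.zpow_mem _ hy j
  induction hk using Subgroup.closure_induction with
  | mem k hk =>
    rcases hk with h | h
    · exact ⟨1, V.one_mem, 1, by rw [h]; simp⟩
    · exact ⟨k, hY h, 0, by simp⟩
  | one => exact ⟨1, V.one_mem, 0, by simp⟩
  | mul a b _ _ iha ihb =>
    obtain ⟨v, hv, j, rfl⟩ := iha
    obtain ⟨w, hw, k, rfl⟩ := ihb
    refine ⟨v * (y ^ j * w * (y ^ j)⁻¹),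
      V.mul_mem hv ((Subgroup.mem_normalizer_iff.1 (hyp j) w).1 hw), j + k, ?_⟩
    rw [zpow_add]; group
  | inv a _ iha =>
    obtain ⟨v, hv, j, rfl⟩ := iha
    refine ⟨y ^ (-j) * v⁻¹ * (y ^ (-j))⁻¹,
      (Subgroup.mem_normalizer_iff.1 (hyp (-j)) _).1 (V.inv_mem hv), -j, ?_⟩
    rw [mul_inv_rev, zpow_neg]; group

lemma mem_normalizer_of_closure {Y : Set Q} {y : Q}
    (h1 : ∀ a ∈ Y, y * a * y⁻¹ ∈ Subgroup.closure Y)
    (h2 : ∀ a ∈ Y, y⁻¹ * a * y ∈ Subgroup.closure Y) :
    y ∈ Subgroup.normalizer (Subgroup.closure Y) := by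
  have key : ∀ z : Q, (∀ a ∈ Y, z * a * z⁻¹ ∈ Subgroup.closure Y) →
      ∀ a ∈ Subgroup.closure Y, z * a * z⁻¹ ∈ Subgroup.closure Y := by
    intro z hz a ha
    induction ha using Subgroup.closure_induction with
    | mem a ha => exact hz a ha
    | one => simp
    | mul a b _ _ iha ihb =>
      have h3 : z * (a * b) * z⁻¹ = (z * a * z⁻¹) * (z * b * z⁻¹) := by group
      rw [h3]
      exact Subgroup.mul_mem _ iha ihb
    | inv a _ iha =>
      have h3 : z * a⁻¹ * z⁻¹ = (z * a * z⁻¹)⁻¹ := by group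
      rw [h3]
      exact Subgroup.inv_mem _ iha
  rw [Subgroup.mem_normalizer_iff]
  intro h
  refine ⟨key y h1 h, fun h3 => ?_⟩
  have h4 := key y⁻¹ (by simpa using h2) _ h3
  have h5 : y⁻¹ * (y * h * y⁻¹) * y⁻¹⁻¹ = h := by group
  rwa [h5] at h4

/-- iterated commutators -/
def itc (y a : Q) : ℕ → Q
  | 0 => a
  | n + 1 => ⁅y, itc y a n⁆

lemma itc_map {K : Type u} [Group K] (f : Q →* K) (y a : Q) (n : ℕ) :
    f (itc y a n) = itc (f y) (f a) n := by
  induction n with
  | zero => rfl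
  | succ n ih => rw [itc, itc, map_commutatorElement, ih]

lemma itc_mem {V : Subgroup Q} {y a : Q} (hy : y ∈ Subgroup.normalizer V) (ha : a ∈ V) (n : ℕ) :
    itc y a n ∈ V := by
  induction n with
  | zero => exact ha
  | succ n ih =>
    rw [itc, commutatorElement_def]
    exact V.mul_mem ((Subgroup.mem_normalizer_iff.1 hy _).1 ih) (V.inv_mem ih)

lemma itc_gam {S : Subgroup Q} {y a : Q} (hy : y ∈ S) (ha : a ∈ S) (n : ℕ) :
    itc y a n ∈ gam S n := by
  induction n with
  | zero => exact ha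
  | succ n ih =>
    rw [itc, gam_succ, ← commutatorElement_inv]
    exact Subgroup.inv_mem _ (Subgroup.commutator_mem_commutator ih hy)

lemma itc_eq_one {y a : Q} {c n : ℕ} (h : itc y a c = 1) (hcn : c ≤ n) : itc y a n = 1 := by
  induction n, hcn using Nat.le_induction with
  | base => exact h
  | succ n _ ih => rw [itc, ih, commutatorElement_one_right]

/-- conjugates lie in the subgroup generated by the iterated commutators -/
lemma conj_mem_of_itc {y a : Q} {c : ℕ} (h : itc y a c = 1) {T : Subgroup Q}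
    (hT : ∀ k ≤ c, itc y a k ∈ T) (j : ℤ) : y ^ j * a * (y ^ j)⁻¹ ∈ T := by
  have hVT : Subgroup.closure (Set.range (itc y a)) ≤ T := by
    rw [Subgroup.closure_le]
    rintro _ ⟨k, rfl⟩
    rcases le_total k c with hk | hk
    · exact hT k hk
    · rw [SetLike.mem_coe, itc_eq_one h hk]
      exact T.one_mem
  apply hVT
  have hmem : ∀ k, itc y a k ∈ Subgroup.closure (Set.range (itc y a)) := fun k =>
    Subgroup.subset_closure ⟨k, rfl⟩
  have hy : y ∈ Subgroup.normalizer (Subgroup.closure (Set.range (itc y a))) := by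
    refine mem_normalizer_of_closure ?_ ?_
    · rintro _ ⟨k, rfl⟩
      have h1 : y * itc y a k * y⁻¹ = itc y a (k + 1) * itc y a k := by
        rw [itc, commutatorElement_def]; group
      rw [h1]
      exact Subgroup.mul_mem _ (hmem _) (hmem _)
    · have key : ∀ m k, c ≤ k + m → y⁻¹ * itc y a k * y ∈
          Subgroup.closure (Set.range (itc y a)) := by
        intro m
        induction m with
        | zero =>
          intro k hk
          rw [itc_eq_one h (by simpa using hk)]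
          simp
        | succ m ih =>
          intro k hk
          have h2 := ih (k + 1) (by omega)
          have h1 : y⁻¹ * itc y a k * y = (y⁻¹ * itc y a (k + 1) * y)⁻¹ * itc y a k := by
            rw [itc, commutatorElement_def]; group
          rw [h1]
          exact Subgroup.mul_mem _ (Subgroup.inv_mem _ h2) (hmem _)
      rintro _ ⟨k, rfl⟩
      exact key c k (by omega)
  exact (Subgroup.mem_normalizer_iff.1 (Subgroup.zpow_mem _ hy j) a).1 (hmem 0)

/-- Frattini argument for hulls -/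
lemma le_hull_of_frattini {c : ℕ} (hc : gam (⊤ : Subgroup Q) c = ⊥) {B T : Subgroup Q}
    (hTB : T ≤ B) (h : ∀ b ∈ B, ∃ t ∈ T, ∃ r ∈ hull ⁅B, B⁆, b = t * r) : B ≤ hull T := by
  let H := hull B
  let K : Subgroup H := T.subgroupOf H
  have hBH : B ≤ H := le_hull B
  have hRH : hull ⁅B, B⁆ ≤ H := by
    refine hull_le (RC_hull B) (le_trans ?_ hBH)
    rw [Subgroup.commutator_le]
    intro x hx y hy
    exact B.mul_mem (B.mul_mem (B.mul_mem hx hy) (B.inv_mem hx)) (B.inv_mem hy)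
  have h3 : ∀ h : H, ∃ n : ℕ, n ≠ 0 ∧ ∃ k ∈ K, ∃ d ∈ gam (⊤ : Subgroup H) 1,
      h ^ n = k * d := by
    intro y
    obtain ⟨m, hm, hmB⟩ := pow_mem_of_hull hc B y.1 y.2
    obtain ⟨t, ht, r, hr, h1⟩ := h _ hmB
    obtain ⟨k, hk, hkB⟩ := pow_mem_of_hull hc _ r hr
    let t' : H := ⟨t, hBH (hTB ht)⟩
    let r' : H := ⟨r, hRH hr⟩
    have h2 : y ^ m = t' * r' := Subtype.ext h1
    refine ⟨m * k, mul_ne_zero hm hk, t' ^ k, K.pow_mem (show t' ∈ K from ht) k,
      (t' ^ k)⁻¹ * y ^ (m * k), ?_, by group⟩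
    have h4 : r' ^ k ∈ commutator H := by
      have h5 : ⁅B, B⁆ ≤ (commutator H).map H.subtype := by
        rw [commutator_def, Subgroup.map_commutator, Subgroup.commutator_le]
        intro x hx z hz
        exact Subgroup.commutator_mem_commutator ⟨⟨x, hBH hx⟩, Subgroup.mem_top _, rfl⟩
          ⟨⟨z, hBH hz⟩, Subgroup.mem_top _, rfl⟩
      obtain ⟨z, hz, hzr⟩ := h5 hkB
      have h6 : z = r' ^ k := H.subtype_injective hzr
      exact h6 ▸ hz
    have h5 : Abelianization.of ((t' ^ k)⁻¹ * y ^ (m * k)) = 1 := by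
      rw [pow_mul, h2, map_mul, map_inv, map_pow, map_pow, map_mul, mul_pow, ← map_pow _ r' k]
      rw [← Abelianization.ker_of, MonoidHom.mem_ker] at h4
      rw [h4, mul_one, inv_mul_cancel]
    rw [← MonoidHom.mem_ker, Abelianization.ker_of] at h5
    exact h5
  intro x hx
  obtain ⟨n, hn, h4⟩ := pow_mem_gam K (gam_top_subgroup hc H) h3 0 ⟨x, hBH hx⟩
    (Subgroup.mem_top _)
  exact (RC_hull T).isolated hn (le_hull T h4)

lemma gam_eq (S : Subgroup Q) (n : ℕ) : gam S n = S.lowerCentralSeries n := by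
  induction n with
  | zero => rfl
  | succ n ih => rw [gam_succ, ih]; rfl

lemma gam_coe_eq_bot {S : Subgroup Q} {n : ℕ} (h : gam S n = ⊥) :
    gam (⊤ : Subgroup S) n = ⊥ := by
  rw [eq_bot_iff]
  intro x hx
  have h1 : S.subtype x ∈ gam ((⊤ : Subgroup S).map S.subtype) n := by
    rw [← map_gam]
    exact ⟨x, hx, rfl⟩
  have h2 : (⊤ : Subgroup S).map S.subtype = S := by
    rw [← MonoidHom.range_eq_map, Subgroup.range_subtype]
  rw [h2, h, Subgroup.mem_bot] at h1
  exact Subgroup.mem_bot.2 (Subtype.ext h1)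

lemma isNilpotent_of_gam {S : Subgroup Q} {n : ℕ} (h : gam S n = ⊥) : Group.IsNilpotent S := by
  have h1 := gam_coe_eq_bot h
  rw [gam_eq] at h1
  exact Subgroup.nilpotent_iff_lowerCentralSeries.2 ⟨n, h1⟩

/-- a group with a soluble subgroup containing all commutators is soluble -/
lemma isSolvable_ext {S B : Subgroup Q} (hcomm : ∀ a ∈ S, ∀ b ∈ S, ⁅a, b⁆ ∈ B)
    (hB : Group.IsSolvable B) : Group.IsSolvable S := by
  let B' : Subgroup S := B.subgroupOf S
  have h1 : Group.IsSolvable B' := by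
    let f : B' →* B :=
      { toFun := fun x => ⟨x.1.1, x.2⟩
        map_one' := rfl
        map_mul' := fun _ _ => rfl }
    refine Group.isSolvable_of_isSolvable_injective (f := f) ?_
    intro x y hxy
    exact Subtype.ext (Subtype.ext (congrArg (fun z : B => (z : Q)) hxy))
  refine Group.isSolvable_of_ker_le_range B'.subtype (Abelianization.of : S →* _) ?_
  rw [Abelianization.ker_of, Subgroup.range_subtype, commutator_def, Subgroup.commutator_le]
  intro a _ b _
  exact hcomm a.1 a.2 b.1 b.2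

end Basic


section Closure

/-- the intersection of the isolated closures in all nilpotent quotients -/
theorem exists_normal_closure {H : Type u} [Group H] {L1 : Subgroup H} (hhull : hull L1 = ⊤)
    (E : ℕ → Subgroup H) [hEn : ∀ n, (E n).Normal] (hEnil : ∀ n, ∃ m, gam (⊤ : Subgroup H) m ≤ E n)
    (N1 : Subgroup H) (hN : L1 ≤ Subgroup.normalizer N1) :
    ∃ B : Subgroup H, ∃ _ : B.Normal, BO (H ⧸ B) ∧
      ∀ x, x ∈ B ↔ ∀ n, QuotientGroup.mk' (E n) x ∈ hull (N1.map (QuotientGroup.mk' (E n))) := by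
  let ψ : ∀ n, H →* H ⧸ E n := fun n => QuotientGroup.mk' (E n)
  have hψs : ∀ n, Function.Surjective (ψ n) := fun n => QuotientGroup.mk'_surjective _
  have hnil : ∀ n, ∃ m, gam (⊤ : Subgroup (H ⧸ E n)) m = ⊥ := by
    intro n
    obtain ⟨m, hm⟩ := hEnil n
    refine ⟨m, ?_⟩
    rw [← Subgroup.map_top_of_surjective _ (hψs n), ← map_gam, eq_bot_iff,
      Subgroup.map_le_iff_le_comap]
    intro g hg
    rw [Subgroup.mem_comap, Subgroup.mem_bot, ← MonoidHom.mem_ker, QuotientGroup.ker_mk']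
    exact hm hg
  let A : ∀ n, Subgroup (H ⧸ E n) := fun n => hull (N1.map (ψ n))
  have hLhull : ∀ n, hull (L1.map (ψ n)) = ⊤ := by
    intro n
    have h1 := hull_comap_le (ψ n) L1
    rw [hhull] at h1
    rw [eq_top_iff]
    intro x _
    obtain ⟨y, rfl⟩ := hψs n x
    exact h1 (Subgroup.mem_top y)
  have hAn : ∀ n, (A n).Normal := by
    intro n
    obtain ⟨m, hm⟩ := hnil n
    have h1 : L1.map (ψ n) ≤ Subgroup.normalizer (N1.map (ψ n)) := by
      rintro _ ⟨l, hl, rfl⟩
      rw [Subgroup.mem_normalizer_iff]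
      have h2 : ∀ l ∈ L1, ∀ x ∈ N1.map (ψ n), ψ n l * x * (ψ n l)⁻¹ ∈ N1.map (ψ n) := by
        rintro l hl _ ⟨x, hx, rfl⟩
        exact ⟨l * x * l⁻¹, (Subgroup.mem_normalizer_iff.1 (hN hl) x).1 hx, by simp⟩
      intro h
      refine ⟨h2 l hl h, fun h3 => ?_⟩
      have h4 := h2 l⁻¹ (L1.inv_mem hl) _ h3
      have h5 : ψ n l⁻¹ * (ψ n l * h * (ψ n l)⁻¹) * (ψ n l⁻¹)⁻¹ = h := by
        rw [map_inv]
        group
      rwa [h5] at h4
    have h2 := hull_normalizes hm _ _ h1
    rw [hLhull] at h2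
    exact Subgroup.normalizer_eq_top_iff.1 (top_le_iff.1 h2)
  have hBA : ∀ n, BO ((H ⧸ E n) ⧸ A n) := by
    intro n
    obtain ⟨m, hm⟩ := hnil n
    refine BO_of_nilpotent m _ ?_ ?_
    · rw [← Subgroup.map_top_of_surjective _ (QuotientGroup.mk'_surjective (A n)), ← map_gam,
        hm, Subgroup.map_bot]
    · intro x k hk hx
      obtain ⟨y, rfl⟩ := QuotientGroup.mk'_surjective (A n) x
      rw [← map_pow, ← MonoidHom.mem_ker, QuotientGroup.ker_mk'] at hx
      rw [← MonoidHom.mem_ker, QuotientGroup.ker_mk']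
      exact (RC_hull _).isolated hk hx
  let A' : ℕ → Subgroup H := fun n => ((QuotientGroup.mk' (A n)).comp (ψ n)).ker
  have hA'mem : ∀ n x, x ∈ A' n ↔ ψ n x ∈ A n := by
    intro n x
    have h1 : x ∈ A' n ↔ QuotientGroup.mk' (A n) (ψ n x) = 1 := Iff.rfl
    rw [h1, ← MonoidHom.mem_ker, QuotientGroup.ker_mk']
  have hA'n : ∀ n, (A' n).Normal := fun n => inferInstance
  have hBn : (⨅ n, A' n).Normal := Subgroup.normal_iInf_normal hA'n
  refine ⟨⨅ n, A' n, hBn, BO_iInf A' (fun n => BO.ker_quotient _ (hBA n)), ?_⟩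
  intro x
  rw [Subgroup.mem_iInf]
  exact forall_congr' fun n => hA'mem n x

end Closure

/-- finitely generated soluble subgroups are nilpotent -/
theorem nilpotent_of_solvable {G : Type u} [Group G] (hB : BO G) (hA : AC G) {S : Subgroup G}
    (hS : ∃ X : Set G, X.Finite ∧ Subgroup.closure X = S) (hs : Group.IsSolvable S) :
    ∃ n, gam S n = ⊥ := by
  obtain ⟨d, hd⟩ := hs
  exact nilpotent_of_derived d G hB hA S hS hd

theorem nilpotent_insert {G : Type u} [Group G] (hB : BO G) (hA : AC G) {M : Subgroup G}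
    (hM : LN M) {x : G} (hx : x ∈ Subgroup.normalizer M) {X0 : Set G} (hX0 : X0.Finite)
    (hXM : X0 ⊆ M) : ∃ n, gam (Subgroup.closure (insert x X0)) n = ⊥ := by
  by_contra hcon
  push Not at hcon
  obtain ⟨H, _, φ, E, hBH, hAH, hhull, hE, hEbot, hEnil, hne⟩ :=
    reduction hB hA (hX0.insert x) hcon
  have hEn : ∀ n, (E n).Normal := fun n => (hE n).1
  have hBE : ∀ n, BO (H ⧸ E n) := fun n => (hE n).2
  have hxL : x ∈ Subgroup.closure (insert x X0) := Subgroup.subset_closure (Set.mem_insert _ _)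
  have hXL : ∀ a ∈ X0, a ∈ Subgroup.closure (insert x X0) := fun a ha =>
    Subgroup.subset_closure (Set.mem_insert_of_mem _ ha)
  let y : H := φ ⟨x, hxL⟩
  let X1 : Set (Subgroup.closure (insert x X0)) := (↑) ⁻¹' X0
  have hX1 : X1.Finite := hX0.preimage Subtype.val_injective.injOn
  let Y0 : Set H := φ '' X1
  have hφr : φ.range = Subgroup.closure (insert y Y0) := by
    have h1 : insert y Y0 = φ '' ((↑) ⁻¹' (insert x X0)) := by
      ext z
      constructor
      · rintro (rfl | ⟨w, hw, rfl⟩)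
        · exact ⟨⟨x, hxL⟩, Set.mem_insert _ _, rfl⟩
        · exact ⟨w, Set.mem_insert_of_mem _ hw, rfl⟩
      · rintro ⟨w, hw, rfl⟩
        rcases hw with h | h
        · left
          congr 1
          exact Subtype.ext h
        · right
          exact ⟨w, h, rfl⟩
    rw [h1, ← MonoidHom.map_closure, Subgroup.closure_closure_coe_preimage,
      MonoidHom.range_eq_map]
  -- the normal closure of `Y0`
  let W : Set H := {w | ∃ a ∈ Y0, ∃ j : ℤ, w = y ^ j * a * (y ^ j)⁻¹}
  let B : Subgroup H := Subgroup.closure W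
  have hY0B : Y0 ⊆ B := fun a ha => Subgroup.subset_closure ⟨a, ha, 0, by simp⟩
  have hyB : y ∈ Subgroup.normalizer B := by
    refine mem_normalizer_of_closure ?_ ?_
    · rintro _ ⟨a, ha, j, rfl⟩
      refine Subgroup.subset_closure ⟨a, ha, 1 + j, ?_⟩
      rw [zpow_add, zpow_one]; group
    · rintro _ ⟨a, ha, j, rfl⟩
      refine Subgroup.subset_closure ⟨a, ha, -1 + j, ?_⟩
      rw [zpow_add, zpow_neg_one]; group
  have hcomm : ∀ s ∈ φ.range, ∀ t ∈ φ.range, ⁅s, t⁆ ∈ B := by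
    intro s hs t ht
    rw [hφr] at hs ht
    obtain ⟨v, hv, j, rfl⟩ := exists_of_mem_closure hyB hY0B hs
    obtain ⟨w, hw, k, rfl⟩ := exists_of_mem_closure hyB hY0B ht
    exact comm_mem_of_normalizes hyB hv hw j k
  have hLB : φ.range ≤ Subgroup.normalizer B := by
    rw [hφr, Subgroup.closure_le]
    rintro z (rfl | hz)
    · exact hyB
    · exact Subgroup.le_normalizer (hY0B hz)
  have hLN1 : φ.range ≤ Subgroup.normalizer ((⁅B, B⁆ : Subgroup H) : Set H) := by
    intro l hl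
    have h0 : ∀ l ∈ Subgroup.normalizer B, ∀ z ∈ ⁅B, B⁆, l * z * l⁻¹ ∈ ⁅B, B⁆ := by
      intro l hl z hz
      have h1 : (⁅B, B⁆).map (MulAut.conj l).toMonoidHom ≤ ⁅B, B⁆ := by
        rw [Subgroup.map_commutator]
        have h2 : B.map (MulAut.conj l).toMonoidHom ≤ B := by
          rintro _ ⟨b, hb, rfl⟩
          exact (Subgroup.mem_normalizer_iff.1 hl b).1 hb
        exact Subgroup.commutator_mono h2 h2
      exact h1 ⟨z, hz, rfl⟩
    rw [Subgroup.mem_normalizer_iff]
    intro h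
    refine ⟨h0 l (hLB hl) h, fun h3 => ?_⟩
    have h4 := h0 l⁻¹ (Subgroup.inv_mem _ (hLB hl)) _ h3
    have h5 : l⁻¹ * (l * h * l⁻¹) * l⁻¹⁻¹ = h := by group
    rwa [h5] at h4
  obtain ⟨R, hRn, hBR, hRmem⟩ := exists_normal_closure hhull E hEnil ⁅B, B⁆ hLN1
  let π : H →* H ⧸ R := QuotientGroup.mk' R
  have hBBR : ⁅B, B⁆ ≤ R := by
    intro z hz
    rw [hRmem]
    intro n
    exact le_hull _ ⟨z, hz, rfl⟩
  have hAR : AC (H ⧸ R) := hAH.quotient hBH.rc_bot R
  -- the image in `H ⧸ R` is nilpotent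
  obtain ⟨c, hc⟩ : ∃ c, gam (φ.range.map π) c = ⊥ := by
    refine nilpotent_of_solvable hBR hAR ⟨π '' (insert y Y0),
      ((hX1.image φ).insert y).image π, ?_⟩ ?_
    · rw [← MonoidHom.map_closure, hφr]
    · refine isSolvable_ext (B := B.map π) ?_ ?_
      · rintro _ ⟨s, hs, rfl⟩ _ ⟨t, ht, rfl⟩
        rw [← map_commutatorElement]
        exact ⟨_, hcomm s hs t ht, rfl⟩
      · apply Group.isSolvable_of_comm
        rintro ⟨_, ⟨s, hs, rfl⟩⟩ ⟨_, ⟨t, ht, rfl⟩⟩
        apply Subtype.ext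
        change π s * π t = π t * π s
        have h1 : π ⁅s, t⁆ = 1 := by
          rw [← MonoidHom.mem_ker, QuotientGroup.ker_mk']
          exact hBBR (Subgroup.commutator_mem_commutator hs ht)
        rw [map_commutatorElement, commutatorElement_eq_one_iff_commute] at h1
        exact h1
  -- the finite set of iterated commutators
  let Z : Set (Subgroup.closure (insert x X0)) :=
    ⋃ k ∈ Finset.range (c + 1), (fun a => itc ⟨x, hxL⟩ a k) '' X1
  have hZ : Z.Finite := by
    refine Set.Finite.biUnion (Finset.finite_toSet _) ?_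
    intro k _
    exact hX1.image _
  obtain ⟨e, he⟩ := hM ((↑) '' Z) (hZ.image _) (by
    rintro _ ⟨z, hz, rfl⟩
    simp only [Z, Set.mem_iUnion] at hz
    obtain ⟨k, _, a, ha, rfl⟩ := hz
    have h1 := itc_map (Subgroup.subtype _) (⟨x, hxL⟩ : Subgroup.closure (insert x X0)) a k
    rw [SetLike.mem_coe]
    have h2 : itc x (a : G) k ∈ M := itc_mem hx (hXM ha) k
    have h3 : ((itc (⟨x, hxL⟩ : Subgroup.closure (insert x X0)) a k :
      Subgroup.closure (insert x X0)) : G) = itc x (a : G) k := h1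
    rw [h3]
    exact h2)
  let T : Subgroup H := (Subgroup.closure Z).map φ
  have hTe : gam T e = ⊥ := by
    have h1 : gam (Subgroup.closure Z) e = ⊥ := by
      rw [eq_bot_iff]
      intro z hz
      have h2 : (Subgroup.subtype _) z ∈ (gam (Subgroup.closure Z) e).map
        (Subgroup.subtype _) := ⟨z, hz, rfl⟩
      rw [map_gam, MonoidHom.map_closure] at h2
      have h3 : (Subgroup.subtype _) z ∈ (⊥ : Subgroup G) := by
        rw [← he]
        exact h2
      exact Subgroup.mem_bot.2 (Subtype.ext (Subgroup.mem_bot.1 h3))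
    rw [← map_gam, h1, Subgroup.map_bot]
  have hitT : ∀ a ∈ Y0, ∀ k ≤ c, itc y a k ∈ T := by
    rintro _ ⟨a, ha, rfl⟩ k hk
    refine ⟨itc ⟨x, hxL⟩ a k, Subgroup.subset_closure ?_, itc_map φ _ _ _⟩
    simp only [Z, Set.mem_iUnion]
    exact ⟨k, Finset.mem_range.2 (by omega), a, ha, rfl⟩
  have hTB : T ≤ B := by
    rw [Subgroup.map_le_iff_le_comap, Subgroup.closure_le]
    intro z hz
    simp only [Z, Set.mem_iUnion] at hz
    obtain ⟨k, _, a, ha, rfl⟩ := hz
    rw [SetLike.mem_coe, Subgroup.mem_comap, itc_map]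
    exact itc_mem hyB (hY0B ⟨a, ha, rfl⟩) k
  -- `B ≤ T R`
  have hBT : ∀ b ∈ B, ∃ t ∈ T, ∃ r ∈ R, b = t * r := by
    have h1 : B.map π ≤ T.map π := by
      rw [MonoidHom.map_closure, Subgroup.closure_le]
      rintro _ ⟨_, ⟨a, ha, j, rfl⟩, rfl⟩
      have h2 : itc (π y) (π a) c = 1 := by
        have h3 : itc (π y) (π a) c ∈ gam (φ.range.map π) c := by
          have h5 : π y ∈ φ.range.map π := ⟨y, ⟨_, rfl⟩, rfl⟩
          have h6 : π a ∈ φ.range.map π := by
            obtain ⟨w, _, rfl⟩ := ha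
            exact ⟨φ w, ⟨w, rfl⟩, rfl⟩
          exact itc_gam h5 h6 c
        rw [hc, Subgroup.mem_bot] at h3
        exact h3
      have h4 := conj_mem_of_itc h2 (T := T.map π) (by
        intro k hk
        rw [← itc_map]
        exact ⟨_, hitT a ha k hk, rfl⟩) j
      rw [SetLike.mem_coe, map_mul, map_mul, map_inv, map_zpow]
      exact h4
    intro b hb
    obtain ⟨t, ht, htb⟩ := h1 ⟨b, hb, rfl⟩
    refine ⟨t, ht, t⁻¹ * b, ?_, by group⟩
    rw [← QuotientGroup.ker_mk' R, MonoidHom.mem_ker, map_mul, map_inv, htb, inv_mul_cancel]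
  -- `B` is nilpotent
  have hBe : gam B e = ⊥ := by
    rw [eq_bot_iff, ← hEbot, le_iInf_iff]
    intro n
    let ψ : H →* H ⧸ E n := QuotientGroup.mk' (E n)
    obtain ⟨m, hm⟩ := hEnil n
    have hnil : gam (⊤ : Subgroup (H ⧸ E n)) m = ⊥ := by
      rw [← Subgroup.map_top_of_surjective _ (QuotientGroup.mk'_surjective (E n)), ← map_gam,
        eq_bot_iff, Subgroup.map_le_iff_le_comap]
      intro g hg
      rw [Subgroup.mem_comap, Subgroup.mem_bot, ← MonoidHom.mem_ker, QuotientGroup.ker_mk']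
      exact hm hg
    have h1 : B.map ψ ≤ hull (T.map ψ) := by
      refine le_hull_of_frattini hnil (Subgroup.map_mono hTB) ?_
      rintro _ ⟨b, hb, rfl⟩
      obtain ⟨t, ht, r, hr, rfl⟩ := hBT b hb
      refine ⟨ψ t, ⟨t, ht, rfl⟩, ψ r, ?_, map_mul _ _ _⟩
      rw [← Subgroup.map_commutator]
      exact (hRmem r).1 hr n
    have h2 : gam (hull (T.map ψ)) e = ⊥ := by
      refine gam_hull e _ (hBE n) (hAH.quotient hBH.rc_bot (E n)) _ ?_
      rw [← map_gam, hTe, Subgroup.map_bot]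
    intro z hz
    have h3 : ψ z ∈ gam (B.map ψ) e := by
      rw [← map_gam]
      exact ⟨z, hz, rfl⟩
    have h4 := gam_mono h1 e h3
    rw [h2, Subgroup.mem_bot, ← MonoidHom.mem_ker, QuotientGroup.ker_mk'] at h4
    exact h4
  have hsB : Group.IsSolvable B := by
    have := isNilpotent_of_gam hBe
    infer_instance
  obtain ⟨n, hn⟩ := nilpotent_of_solvable hBH hAH (S := φ.range)
    ⟨_, (hX1.image φ).insert y, hφr.symm⟩ (isSolvable_ext hcomm hsB)
  exact hne n hn

end CRO
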