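import Mathlib

/-!
A Zorn lemma argument: an abelian group with a commuting family of positive endomorphisms which are
injective modulo a subgroup has a total order modulo that subgroup for which they are positive.
-/

namespace CRO

variable {W : Type*} [AddCommGroup W]

/-- cone modulo a subgroup, stable under a set of endomorphisms -/
structure ACone (K : AddSubgroup W) (S : Set (Module.End ℤ W)) (Q : Set W) : Prop where
  add : ∀ x ∈ Q, ∀ y ∈ Q, x + y ∈ Q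
  addK : ∀ x ∈ Q, ∀ k ∈ K, x + k ∈ Q
  disj : ∀ x ∈ Q, x ∉ K
  smul : ∀ φ ∈ S, ∀ x ∈ Q, φ x ∈ Q

theorem exists_total_cone (K : AddSubgroup W) (S : Set (Module.End ℤ W))
    (hne : S.Nonempty)
    (hadd : ∀ φ ∈ S, ∀ ψ ∈ S, φ + ψ ∈ S) (hmul : ∀ φ ∈ S, ∀ ψ ∈ S, φ * ψ ∈ S)
    (hcomm : ∀ φ ∈ S, ∀ ψ ∈ S, φ * ψ = ψ * φ)
    (hinj : ∀ φ ∈ S, ∀ x, φ x ∈ K → x ∈ K) (hK : ∀ φ ∈ S, ∀ x ∈ K, φ x ∈ K) :
    ∃ Q : Set W, ACone K S Q ∧ ∀ x, x ∉ K → x ∈ Q ∨ -x ∈ Q := by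
  obtain ⟨Q, hQ⟩ := zorn_subset {Q : Set W | ACone K S Q} (by
    intro c hc hchain
    refine ⟨⋃₀ c, ?_, fun s hs => Set.subset_sUnion_of_mem hs⟩
    refine ⟨?_, ?_, ?_, ?_⟩
    · rintro x ⟨s, hs, hxs⟩ y ⟨t, ht, hyt⟩
      rcases hchain.total hs ht with h | h
      · exact ⟨t, ht, (hc ht).add _ (h hxs) _ hyt⟩
      · exact ⟨s, hs, (hc hs).add _ hxs _ (h hyt)⟩
    · rintro x ⟨s, hs, hxs⟩ k hk
      exact ⟨s, hs, (hc hs).addK _ hxs _ hk⟩
    · rintro x ⟨s, hs, hxs⟩ hk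
      exact (hc hs).disj _ hxs hk
    · rintro φ hφ x ⟨s, hs, hxs⟩
      exact ⟨s, hs, (hc hs).smul _ hφ _ hxs⟩)
  have hQc : ACone K S Q := hQ.prop
  refine ⟨Q, hQc, ?_⟩
  -- extension by `x`
  have ext : ∀ x, x ∉ K → (∀ φ ∈ S, -(φ x) ∉ Q) → x ∈ Q ∨ ∃ φ ∈ S, φ x ∈ Q := by
    intro x hx hneg
    right
    let Q' : Set W := Q ∪ ({y | ∃ φ ∈ S, ∃ k ∈ K, y = φ x + k} ∪
      {y | ∃ q ∈ Q, ∃ φ ∈ S, y = q + φ x})
    have hQ' : ACone K S Q' := by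
      refine ⟨?_, ?_, ?_, ?_⟩
      · rintro a (ha | ⟨φ, hφ, k, hk, rfl⟩ | ⟨q, hq, φ, hφ, rfl⟩) b
          (hb | ⟨ψ, hψ, l, hl, rfl⟩ | ⟨r, hr, ψ, hψ, rfl⟩)
        · exact Or.inl (hQc.add _ ha _ hb)
        · exact Or.inr (Or.inr ⟨a + l, hQc.addK _ ha _ hl, ψ, hψ, by abel⟩)
        · exact Or.inr (Or.inr ⟨a + r, hQc.add _ ha _ hr, ψ, hψ, by abel⟩)
        · exact Or.inr (Or.inr ⟨b + k, hQc.addK _ hb _ hk, φ, hφ, by abel⟩)
        · exact Or.inr (Or.inl ⟨φ + ψ, hadd _ hφ _ hψ, k + l, K.add_mem hk hl, by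
            rw [LinearMap.add_apply]; abel⟩)
        · exact Or.inr (Or.inr ⟨r + k, hQc.addK _ hr _ hk, φ + ψ, hadd _ hφ _ hψ, by
            rw [LinearMap.add_apply]; abel⟩)
        · exact Or.inr (Or.inr ⟨q + b, hQc.add _ hq _ hb, φ, hφ, by abel⟩)
        · exact Or.inr (Or.inr ⟨q + l, hQc.addK _ hq _ hl, φ + ψ, hadd _ hφ _ hψ, by
            rw [LinearMap.add_apply]; abel⟩)
        · exact Or.inr (Or.inr ⟨q + r, hQc.add _ hq _ hr, φ + ψ, hadd _ hφ _ hψ, by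
            rw [LinearMap.add_apply]; abel⟩)
      · rintro a (ha | ⟨φ, hφ, k, hk, rfl⟩ | ⟨q, hq, φ, hφ, rfl⟩) l hl
        · exact Or.inl (hQc.addK _ ha _ hl)
        · exact Or.inr (Or.inl ⟨φ, hφ, k + l, K.add_mem hk hl, by abel⟩)
        · exact Or.inr (Or.inr ⟨q + l, hQc.addK _ hq _ hl, φ, hφ, by abel⟩)
      · rintro a (ha | ⟨φ, hφ, k, hk, rfl⟩ | ⟨q, hq, φ, hφ, rfl⟩) haK
        · exact hQc.disj _ ha haK
        · refine hx (hinj _ hφ _ ?_)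
          have := K.sub_mem haK hk
          simpa using this
        · refine hneg φ hφ ?_
          have h1 := hQc.addK _ hq _ (K.neg_mem haK)
          have h2 : q + -(q + φ x) = -(φ x) := by abel
          rwa [h2] at h1
      · rintro ψ hψ a (ha | ⟨φ, hφ, k, hk, rfl⟩ | ⟨q, hq, φ, hφ, rfl⟩)
        · exact Or.inl (hQc.smul _ hψ _ ha)
        · exact Or.inr (Or.inl ⟨ψ * φ, hmul _ hψ _ hφ, ψ k, hK _ hψ _ hk, by
            rw [map_add, Module.End.mul_apply]⟩)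
        · exact Or.inr (Or.inr ⟨ψ q, hQc.smul _ hψ _ hq, ψ * φ, hmul _ hψ _ hφ, by
            rw [map_add, Module.End.mul_apply]⟩)
    have hsub : Q ⊆ Q' := Set.subset_union_left
    have hle := hQ.le_of_ge hQ' hsub
    obtain ⟨φ, hφ⟩ := hne
    exact ⟨φ, hφ, hle (Or.inr (Or.inl ⟨φ, hφ, 0, K.zero_mem, by simp⟩))⟩
  -- roots
  have root : ∀ x, x ∉ K → (∃ φ ∈ S, φ x ∈ Q) → x ∈ Q := by
    intro x hx hφx
    obtain ⟨φ, hφ, hφx⟩ := hφx
    let Q' : Set W := Q ∪ ({y | y ∉ K ∧ ∃ φ ∈ S, φ y ∈ Q})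
    have hnz : ∀ φ ∈ S, ∀ y, φ y ∈ Q → y ∉ K := by
      intro φ hφ y hy hyK
      exact hQc.disj _ hy (hK _ hφ _ hyK)
    have hQ' : ACone K S Q' := by
      refine ⟨?_, ?_, ?_, ?_⟩
      · have key : ∀ φ ∈ S, ∀ ψ ∈ S, ∀ a b, φ a ∈ Q → ψ b ∈ Q → a + b ∈ Q' := by
          intro φ hφ ψ hψ a b ha hb
          right
          have h1 : (φ * ψ) (a + b) ∈ Q := by
            rw [map_add]
            refine hQc.add _ ?_ _ ?_
            · rw [hcomm _ hφ _ hψ, Module.End.mul_apply]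
              exact hQc.smul _ hψ _ ha
            · rw [Module.End.mul_apply]
              exact hQc.smul _ hφ _ hb
          exact ⟨hnz _ (hmul _ hφ _ hψ) _ h1, _, hmul _ hφ _ hψ, h1⟩
        rintro a (ha | ⟨-, ψ, hψ, ha⟩) b (hb | ⟨-, χ, hχ, hb⟩)
        · exact Or.inl (hQc.add _ ha _ hb)
        · exact key χ hχ χ hχ a b (hQc.smul _ hχ _ ha) hb
        · exact key ψ hψ ψ hψ a b ha (hQc.smul _ hψ _ hb)
        · exact key ψ hψ χ hχ a b ha hb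
      · rintro a (ha | ⟨-, ψ, hψ, ha⟩) k hk
        · exact Or.inl (hQc.addK _ ha _ hk)
        · right
          have h1 : ψ (a + k) ∈ Q := by
            rw [map_add]
            exact hQc.addK _ ha _ (hK _ hψ _ hk)
          exact ⟨hnz _ hψ _ h1, ψ, hψ, h1⟩
      · rintro a (ha | ⟨haK, -⟩)
        · exact hQc.disj _ ha
        · exact haK
      · rintro χ hχ a (ha | ⟨-, ψ, hψ, ha⟩)
        · exact Or.inl (hQc.smul _ hχ _ ha)
        · right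
          have h1 : ψ (χ a) ∈ Q := by
            rw [← Module.End.mul_apply, hcomm _ hψ _ hχ, Module.End.mul_apply]
            exact hQc.smul _ hχ _ ha
          exact ⟨hnz _ hψ _ h1, ψ, hψ, h1⟩
    have hle := hQ.le_of_ge hQ' Set.subset_union_left
    exact hle (Or.inr ⟨hx, φ, hφ, hφx⟩)
  intro x hx
  by_cases h1 : ∃ φ ∈ S, -(φ x) ∈ Q
  · right
    obtain ⟨φ, hφ, h⟩ := h1
    refine root _ (fun h => hx (by simpa using K.neg_mem h)) ⟨φ, hφ, ?_⟩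
    rwa [map_neg]
  · left
    push_neg at h1
    rcases ext x hx h1 with h | h
    · exact h
    · exact root x hx h

end CRO
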