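import Pool.Agent.CRO.Order
import Pool.Agent.CRO.ZornCone

/-!
Constructing bi-orders: abelian sections, central valuations, torsion-free nilpotent groups.
-/

namespace CRO

universe u

/-- an abelian section `L / M` without torsion has a total order -/
theorem exists_cone_of_abelian {K : Type u} [Group K] (L M : Subgroup K) (hML : M ≤ L)
    (hcomm : ∀ x ∈ L, ∀ y ∈ L, x * y * x⁻¹ * y⁻¹ ∈ M)
    (hiso : ∀ y ∈ L, ∀ k : ℕ, k ≠ 0 → y ^ k ∈ M → y ∈ M) :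
    ∃ Q : Set K, (∀ x ∈ Q, x ∈ L) ∧ (∀ x ∈ Q, ∀ y ∈ Q, x * y ∈ Q) ∧
      (∀ m ∈ M, ∀ x ∈ Q, m * x ∈ Q) ∧ (∀ x ∈ Q, ∀ m ∈ M, x * m ∈ Q) ∧ (∀ x ∈ Q, x ∉ M) ∧
      (∀ x ∈ L, x ∉ M → x ∈ Q ∨ x⁻¹ ∈ Q) := by
  let W := Additive (Abelianization L)
  let of' : L →* Abelianization L := Abelianization.of
  let K0 : AddSubgroup W := Subgroup.toAddSubgroup ((M.subgroupOf L).map of')
  have memK0 : ∀ x : L, Additive.ofMul (of' x) ∈ K0 ↔ x.1 ∈ M := by
    intro x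
    constructor
    · rintro ⟨m, hm, hmx⟩
      have h1 : of' m = of' x := hmx
      have h2 : (m⁻¹ * x : L) ∈ commutator L := by
        have h3 : of' (m⁻¹ * x) = 1 := by
          rw [map_mul, map_inv, h1, inv_mul_cancel]
        rwa [← MonoidHom.mem_ker, Abelianization.ker_of] at h3
      have h3 : commutator L ≤ M.subgroupOf L := by
        rw [commutator_def, Subgroup.commutator_le]
        intro a _ b _
        rw [Subgroup.mem_subgroupOf]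
        exact hcomm _ a.2 _ b.2
      have h4 := h3 h2
      have h5 : m.1 ∈ M := hm
      rw [Subgroup.mem_subgroupOf] at h4
      have h6 : x.1 = m.1 * (m⁻¹ * x : L).1 := by simp
      rw [h6]
      exact M.mul_mem h5 h4
    · intro hx
      exact ⟨x, hx, rfl⟩
  let S : Set (Module.End ℤ W) := {φ | ∃ n : ℕ, n ≠ 0 ∧ φ = (n : Module.End ℤ W)}
  have happ : ∀ (n : ℕ) (w : W), (n : Module.End ℤ W) w = n • w := by
    intro n w
    exact Module.End.natCast_apply n w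
  have hS1 : ∀ φ ∈ S, ∀ ψ ∈ S, φ + ψ ∈ S := by
    rintro _ ⟨n, hn, rfl⟩ _ ⟨m, hm, rfl⟩
    exact ⟨n + m, by omega, (Nat.cast_add n m).symm⟩
  have hS2 : ∀ φ ∈ S, ∀ ψ ∈ S, φ * ψ ∈ S := by
    rintro _ ⟨n, hn, rfl⟩ _ ⟨m, hm, rfl⟩
    exact ⟨n * m, Nat.mul_ne_zero hn hm, (Nat.cast_mul n m).symm⟩
  have hS3 : ∀ φ ∈ S, ∀ ψ ∈ S, φ * ψ = ψ * φ := by
    rintro _ ⟨n, hn, rfl⟩ _ ⟨m, hm, rfl⟩
    rw [← Nat.cast_mul, mul_comm, Nat.cast_mul]
  have hS4 : ∀ φ ∈ S, ∀ x, φ x ∈ K0 → x ∈ K0 := by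
    rintro _ ⟨n, hn, rfl⟩ w hw
    obtain ⟨y, rfl⟩ : ∃ y : L, Additive.ofMul (of' y) = w := by
      obtain ⟨y, hy⟩ := QuotientGroup.mk'_surjective (commutator L) (Additive.toMul w)
      exact ⟨y, hy⟩
    rw [happ] at hw
    have h1 : n • Additive.ofMul (of' y) = Additive.ofMul (of' (y ^ n)) := by
      rw [map_pow]; rfl
    rw [h1, memK0] at hw
    rw [memK0]
    exact hiso _ y.2 n hn (by simpa using hw)
  have hS5 : ∀ φ ∈ S, ∀ x ∈ K0, φ x ∈ K0 := by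
    rintro _ ⟨n, hn, rfl⟩ w hw
    rw [happ]
    exact K0.nsmul_mem hw n
  obtain ⟨Q, hQ, hQt⟩ := exists_total_cone K0 S ⟨1, 1, one_ne_zero, by simp⟩ hS1 hS2 hS3 hS4 hS5
  · refine ⟨{x | ∃ h : x ∈ L, Additive.ofMul (of' ⟨x, h⟩) ∈ Q}, ?_, ?_, ?_, ?_, ?_, ?_⟩
    · rintro x ⟨h, -⟩
      exact h
    · rintro x ⟨hx, hx'⟩ y ⟨hy, hy'⟩
      exact ⟨L.mul_mem hx hy, hQ.add _ hx' _ hy'⟩
    · rintro m hm x ⟨hx, hx'⟩
      refine ⟨L.mul_mem (hML hm) hx, ?_⟩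
      have h0 : of' ⟨m * x, L.mul_mem (hML hm) hx⟩ = of' ⟨x, hx⟩ * of' ⟨m, hML hm⟩ := by
        rw [mul_comm, ← map_mul]
        rfl
      have h1 : Additive.ofMul (of' ⟨m * x, L.mul_mem (hML hm) hx⟩) =
          Additive.ofMul (of' ⟨x, hx⟩) + Additive.ofMul (of' ⟨m, hML hm⟩) := by
        rw [← ofMul_mul, h0]
      rw [h1]
      exact hQ.addK _ hx' _ ((memK0 _).2 hm)
    · rintro x ⟨hx, hx'⟩ m hm
      refine ⟨L.mul_mem hx (hML hm), ?_⟩
      exact hQ.addK _ hx' _ ((memK0 ⟨m, hML hm⟩).2 hm)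
    · rintro x ⟨hx, hx'⟩ hxM
      exact hQ.disj _ hx' ((memK0 _).2 hxM)
    · intro x hx hxM
      have h1 : Additive.ofMul (of' ⟨x, hx⟩) ∉ K0 := fun h => hxM ((memK0 _).1 h)
      rcases hQt _ h1 with h2 | h2
      · exact Or.inl ⟨hx, h2⟩
      · right
        refine ⟨L.inv_mem hx, ?_⟩
        exact h2

theorem BO_quotient_of_cone {K : Type u} [Group K] (N : Subgroup K) [N.Normal] {P : Set K}
    (hP : RCone N P) (hconj : ∀ x ∈ P, ∀ g, g⁻¹ * x * g ∈ P) : BO (K ⧸ N) := by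
  refine ⟨(QuotientGroup.mk' N) '' P, ?_, ?_, ?_, ?_⟩
  · rintro _ ⟨x, hx, rfl⟩ _ ⟨y, hy, rfl⟩
    exact ⟨x * y, hP.mul _ hx _ hy, map_mul _ _ _⟩
  · rintro _ ⟨x, hx, rfl⟩ g
    obtain ⟨g, rfl⟩ := QuotientGroup.mk'_surjective N g
    exact ⟨g⁻¹ * x * g, hconj _ hx g, by simp⟩
  · rintro ⟨x, hx, hx1⟩
    refine hP.disj _ hx ?_
    rwa [← MonoidHom.mem_ker, QuotientGroup.ker_mk'] at hx1
  · intro q hq
    obtain ⟨x, rfl⟩ := QuotientGroup.mk'_surjective N q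
    have hx : x ∉ N := by
      intro h
      apply hq
      rwa [← MonoidHom.mem_ker, QuotientGroup.ker_mk']
    rcases hP.total x hx with h | h
    · exact Or.inl ⟨x, h, rfl⟩
    · exact Or.inr ⟨x⁻¹, h, map_inv _ _⟩

/-- central valuations give bi-orders -/
theorem BO_of_valuation {K : Type u} [Group K] {Γ : Type*} [PartialOrder Γ] (v : K → Γ)
    (N : Subgroup K) [N.Normal] (hN : ∀ x, x ∈ N ↔ v x = v 1) (htop : ∀ x, v x ≤ v 1)
    (htot : ∀ x y, v x ≤ v y ∨ v y ≤ v x)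
    (hmul : ∀ z x y, v z ≤ v x → v z ≤ v y → v z ≤ v (x * y))
    (hinv : ∀ x, v x⁻¹ = v x) (hpow : ∀ x, ∀ k : ℕ, k ≠ 0 → v (x ^ k) = v x)
    (hcomm : ∀ x g, x ∉ N → v x < v (x⁻¹ * (g⁻¹ * x * g))) : BO (K ⧸ N) := by
  have hmin : ∀ x y, v x ≤ v (x * y) ∨ v y ≤ v (x * y) := by
    intro x y
    rcases htot x y with h | h
    · exact Or.inl (hmul x x y le_rfl h)
    · exact Or.inr (hmul y x y h le_rfl)
  let L : K → Subgroup K := fun z =>
    { carrier := {x | v z ≤ v x}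
      mul_mem' := fun {x y} hx hy => hmul z x y hx hy
      one_mem' := htop z
      inv_mem' := fun {x} hx => by
        change v z ≤ v x⁻¹
        rw [hinv]
        exact hx }
  let M : K → (z : K) → z ∉ N → Subgroup K := fun _ z hz =>
    { carrier := {x | v z < v x}
      mul_mem' := fun {x y} hx hy => by
        rcases hmin x y with h | h
        · exact lt_of_lt_of_le hx h
        · exact lt_of_lt_of_le hy h
      one_mem' := lt_of_le_of_ne (htop z) (fun h => hz ((hN z).2 h))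
      inv_mem' := fun {x} hx => by
        change v z < v x⁻¹
        rw [hinv]
        exact hx }
  have hcommL : ∀ z, ∀ hz : z ∉ N, ∀ x ∈ L z, ∀ g, x⁻¹ * (g⁻¹ * x * g) ∈ M z z hz := by
    intro z hz x hx g
    change v z ≤ v x at hx
    change v z < _
    by_cases hxN : x ∈ N
    · have h1 : x⁻¹ * (g⁻¹ * x * g) ∈ N :=
        N.mul_mem (N.inv_mem hxN) (by simpa using (inferInstance : N.Normal).conj_mem x hxN g⁻¹)
      rw [(hN _).1 h1]
      exact lt_of_le_of_ne (htop z) (fun h => hz ((hN z).2 h))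
    · exact lt_of_le_of_lt hx (hcomm x g hxN)
  have hex : ∀ γ : Γ, ∃ Q : Set K, ∀ z, ∀ hz : z ∉ N, v z = γ →
      (∀ x ∈ Q, v z ≤ v x) ∧ (∀ x ∈ Q, ∀ y ∈ Q, x * y ∈ Q) ∧
      (∀ m, v z < v m → ∀ x ∈ Q, m * x ∈ Q) ∧ (∀ x ∈ Q, ∀ m, v z < v m → x * m ∈ Q) ∧
      (∀ x ∈ Q, ¬ v z < v x) ∧ (∀ x, v z ≤ v x → ¬ v z < v x → x ∈ Q ∨ x⁻¹ ∈ Q) := by
    intro γ
    by_cases h : ∃ z, z ∉ N ∧ v z = γ
    · obtain ⟨z, hz, hzγ⟩ := h
      obtain ⟨Q, h1, h2, h3, h4, h5, h6⟩ := exists_cone_of_abelian (L z) (M z z hz)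
        (fun x hx => (le_of_lt hx : v z ≤ v x)) (by
          intro x hx y hy
          have h1 := hcommL z hz x⁻¹ ((L z).inv_mem hx) y⁻¹
          convert h1 using 1
          group) (by
          intro y hy k hk hyk
          change v z < v (y ^ k) at hyk
          change v z < v y
          rwa [hpow y k hk] at hyk)
      refine ⟨Q, fun z' hz' hz'γ => ?_⟩
      rw [hz'γ, ← hzγ]
      exact ⟨h1, h2, h3, h4, h5, fun x hx hx' => h6 x hx hx'⟩
    · refine ⟨∅, fun z hz hzγ => absurd ⟨z, hz, hzγ⟩ h⟩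
  choose Q hQ using hex
  refine BO_quotient_of_cone N (P := {x | x ∉ N ∧ x ∈ Q (v x)}) ⟨?_, ?_, ?_, ?_, ?_⟩ ?_
  · rintro x ⟨hx, hxQ⟩ y ⟨hy, hyQ⟩
    obtain ⟨a1, a2, a3, a4, a5, a6⟩ := hQ _ x hx rfl
    obtain ⟨b1, b2, b3, b4, b5, b6⟩ := hQ _ y hy rfl
    have fin : ∀ z, z ∉ N → x * y ∈ Q (v z) → x * y ∉ N ∧ x * y ∈ Q (v (x * y)) := by
      intro z hz hxy
      obtain ⟨c1, c2, c3, c4, c5, c6⟩ := hQ _ z hz rfl
      have h1 := c1 _ hxy
      have h2 := c5 _ hxy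
      have h3 : v (x * y) = v z := (h1.eq_or_lt.resolve_right h2).symm
      refine ⟨fun h => hz ((hN z).2 ?_), ?_⟩
      · rw [← h3]
        exact (hN _).1 h
      · rw [h3]
        exact hxy
    rcases htot x y with h | h
    · rcases h.eq_or_lt with h | h
      · refine fin x hx (a2 _ hxQ _ ?_)
        rw [h]
        exact hyQ
      · exact fin x hx (a4 _ hxQ _ h)
    · rcases h.eq_or_lt with h | h
      · refine fin x hx (a2 _ hxQ _ ?_)
        rw [← h]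
        exact hyQ
      · exact fin y hy (b3 _ h _ hyQ)
  · rintro c hc x ⟨hx, hxQ⟩
    obtain ⟨a1, a2, a3, a4, a5, a6⟩ := hQ _ x hx rfl
    have hlt : v x < v c := by
      rw [(hN c).1 hc]
      exact lt_of_le_of_ne (htop x) (fun h => hx ((hN x).2 h))
    have h1 := a3 _ hlt _ hxQ
    have h2 : v (c * x) = v x := ((a1 _ h1).eq_or_lt.resolve_right (a5 _ h1)).symm
    refine ⟨fun h => hx ((Subgroup.mul_mem_cancel_left N hc).1 h), ?_⟩
    rw [h2]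
    exact h1
  · rintro x ⟨hx, hxQ⟩ c hc
    obtain ⟨a1, a2, a3, a4, a5, a6⟩ := hQ _ x hx rfl
    have hlt : v x < v c := by
      rw [(hN c).1 hc]
      exact lt_of_le_of_ne (htop x) (fun h => hx ((hN x).2 h))
    have h1 := a4 _ hxQ _ hlt
    have h2 : v (x * c) = v x := ((a1 _ h1).eq_or_lt.resolve_right (a5 _ h1)).symm
    refine ⟨fun h => hx ((Subgroup.mul_mem_cancel_right N hc).1 h), ?_⟩
    rw [h2]
    exact h1
  · rintro x ⟨hx, -⟩
    exact hx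
  · intro x hx
    obtain ⟨a1, a2, a3, a4, a5, a6⟩ := hQ _ x hx rfl
    rcases a6 x le_rfl (lt_irrefl _) with h | h
    · exact Or.inl ⟨hx, h⟩
    · right
      refine ⟨fun h => hx (by simpa using h), ?_⟩
      rw [hinv]
      exact h
  · rintro x ⟨hx, hxQ⟩ g
    obtain ⟨a1, a2, a3, a4, a5, a6⟩ := hQ _ x hx rfl
    have h0 := hcomm x g hx
    have h1 := a4 _ hxQ _ h0
    have h3 : x * (x⁻¹ * (g⁻¹ * x * g)) = g⁻¹ * x * g := by group
    rw [h3] at h1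
    have h2 : v (g⁻¹ * x * g) = v x := ((a1 _ h1).eq_or_lt.resolve_right (a5 _ h1)).symm
    refine ⟨fun h => hx ?_, ?_⟩
    · have := (inferInstance : N.Normal).conj_mem _ h g
      simpa [mul_assoc] using this
    · rw [h2]
      exact h1

end CRO
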