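import Pool.Agent.CRO.Center

/-!
In a bi-orderable group all of whose right orders are Conrad, the relatively convex hull of a
nilpotent subgroup is nilpotent of the same class.
-/

open scoped commutatorElement

namespace CRO

universe u

/-- lower central series of a subgroup (inside the ambient group) -/
def gam {G : Type u} [Group G] (S : Subgroup G) : ℕ → Subgroup G
  | 0 => S
  | n + 1 => ⁅gam S n, S⁆

section

variable {G : Type u} [Group G]

lemma gam_zero (S : Subgroup G) : gam S 0 = S := rfl

lemma gam_succ (S : Subgroup G) (n : ℕ) : gam S (n + 1) = ⁅gam S n, S⁆ := rfl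

lemma map_gam {K : Type u} [Group K] (φ : G →* K) (S : Subgroup G) (n : ℕ) :
    (gam S n).map φ = gam (S.map φ) n := by
  induction n with
  | zero => rfl
  | succ n ih => rw [gam_succ, gam_succ, Subgroup.map_commutator, ih]

lemma gam_mono {S T : Subgroup G} (h : S ≤ T) (n : ℕ) : gam S n ≤ gam T n := by
  induction n with
  | zero => exact h
  | succ n ih => exact Subgroup.commutator_mono ih h

lemma gam_le (S : Subgroup G) (n : ℕ) : gam S n ≤ S := by
  induction n with
  | zero => exact le_rfl
  | succ n ih =>
    rw [gam_succ, Subgroup.commutator_le]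
    intro x hx y hy
    exact S.mul_mem (S.mul_mem (S.mul_mem (ih hx) hy) (S.inv_mem (ih hx))) (S.inv_mem hy)

lemma BO.RC_centralizer (h : BO G) (s : Set G) : RC (Subgroup.centralizer s) := by
  obtain ⟨_, _, _⟩ := h.exists_order
  exact CRO.RC_centralizer s

lemma BO.center_quotient (h : BO G) (hA : AC G) : BO (G ⧸ Subgroup.center G) := by
  obtain ⟨_, _, _⟩ := h.exists_order
  exact BO_center_quotient (cen_of_AC hA)

end

theorem gam_hull : ∀ (c : ℕ) (G : Type u) [Group G], BO G → AC G → ∀ S : Subgroup G,
    gam S c = ⊥ → gam (hull S) c = ⊥ := by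
  intro c
  induction c with
  | zero =>
    intro G _ hB _ S hS
    rw [gam_zero] at *
    subst hS
    exact le_bot_iff.1 (hull_le hB.rc_bot le_rfl)
  | succ c ih =>
    intro G _ hB hA S hS
    set H := hull S with hH
    have hcent : ∀ s ∈ gam S c, ∀ h ∈ H, h * s = s * h := by
      intro s hs h hh
      have h1 : S ≤ Subgroup.centralizer {s} := by
        intro t ht
        rw [Subgroup.mem_centralizer_singleton_iff]
        have h2 : ⁅s, t⁆ ∈ gam S (c + 1) := Subgroup.commutator_mem_commutator hs ht
        rw [hS, Subgroup.mem_bot, commutatorElement_eq_one_iff_mul_comm] at h2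
        exact h2.symm
      have h2 := hull_le (hB.RC_centralizer {s}) h1
      have h3 := h2 hh
      rwa [Subgroup.mem_centralizer_singleton_iff] at h3
    have hBH : BO H := hB.subgroup H
    have hAH : AC H := hA.subgroup (RC_hull S)
    let Z := Subgroup.center H
    let π := QuotientGroup.mk' Z
    have hBQ : BO (H ⧸ Z) := hBH.center_quotient hAH
    have hAQ : AC (H ⧸ Z) := hAH.quotient hBH.rc_bot Z
    let S' : Subgroup H := S.subgroupOf H
    have hS'map : S'.map H.subtype = S := by
      rw [Subgroup.subgroupOf_map_subtype]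
      exact inf_eq_left.2 (le_hull S)
    have h1 : gam (S'.map π) c = ⊥ := by
      rw [← map_gam, Subgroup.map_eq_bot_iff, QuotientGroup.ker_mk']
      intro s hs
      have hs' : s.1 ∈ gam S c := by
        rw [← hS'map, ← map_gam]
        exact ⟨s, hs, rfl⟩
      rw [Subgroup.mem_center_iff]
      intro h
      exact Subtype.ext (hcent _ hs' _ h.2)
    have h2 := ih (H ⧸ Z) hBQ hAQ _ h1
    have h3 : hull (S'.map π) = ⊤ := by
      have h4 : RC ((hull (S'.map π)).comap π) := (RC_hull _).comap π
      have h5 := (RC_hull S).trans h4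
      have h6 : S ≤ ((hull (S'.map π)).comap π).map H.subtype := by
        rw [← hS'map]
        refine Subgroup.map_mono ?_
        exact Subgroup.map_le_iff_le_comap.1 (le_hull _)
      have h7 := hull_le h5 h6
      rw [eq_top_iff]
      intro q _
      obtain ⟨x, rfl⟩ := QuotientGroup.mk'_surjective Z q
      obtain ⟨y, hy, hyx⟩ := h7 x.2
      have : y = x := H.subtype_injective hyx
      rw [← this]
      exact hy
    rw [h3] at h2
    have h4 : gam (⊤ : Subgroup H) c ≤ Z := by
      have h5 : (gam (⊤ : Subgroup H) c).map π = ⊥ := by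
        rw [map_gam]
        have : (⊤ : Subgroup H).map π = ⊤ :=
          Subgroup.map_top_of_surjective _ (QuotientGroup.mk'_surjective Z)
        rw [this]
        exact h2
      rw [Subgroup.map_eq_bot_iff, QuotientGroup.ker_mk'] at h5
      exact h5
    have h5 : gam (⊤ : Subgroup H) (c + 1) = ⊥ := by
      rw [gam_succ, eq_bot_iff, Subgroup.commutator_le]
      intro x hx y _
      rw [Subgroup.mem_bot, commutatorElement_eq_one_iff_mul_comm]
      exact (Subgroup.mem_center_iff.1 (h4 hx) y).symm
    have h6 : gam H (c + 1) = (gam (⊤ : Subgroup H) (c + 1)).map H.subtype := by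
      rw [map_gam]
      congr 1
      rw [← MonoidHom.range_eq_map, Subgroup.range_subtype]
    rw [h6, h5, Subgroup.map_bot]

end CRO
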