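import Pool.Agent.CRO.Residual

/-!
Nilpotent groups: powers and relatively convex hulls.
-/

open scoped commutatorElement

namespace CRO

universe u

lemma RC.isolated {G : Type u} [Group G] {C : Subgroup G} (h : RC C) {x : G} {k : ℕ}
    (hk : k ≠ 0) (hx : x ^ k ∈ C) : x ∈ C := by
  obtain ⟨P, hP⟩ := h
  have key : ∀ y ∈ P, ∀ n : ℕ, n ≠ 0 → y ^ n ∈ P := by
    intro y hy n hn
    obtain ⟨m, rfl⟩ := Nat.exists_eq_succ_of_ne_zero hn
    clear hn
    induction m with
    | zero => simpa using hy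
    | succ m ih =>
      rw [pow_succ]
      exact hP.mul _ ih _ hy
  by_contra hxC
  rcases hP.total x hxC with h | h
  · exact hP.disj _ (key x h k hk) hx
  · refine hP.disj _ (key _ h k hk) ?_
    rw [inv_pow]
    exact C.inv_mem hx

section Gam

variable {G : Type u} [Group G]

lemma gam_succ_le (S : Subgroup G) (n : ℕ) : gam S (n + 1) ≤ gam S n := by
  induction n with
  | zero => exact gam_le S 1
  | succ n ih => exact Subgroup.commutator_mono ih le_rfl

lemma gam_anti (S : Subgroup G) {m n : ℕ} (h : m ≤ n) : gam S n ≤ gam S m := by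
  induction n, h using Nat.le_induction with
  | base => exact le_rfl
  | succ n _ ih => exact (gam_succ_le S n).trans ih

instance gam_top_normal (n : ℕ) : (gam (⊤ : Subgroup G) n).Normal := by
  induction n with
  | zero => exact (inferInstance : (⊤ : Subgroup G).Normal)
  | succ n ih => exact Subgroup.commutator_normal _ _

/-- commutators with an element that is central modulo the centre -/
def cmHom (y : G) (hy : ∀ h, ⁅y, h⁆ ∈ Subgroup.center G) : G →* G where
  toFun h := ⁅y, h⁆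
  map_one' := by simp
  map_mul' h1 h2 := by
    have h3 := Subgroup.mem_center_iff.1 (hy h2) h1
    calc ⁅y, h1 * h2⁆ = ⁅y, h1⁆ * (h1 * ⁅y, h2⁆ * h1⁻¹) := by
          simp only [commutatorElement_def]; group
      _ = ⁅y, h1⁆ * ⁅y, h2⁆ := by rw [h3]; group

lemma cm_pow {y : G} (hy : ∀ h, ⁅y, h⁆ ∈ Subgroup.center G) (h : G) (n : ℕ) :
    ⁅y, h ^ n⁆ = ⁅y, h⁆ ^ n := map_pow (cmHom y hy) h n

lemma cm_mul_right {y : G} (hy : ∀ h, ⁅y, h⁆ ∈ Subgroup.center G) (h k : G) :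
    ⁅y, h * k⁆ = ⁅y, h⁆ * ⁅y, k⁆ := map_mul (cmHom y hy) h k

lemma cm_commutator {y : G} (hy : ∀ h, ⁅y, h⁆ ∈ Subgroup.center G) {d : G}
    (hd : d ∈ ⁅(⊤ : Subgroup G), (⊤ : Subgroup G)⁆) : ⁅y, d⁆ = 1 := by
  have h1 : ⁅(⊤ : Subgroup G), (⊤ : Subgroup G)⁆ ≤ (cmHom y hy).ker := by
    rw [Subgroup.commutator_le]
    intro a _ b _
    rw [MonoidHom.mem_ker, map_commutatorElement, commutatorElement_eq_one_iff_commute]
    exact (Subgroup.mem_center_iff.1 (hy b) _)
  exact h1 hd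

lemma cm_pow_left {y : G} (hy : ∀ h, ⁅y, h⁆ ∈ Subgroup.center G) (h : G) (n : ℕ) :
    ⁅y ^ n, h⁆ = ⁅y, h⁆ ^ n := by
  induction n with
  | zero => simp
  | succ n ih =>
    have h3 := Subgroup.mem_center_iff.1 (hy h) (y ^ n)
    calc ⁅y ^ (n + 1), h⁆ = (y ^ n * ⁅y, h⁆ * (y ^ n)⁻¹) * ⁅y ^ n, h⁆ := by
          simp only [commutatorElement_def, pow_succ]; group
      _ = ⁅y, h⁆ ^ (n + 1) := by rw [h3, ih, mul_assoc, mul_assoc, pow_succ',
            mul_inv_cancel_left]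

lemma mk_gam_center {i : ℕ} {y : G} (hy : y ∈ gam (⊤ : Subgroup G) i) :
    QuotientGroup.mk' (gam (⊤ : Subgroup G) (i + 1)) y ∈ Subgroup.center _ := by
  rw [Subgroup.mem_center_iff]
  intro q
  obtain ⟨h, rfl⟩ := QuotientGroup.mk'_surjective _ q
  have h1 : ⁅y, h⁆ ∈ gam (⊤ : Subgroup G) (i + 1) :=
    Subgroup.commutator_mem_commutator hy (Subgroup.mem_top h)
  have h2 : QuotientGroup.mk' (gam (⊤ : Subgroup G) (i + 1)) ⁅y, h⁆ = 1 := by
    rwa [← MonoidHom.mem_ker, QuotientGroup.ker_mk']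
  rw [map_commutatorElement, commutatorElement_eq_one_iff_commute] at h2
  exact h2.eq.symm

end Gam

section Frattini

variable {H : Type u} [Group H] (K : Subgroup H)

/-- the statement for one layer -/
lemma pow_layer (hK : ∀ h : H, ∃ n : ℕ, n ≠ 0 ∧ ∃ k ∈ K, ∃ d ∈ gam (⊤ : Subgroup H) 1,
    h ^ n = k * d) : ∀ i, ∀ y ∈ gam (⊤ : Subgroup H) i, ∃ n : ℕ, n ≠ 0 ∧ ∃ k ∈ gam K i,
    ∃ d ∈ gam (⊤ : Subgroup H) (i + 1), y ^ n = k * d := by
  intro i
  induction i with
  | zero => exact fun y _ => hK y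
  | succ i ih =>
    set π := QuotientGroup.mk' (gam (⊤ : Subgroup H) (i + 2)) with hπ
    have hker : ∀ x, π x = 1 ↔ x ∈ gam (⊤ : Subgroup H) (i + 2) := by
      intro x
      rw [← MonoidHom.mem_ker, hπ, QuotientGroup.ker_mk']
    have hcen : ∀ y ∈ gam (⊤ : Subgroup H) (i + 1), π y ∈ Subgroup.center _ :=
      fun y hy => mk_gam_center hy
    have hcm : ∀ y ∈ gam (⊤ : Subgroup H) i, ∀ q : H ⧸ gam (⊤ : Subgroup H) (i + 2),
        ⁅π y, q⁆ ∈ Subgroup.center _ := by
      intro y hy q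
      obtain ⟨h, rfl⟩ := QuotientGroup.mk'_surjective _ q
      rw [← map_commutatorElement]
      exact hcen _ (Subgroup.commutator_mem_commutator hy (Subgroup.mem_top h))
    have key : ∀ y ∈ ⁅gam (⊤ : Subgroup H) i, (⊤ : Subgroup H)⁆,
        ∃ n : ℕ, n ≠ 0 ∧ ∃ k ∈ gam K (i + 1), π y ^ n = π k := by
      intro y hy
      rw [Subgroup.commutator_def] at hy
      induction hy using Subgroup.closure_induction with
      | mem w hw =>
        obtain ⟨y, hy, h, -, rfl⟩ := hw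
        obtain ⟨n, hn, k, hk, d, hd, h1⟩ := ih y hy
        obtain ⟨m, hm, l, hl, e, he, h2⟩ := hK h
        refine ⟨n * m, mul_ne_zero hn hm, ⁅k, l⁆, Subgroup.commutator_mem_commutator hk hl, ?_⟩
        have hkc : k ∈ gam (⊤ : Subgroup H) i := gam_mono le_top i hk
        have h3 : π ⁅y, h⁆ ^ (n * m) = ⁅π y ^ n, π h ^ m⁆ := by
          have hyn : ∀ q : H ⧸ gam (⊤ : Subgroup H) (i + 2),
              ⁅π y ^ n, q⁆ ∈ Subgroup.center _ := by
            intro q
            rw [← map_pow]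
            exact hcm _ (Subgroup.pow_mem _ hy n) q
          rw [cm_pow hyn, cm_pow_left (hcm y hy), pow_mul, map_commutatorElement]
        have h4 : π y ^ n = π k * π d := by rw [← map_pow, h1, map_mul]
        have h5 : π h ^ m = π l * π e := by rw [← map_pow, h2, map_mul]
        have h6 : ⁅π k * π d, π l * π e⁆ = ⁅π k, π l * π e⁆ := by
          have h7 := Subgroup.mem_center_iff.1 (hcen d hd) (π l * π e)
          have h8 : ⁅π d, π l * π e⁆ = 1 := by
            rw [commutatorElement_eq_one_iff_commute]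
            exact h7.symm
          calc ⁅π k * π d, π l * π e⁆ = π k * ⁅π d, π l * π e⁆ * (π k)⁻¹ * ⁅π k, π l * π e⁆ := by
                simp only [commutatorElement_def]; group
            _ = ⁅π k, π l * π e⁆ := by rw [h8]; group
        have h9 : ⁅π k, π e⁆ = 1 := by
          refine cm_commutator (hcm k hkc) ?_
          have h10 : π e ∈ (⁅(⊤ : Subgroup H), (⊤ : Subgroup H)⁆).map π := ⟨e, he, rfl⟩
          rw [Subgroup.map_commutator] at h10
          exact Subgroup.commutator_mono le_top le_top h10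
        rw [h3, h4, h5, h6, cm_mul_right (hcm k hkc), h9, mul_one, map_commutatorElement]
      | one => exact ⟨1, one_ne_zero, 1, Subgroup.one_mem _, by simp⟩
      | mul a b ha hb iha ihb =>
        obtain ⟨n, hn, k, hk, h1⟩ := iha
        obtain ⟨m, hm, l, hl, h2⟩ := ihb
        rw [← Subgroup.commutator_def] at ha hb
        refine ⟨n * m, mul_ne_zero hn hm, k ^ m * l ^ n,
          Subgroup.mul_mem _ (Subgroup.pow_mem _ hk m) (Subgroup.pow_mem _ hl n), ?_⟩
        have h3 : Commute (π a) (π b) := Subgroup.mem_center_iff.1 (hcen b hb) _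
        rw [map_mul, h3.mul_pow, pow_mul, h1, mul_comm n m, pow_mul, h2, map_mul, map_pow,
          map_pow]
      | inv a _ iha =>
        obtain ⟨n, hn, k, hk, h1⟩ := iha
        exact ⟨n, hn, k⁻¹, Subgroup.inv_mem _ hk, by rw [map_inv, inv_pow, h1, map_inv]⟩
    intro y hy
    obtain ⟨n, hn, k, hk, h1⟩ := key y hy
    refine ⟨n, hn, k, hk, k⁻¹ * y ^ n, ?_, by group⟩
    rw [← hker, map_mul, map_inv, map_pow, h1, inv_mul_cancel]

/-- if every element has a power in `K [H,H]` and `H` is nilpotent then every element of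
`gam ⊤ i` has a power in `gam K i` -/
theorem pow_mem_gam {c : ℕ} (hc : gam (⊤ : Subgroup H) c = ⊥)
    (hK : ∀ h : H, ∃ n : ℕ, n ≠ 0 ∧ ∃ k ∈ K, ∃ d ∈ gam (⊤ : Subgroup H) 1, h ^ n = k * d) :
    ∀ i, ∀ h ∈ gam (⊤ : Subgroup H) i, ∃ n : ℕ, n ≠ 0 ∧ h ^ n ∈ gam K i := by
  intro i h hh
  have key : ∀ j, ∃ n : ℕ, n ≠ 0 ∧ ∃ k ∈ gam K i, ∃ d ∈ gam (⊤ : Subgroup H) (i + j),
      h ^ n = k * d := by
    intro j
    induction j with
    | zero => exact ⟨1, one_ne_zero, 1, Subgroup.one_mem _, h, hh, by simp⟩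
    | succ j ih =>
      obtain ⟨n, hn, k, hk, d, hd, h1⟩ := ih
      obtain ⟨m, hm, l, hl, e, he, h2⟩ := pow_layer K hK (i + j) d hd
      refine ⟨n * m, mul_ne_zero hn hm, k ^ m * l,
        Subgroup.mul_mem _ (Subgroup.pow_mem _ hk m) (gam_anti K (Nat.le_add_right i j) hl),
        (k ^ m * l)⁻¹ * h ^ (n * m), ?_, by group⟩
      set π := QuotientGroup.mk' (gam (⊤ : Subgroup H) (i + (j + 1))) with hπ
      have hker : ∀ x, π x = 1 ↔ x ∈ gam (⊤ : Subgroup H) (i + (j + 1)) := by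
        intro x
        rw [← MonoidHom.mem_ker, hπ, QuotientGroup.ker_mk']
      have hcd : π d ∈ Subgroup.center _ := mk_gam_center hd
      have h3 : Commute (π k) (π d) := Subgroup.mem_center_iff.1 hcd _
      have h4 : π e = 1 := (hker e).2 he
      have h5 : π d ^ m = π l := by rw [← map_pow, h2, map_mul, h4, mul_one]
      rw [← hker, map_mul, pow_mul, h1, map_pow, map_mul π k d, h3.mul_pow, h5, map_inv,
        map_mul, map_pow, inv_mul_cancel]
  obtain ⟨n, hn, k, hk, d, hd, h1⟩ := key c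
  have h2 : d ∈ gam (⊤ : Subgroup H) c := gam_anti _ (Nat.le_add_left c i) hd
  rw [hc, Subgroup.mem_bot] at h2
  refine ⟨n, hn, ?_⟩
  rw [h1, h2, mul_one]
  exact hk

end Frattini

section Hull

variable {Q : Type u} [Group Q]

lemma gam_top_subgroup {c : ℕ} (hc : gam (⊤ : Subgroup Q) c = ⊥) (H : Subgroup Q) :
    gam (⊤ : Subgroup H) c = ⊥ := by
  rw [eq_bot_iff]
  intro x hx
  have h1 : H.subtype x ∈ gam ((⊤ : Subgroup H).map H.subtype) c := by
    rw [← map_gam]
    exact ⟨x, hx, rfl⟩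
  have h2 := gam_mono le_top c h1
  rw [hc, Subgroup.mem_bot] at h2
  exact Subgroup.mem_bot.2 (Subtype.ext h2)

/-- in a commutative group, the isolator of a subgroup is relatively convex -/
lemma RC_isolator {A : Type u} [CommGroup A] (K : Subgroup A) :
    ∃ M : Subgroup A, RC M ∧ ∀ x, x ∈ M ↔ ∃ n : ℕ, n ≠ 0 ∧ x ^ n ∈ K := by
  let M : Subgroup A :=
    { carrier := {x | ∃ n : ℕ, n ≠ 0 ∧ x ^ n ∈ K}
      one_mem' := ⟨1, one_ne_zero, by simp⟩
      inv_mem' := by
        rintro x ⟨n, hn, h⟩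
        exact ⟨n, hn, by rw [inv_pow]; exact K.inv_mem h⟩
      mul_mem' := by
        rintro x y ⟨n, hn, h⟩ ⟨m, hm, h'⟩
        refine ⟨n * m, mul_ne_zero hn hm, ?_⟩
        rw [mul_pow, pow_mul, mul_comm n m, pow_mul]
        exact K.mul_mem (K.pow_mem h m) (K.pow_mem h' n) }
  refine ⟨M, ?_, fun x => Iff.rfl⟩
  obtain ⟨P, p1, p2, p3, p4, p5, p6⟩ := exists_cone_of_abelian (⊤ : Subgroup A) M le_top
    (by
      intro x _ y _
      have : x * y * x⁻¹ * y⁻¹ = 1 := by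
        rw [mul_comm x y]; group
      rw [this]
      exact M.one_mem)
    (by
      rintro y - k hk ⟨n, hn, h⟩
      exact ⟨k * n, mul_ne_zero hk hn, by rw [pow_mul]; exact h⟩)
  exact ⟨P, ⟨p2, p3, p4, p5, fun x hx => p6 x (Subgroup.mem_top x) hx⟩⟩

theorem pow_mem_of_hull {c : ℕ} (hc : gam (⊤ : Subgroup Q) c = ⊥) (L : Subgroup Q) :
    ∀ x ∈ hull L, ∃ n : ℕ, n ≠ 0 ∧ x ^ n ∈ L := by
  let H := hull L
  let K : Subgroup H := L.subgroupOf H
  obtain ⟨M, hM, hMmem⟩ := RC_isolator (K.map (Abelianization.of : H →* Abelianization H))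
  have h1 : RC ((M.comap Abelianization.of).map H.subtype) := (RC_hull L).trans (hM.comap _)
  have h2 : H ≤ (M.comap Abelianization.of).map H.subtype := by
    refine hull_le h1 ?_
    intro x hx
    refine ⟨⟨x, le_hull L hx⟩, ?_, rfl⟩
    rw [SetLike.mem_coe, Subgroup.mem_comap, hMmem]
    exact ⟨1, one_ne_zero, ⟨x, le_hull L hx⟩, hx, by simp⟩
  have h3 : ∀ h : H, ∃ n : ℕ, n ≠ 0 ∧ ∃ k ∈ K, ∃ d ∈ gam (⊤ : Subgroup H) 1,
      h ^ n = k * d := by
    intro h
    obtain ⟨y, hy, hyh⟩ := h2 h.2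
    have hyh' : y = h := H.subtype_injective hyh
    subst hyh'
    rw [SetLike.mem_coe, Subgroup.mem_comap, hMmem] at hy
    obtain ⟨n, hn, k, hk, h4⟩ := hy
    refine ⟨n, hn, k, hk, k⁻¹ * y ^ n, ?_, by group⟩
    have h5 : Abelianization.of (k⁻¹ * y ^ n) = 1 := by
      rw [map_mul, map_inv, map_pow, h4, inv_mul_cancel]
    rw [← MonoidHom.mem_ker, Abelianization.ker_of] at h5
    exact h5
  intro x hx
  obtain ⟨n, hn, h4⟩ := pow_mem_gam K (gam_top_subgroup hc H) h3 0 ⟨x, hx⟩ (Subgroup.mem_top _)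
  exact ⟨n, hn, h4⟩

/-- an element normalising a subgroup normalises its hull -/
lemma conj_mem_hull {U : Subgroup Q} {l : Q} (hl : l ∈ Subgroup.normalizer U) {v : Q}
    (hv : v ∈ hull U) : l * v * l⁻¹ ∈ hull U := by
  have h1 : hull U ≤ (hull U).comap (MulAut.conj l).toMonoidHom := by
    refine hull_le ((RC_hull U).comap _) ?_
    intro u hu
    exact le_hull U ((Subgroup.mem_normalizer_iff.1 hl u).1 hu)
  exact h1 hv

theorem hull_normalizes {c : ℕ} (hc : gam (⊤ : Subgroup Q) c = ⊥) (L U : Subgroup Q)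
    (hLU : L ≤ Subgroup.normalizer U) : hull L ≤ Subgroup.normalizer (hull U) := by
  have hL : L ≤ Subgroup.normalizer (hull U) := by
    intro l hl
    rw [Subgroup.mem_normalizer_iff]
    intro h
    refine ⟨conj_mem_hull (hLU hl), fun h1 => ?_⟩
    have h2 := conj_mem_hull (hLU (L.inv_mem hl)) h1
    have h3 : l⁻¹ * (l * h * l⁻¹) * l⁻¹⁻¹ = h := by group
    rwa [h3] at h2
  have key : ∀ x : Q, ∀ n : ℕ, n ≠ 0 → x ^ n ∈ Subgroup.normalizer (hull U) →
      ∀ u ∈ hull U, x * u * x⁻¹ ∈ hull U := by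
    intro x n hn hx u hu
    set V := hull U with hV
    let H := Subgroup.closure {u, x}
    have huH : u ∈ H := Subgroup.subset_closure (by simp)
    have hxH : x ∈ H := Subgroup.subset_closure (by simp)
    let K0 := Subgroup.closure {u, x ^ n}
    let K : Subgroup H := K0.subgroupOf H
    have huK : u ∈ K0 := Subgroup.subset_closure (by simp)
    have hxK : x ^ n ∈ K0 := Subgroup.subset_closure (by simp)
    have h1 : (⊤ : Subgroup H) ≤ ((K.map (Abelianization.of : H →* Abelianization H)).comap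
        (powMonoidHom n)).comap Abelianization.of := by
      rw [← Subgroup.closure_closure_coe_preimage, Subgroup.closure_le]
      intro y hy
      have hy' : (y : Q) = u ∨ (y : Q) = x := hy
      change Abelianization.of y ^ n ∈ K.map Abelianization.of
      rw [← map_pow]
      refine ⟨y ^ n, ?_, rfl⟩
      change (y : Q) ^ n ∈ K0
      rcases hy' with h | h
      · rw [h]; exact Subgroup.pow_mem _ huK n
      · rw [h]; exact hxK
    have h3 : ∀ h : H, ∃ n : ℕ, n ≠ 0 ∧ ∃ k ∈ K, ∃ d ∈ gam (⊤ : Subgroup H) 1,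
        h ^ n = k * d := by
      intro y
      obtain ⟨k, hk, h4⟩ := h1 (Subgroup.mem_top y)
      refine ⟨n, hn, k, hk, k⁻¹ * y ^ n, ?_, by group⟩
      have h5 : Abelianization.of (k⁻¹ * y ^ n) = 1 := by
        rw [map_mul, map_inv, map_pow, h4]
        exact inv_mul_cancel _
      rw [← MonoidHom.mem_ker, Abelianization.ker_of] at h5
      exact h5
    have h4 : ⁅(⟨u, huH⟩ : H), ⟨x, hxH⟩⁆ ∈ gam (⊤ : Subgroup H) 1 :=
      Subgroup.commutator_mem_commutator (Subgroup.mem_top _) (Subgroup.mem_top _)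
    obtain ⟨m, hm, h5⟩ := pow_mem_gam K (gam_top_subgroup hc H) h3 1 _ h4
    -- elements of `K0`
    have hyp : ∀ j : ℤ, (x ^ n) ^ j ∈ Subgroup.normalizer V := fun j => Subgroup.zpow_mem _ hx j
    have hK0 : ∀ k ∈ K0, ∃ v ∈ V, ∃ j : ℤ, k = v * (x ^ n) ^ j := by
      intro k hk
      induction hk using Subgroup.closure_induction with
      | mem k hk =>
        rcases hk with h | h
        · exact ⟨u, hu, 0, by rw [h]; simp⟩
        · exact ⟨1, V.one_mem, 1, by rw [Set.mem_singleton_iff.1 h]; simp⟩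
      | one => exact ⟨1, V.one_mem, 0, by simp⟩
      | mul a b _ _ iha ihb =>
        obtain ⟨v, hv, j, rfl⟩ := iha
        obtain ⟨w, hw, k, rfl⟩ := ihb
        refine ⟨v * ((x ^ n) ^ j * w * ((x ^ n) ^ j)⁻¹),
          V.mul_mem hv ((Subgroup.mem_normalizer_iff.1 (hyp j) w).1 hw), j + k, ?_⟩
        rw [zpow_add]; group
      | inv a _ iha =>
        obtain ⟨v, hv, j, rfl⟩ := iha
        refine ⟨(x ^ n) ^ (-j) * v⁻¹ * ((x ^ n) ^ (-j))⁻¹,
          (Subgroup.mem_normalizer_iff.1 (hyp (-j)) _).1 (V.inv_mem hv), -j, ?_⟩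
        rw [mul_inv_rev, zpow_neg]; group
    have h6 : ⁅K0, K0⁆ ≤ V := by
      rw [Subgroup.commutator_le]
      intro a ha b hb
      obtain ⟨v, hv, j, rfl⟩ := hK0 a ha
      obtain ⟨w, hw, k, rfl⟩ := hK0 b hb
      have h7 : ⁅v * (x ^ n) ^ j, w * (x ^ n) ^ k⁆ = v * ((x ^ n) ^ j * w * ((x ^ n) ^ j)⁻¹) *
          ((x ^ n) ^ k * v⁻¹ * ((x ^ n) ^ k)⁻¹) * w⁻¹ := by
        have h8 : (x ^ n) ^ k * ((x ^ n) ^ j)⁻¹ = ((x ^ n) ^ j)⁻¹ * (x ^ n) ^ k := by
          rw [← zpow_neg, ← zpow_add, ← zpow_add, add_comm]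
        rw [commutatorElement_def]
        calc v * (x ^ n) ^ j * (w * (x ^ n) ^ k) * (v * (x ^ n) ^ j)⁻¹ * (w * (x ^ n) ^ k)⁻¹
            = v * ((x ^ n) ^ j * w) * ((x ^ n) ^ k * ((x ^ n) ^ j)⁻¹) * v⁻¹ *
              ((x ^ n) ^ k)⁻¹ * w⁻¹ := by
              simp only [mul_inv_rev, mul_assoc]
          _ = v * ((x ^ n) ^ j * w) * (((x ^ n) ^ j)⁻¹ * (x ^ n) ^ k) * v⁻¹ *
              ((x ^ n) ^ k)⁻¹ * w⁻¹ := by rw [h8]
          _ = _ := by simp only [mul_assoc]
      rw [h7]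
      exact V.mul_mem (V.mul_mem (V.mul_mem hv ((Subgroup.mem_normalizer_iff.1 (hyp j) w).1 hw))
        ((Subgroup.mem_normalizer_iff.1 (hyp k) _).1 (V.inv_mem hv))) (V.inv_mem hw)
    have h7 : ⁅u, x⁆ ^ m ∈ V := by
      apply h6
      have h8 : H.subtype (⁅(⟨u, huH⟩ : H), ⟨x, hxH⟩⁆ ^ m) ∈ (gam K 1).map H.subtype :=
        ⟨_, h5, rfl⟩
      rw [map_gam] at h8
      have h9 := gam_mono (Subgroup.map_le_iff_le_comap.2 le_rfl : K.map H.subtype ≤ K0) 1 h8
      exact h9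
    have h8 : ⁅u, x⁆ ∈ V := (RC_hull U).isolated hm h7
    have h9 : x * u⁻¹ * x⁻¹ ∈ V := by
      have h10 : x * u⁻¹ * x⁻¹ = u⁻¹ * ⁅u, x⁆ := by
        rw [commutatorElement_def]; group
      rw [h10]
      exact V.mul_mem (V.inv_mem hu) h8
    have h10 := V.inv_mem h9
    have h11 : (x * u⁻¹ * x⁻¹)⁻¹ = x * u * x⁻¹ := by group
    rwa [h11] at h10
  intro x hx
  obtain ⟨n, hn, h1⟩ := pow_mem_of_hull hc L x hx
  rw [Subgroup.mem_normalizer_iff]
  intro h
  refine ⟨key x n hn (hL h1) h, fun h2 => ?_⟩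
  have h3 := key x⁻¹ n hn (by rw [inv_pow]; exact Subgroup.inv_mem _ (hL h1)) _ h2
  have h4 : x⁻¹ * (x * h * x⁻¹) * x⁻¹⁻¹ = h := by group
  rwa [h4] at h3

end Hull

end CRO
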