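import Pool.Agent.CRO.Reduction
import Pool.Agent.CRO.NilPow

/-!
In a bi-orderable group all of whose right orders are Conrad, every soluble subgroup is locally
nilpotent.
-/

open scoped commutatorElement

namespace CRO

universe u

lemma commute_of_gam_one {G : Type u} [Group G] {S : Subgroup G} (h : gam S 1 = ⊥) :
    ∀ x ∈ S, ∀ y ∈ S, Commute x y := by
  intro x hx y hy
  have h1 : ⁅x, y⁆ ∈ gam S 1 := Subgroup.commutator_mem_commutator hx hy
  rw [h, Subgroup.mem_bot, commutatorElement_eq_one_iff_commute] at h1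
  exact h1

theorem nilpotent_of_derived : ∀ (d : ℕ) (G : Type u) [Group G], BO G → AC G →
    ∀ S : Subgroup G, (∃ X : Set G, X.Finite ∧ Subgroup.closure X = S) →
    derivedSeries S d = ⊥ → ∃ n, gam S n = ⊥ := by
  intro d
  induction d with
  | zero =>
    intro G _ _ _ S _ hd
    refine ⟨0, ?_⟩
    rw [gam_zero, eq_bot_iff]
    intro x hx
    have h1 : (⟨x, hx⟩ : S) ∈ derivedSeries S 0 := Subgroup.mem_top _
    rw [hd, Subgroup.mem_bot] at h1
    exact Subgroup.mem_bot.2 (congrArg Subtype.val h1)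
  | succ d ih =>
    rintro G _ hB hA S ⟨X, hX, rfl⟩ hd
    by_contra hcon
    push Not at hcon
    obtain ⟨H, _, φ, E, hBH, hAH, hhull, hE, hEbot, hEnil, hne⟩ := reduction hB hA hX hcon
    have hEn : ∀ n, (E n).Normal := fun n => (hE n).1
    have hBE : ∀ n, BO (H ⧸ E n) := fun n => (hE n).2
    let N : Subgroup (Subgroup.closure X) := derivedSeries (Subgroup.closure X) d
    have hNab : ⁅N, N⁆ = ⊥ := hd
    let N1 : Subgroup H := N.map φ
    have hN1ab : gam N1 1 = ⊥ := by
      change ⁅N1, N1⁆ = ⊥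
      rw [← Subgroup.map_commutator, hNab, Subgroup.map_bot]
    -- the quotients
    let ψ : ∀ n, H →* H ⧸ E n := fun n => QuotientGroup.mk' (E n)
    have hψs : ∀ n, Function.Surjective (ψ n) := fun n => QuotientGroup.mk'_surjective _
    have hAE : ∀ n, AC (H ⧸ E n) := fun n => hAH.quotient hBH.rc_bot (E n)
    have hnil : ∀ n, ∃ m, gam (⊤ : Subgroup (H ⧸ E n)) m = ⊥ := by
      intro n
      obtain ⟨m, hm⟩ := hEnil n
      refine ⟨m, ?_⟩
      rw [← Subgroup.map_top_of_surjective _ (hψs n), ← map_gam, eq_bot_iff,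
        Subgroup.map_le_iff_le_comap]
      intro g hg
      rw [Subgroup.mem_comap, Subgroup.mem_bot, ← MonoidHom.mem_ker, QuotientGroup.ker_mk']
      exact hm hg
    let A : ∀ n, Subgroup (H ⧸ E n) := fun n => hull (N1.map (ψ n))
    have hAcomm : ∀ n, ∀ x ∈ A n, ∀ y ∈ A n, Commute x y := by
      intro n
      apply commute_of_gam_one
      apply gam_hull 1 _ (hBE n) (hAE n)
      rw [← map_gam, hN1ab, Subgroup.map_bot]
    have hLhull : ∀ n, hull (φ.range.map (ψ n)) = ⊤ := by
      intro n
      have h1 := hull_comap_le (ψ n) φ.range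
      rw [hhull] at h1
      rw [eq_top_iff]
      intro x _
      obtain ⟨y, rfl⟩ := hψs n x
      exact h1 (Subgroup.mem_top y)
    have hAn : ∀ n, (A n).Normal := by
      intro n
      obtain ⟨m, hm⟩ := hnil n
      have h1 : φ.range.map (ψ n) ≤ Subgroup.normalizer (N1.map (ψ n)) := by
        rintro _ ⟨_, ⟨l, rfl⟩, rfl⟩
        rw [Subgroup.mem_normalizer_iff]
        have h2 : ∀ l : Subgroup.closure X, ∀ x ∈ N1.map (ψ n), ψ n (φ l) * x * (ψ n (φ l))⁻¹ ∈ N1.map (ψ n) := by
          rintro l _ ⟨_, ⟨x, hx, rfl⟩, rfl⟩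
          refine ⟨φ (l * x * l⁻¹), ⟨l * x * l⁻¹, ?_, rfl⟩, by simp⟩
          exact (inferInstance : (derivedSeries (Subgroup.closure X) d).Normal).conj_mem x hx l
        intro h
        refine ⟨h2 l h, fun h3 => ?_⟩
        have h4 := h2 l⁻¹ _ h3
        have h5 : ψ n (φ l⁻¹) * (ψ n (φ l) * h * (ψ n (φ l))⁻¹) * (ψ n (φ l⁻¹))⁻¹ = h := by
          rw [map_inv, map_inv]
          group
        rwa [h5] at h4
      have h2 := hull_normalizes hm _ _ h1
      rw [hLhull] at h2
      exact Subgroup.normalizer_eq_top_iff.1 (top_le_iff.1 h2)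
    have hBA : ∀ n, BO ((H ⧸ E n) ⧸ A n) := by
      intro n
      obtain ⟨m, hm⟩ := hnil n
      refine BO_of_nilpotent m _ ?_ ?_
      · rw [← Subgroup.map_top_of_surjective _ (QuotientGroup.mk'_surjective (A n)), ← map_gam,
          hm, Subgroup.map_bot]
      · intro x k hk hx
        obtain ⟨y, rfl⟩ := QuotientGroup.mk'_surjective (A n) x
        rw [← map_pow, ← MonoidHom.mem_ker, QuotientGroup.ker_mk'] at hx
        rw [← MonoidHom.mem_ker, QuotientGroup.ker_mk']
        exact (RC_hull _).isolated hk hx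
    let A' : ℕ → Subgroup H := fun n => ((QuotientGroup.mk' (A n)).comp (ψ n)).ker
    have hA'mem : ∀ n x, x ∈ A' n ↔ ψ n x ∈ A n := by
      intro n x
      have h1 : x ∈ A' n ↔ QuotientGroup.mk' (A n) (ψ n x) = 1 := Iff.rfl
      rw [h1, ← MonoidHom.mem_ker, QuotientGroup.ker_mk']
    have hA'n : ∀ n, (A' n).Normal := fun n => inferInstance
    let B : Subgroup H := ⨅ n, A' n
    have hBn : B.Normal := Subgroup.normal_iInf_normal hA'n
    have hBB : BO (H ⧸ B) := BO_iInf A' (fun n => BO.ker_quotient _ (hBA n))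
    have hBab : Ab B := by
      refine ⟨fun x hx y hy => ?_⟩
      have h1 : ⁅x, y⁆ ∈ (⨅ n, E n : Subgroup H) := by
        rw [Subgroup.mem_iInf]
        intro n
        rw [Subgroup.mem_iInf] at hx hy
        have h2 := hAcomm n _ ((hA'mem n x).1 (hx n)) _ ((hA'mem n y).1 (hy n))
        rw [← commutatorElement_eq_one_iff_commute, ← map_commutatorElement,
          ← MonoidHom.mem_ker, QuotientGroup.ker_mk'] at h2
        exact h2
      rw [hEbot, Subgroup.mem_bot, commutatorElement_eq_one_iff_commute] at h1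
      exact h1
    have hN1B : N1 ≤ B := by
      intro x hx
      rw [Subgroup.mem_iInf]
      intro n
      rw [hA'mem]
      exact le_hull _ ⟨x, hx, rfl⟩
    -- the image of `L`
    let X1 : Set (Subgroup.closure X) := (↑) ⁻¹' X
    have hX1 : X1.Finite := hX.preimage Subtype.val_injective.injOn
    have hX1c : Subgroup.closure X1 = ⊤ := Subgroup.closure_closure_coe_preimage
    have hφr : φ.range = Subgroup.closure (φ '' X1) := by
      rw [← MonoidHom.map_closure, hX1c, MonoidHom.range_eq_map]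
    let θ : Subgroup.closure X →* H ⧸ B := (QuotientGroup.mk' B).comp φ
    have hθr : Subgroup.closure (θ '' X1) = θ.range := by
      rw [← MonoidHom.map_closure, hX1c, MonoidHom.range_eq_map]
    have hθd : derivedSeries θ.range d = ⊥ := by
      rw [← map_derivedSeries_eq θ.rangeRestrict_surjective, eq_bot_iff,
        Subgroup.map_le_iff_le_comap]
      intro x hx
      rw [Subgroup.mem_comap, Subgroup.mem_bot]
      apply Subtype.ext
      change QuotientGroup.mk' B (φ x) = 1
      rw [← MonoidHom.mem_ker, QuotientGroup.ker_mk']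
      exact hN1B ⟨x, hx, rfl⟩
    obtain ⟨c, hc⟩ := ih (H ⧸ B) hBB (hAH.quotient hBH.rc_bot B) θ.range
      ⟨_, hX1.image θ, hθr⟩ hθd
    have hcB : gam φ.range c ≤ B := by
      intro x hx
      have h1 : QuotientGroup.mk' B x ∈ gam θ.range c := by
        have h2 : θ.range = φ.range.map (QuotientGroup.mk' B) := MonoidHom.range_comp _ _
        rw [h2, ← map_gam]
        exact ⟨x, hx, rfl⟩
      rw [hc, Subgroup.mem_bot, ← MonoidHom.mem_ker, QuotientGroup.ker_mk'] at h1
      exact h1
    rw [hφr] at hcB hne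
    obtain ⟨m, hm⟩ := exists_gam_eq_bot (A := B) (hX1.image φ) hcB (by
      intro b _ v
      by_contra h
      push Not at h
      refine unipotent_of_AC hBH hAH hBB b⁻¹ v ?_
      simpa using h)
    exact hne m hm

end CRO
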