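import Pool.Agent.CRO.Residual

/-!
The main construction: if `H` is bi-orderable, all right orders on `H` are Conrad, `A` is an abelian
normal subgroup with `H / A` bi-orderable, then every element acts locally unipotently on `A`.
-/

open scoped commutatorElement
open Polynomial

namespace CRO

universe u

lemma lc_add_pos {p q : ℤ[X]} (hp : 0 < p.leadingCoeff) (hq : 0 < q.leadingCoeff) :
    0 < (p + q).leadingCoeff := by
  rcases lt_trichotomy p.degree q.degree with h | h | h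
  · rw [leadingCoeff_add_of_degree_lt h]
    exact hq
  · rw [leadingCoeff_add_of_degree_eq h (by omega)]
    omega
  · rw [leadingCoeff_add_of_degree_lt' h]
    exact hp

section central

variable {H : Type u} [Group H] [LinearOrder H] [MulLeftStrictMono H] [MulRightStrictMono H]
  (hc : Cen H) {A : Subgroup H} [hn : A.Normal] [hab : Ab A]

include hc in
lemma eq_zero_of_aeval (τ : H) (y : Additive A) (s : ℤ[X]) (hs : s.eval 1 ≠ 0)
    (h : (aeval (cEnd A τ) s : Module.End ℤ (Additive A)) y = 0) : y = 0 := by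
  by_contra hy
  have hy1 : val y ≠ 1 := fun h1 => hy (val_inj (by rw [h1, val_zero]))
  obtain ⟨t, ht, hty⟩ : ∃ t : H, 1 < t ∧ (t = val y ∨ t = (val y)⁻¹) := by
    rcases lt_or_gt_of_ne hy1 with h | h
    · exact ⟨(val y)⁻¹, by
        have := conj_lt_conj h (val y)⁻¹
        by_contra hcon
        rw [not_lt] at hcon
        have h2 := mul_le_mul_of_le hcon h.le
        simp at h2
        have h3 : (val y)⁻¹ * val y < (val y)⁻¹ * 1 := mul_lt_mul_right h _
        simp only [inv_mul_cancel, mul_one] at h3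
        exact absurd hcon (not_le.2 h3), Or.inr rfl⟩
    · exact ⟨val y, h, Or.inl rfl⟩
  have hconv := isConv_lo t ht
  have hnorm := hconv.normal hc
  let U : AddSubgroup (Additive A) :=
    { carrier := {x | val x ∈ lo t ht}
      add_mem' := fun {a b} ha hb => (lo t ht).mul_mem ha hb
      zero_mem' := (lo t ht).one_mem
      neg_mem' := fun {a} ha => (lo t ht).inv_mem ha }
  have memU : ∀ x : Additive A, x ∈ U ↔ val x ∈ lo t ht := fun x => Iff.rfl
  have h1 : ∀ g : H, cEnd A g y - y ∈ U := by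
    intro g
    rw [memU, val_cEnd_sub]
    have h2 := comm_mem_lo hc ht g⁻¹
    rcases hty with h3 | h3
    · rw [← h3]
      have h4 := hnorm.conj_mem _ h2 t
      convert h4 using 1
      rw [commutatorElement_def]; group
    · have h5 : val y = t⁻¹ := by rw [h3, inv_inv]
      rw [h5]
      have h4 := (lo t ht).inv_mem h2
      convert h4 using 1
      rw [commutatorElement_def]; group
  have h2 : ∀ s : ℤ[X], (aeval (cEnd A τ) s : Module.End ℤ (Additive A)) y - (s.eval 1) • y ∈ U := by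
    intro s
    induction s using Polynomial.induction_on' with
    | add p q hp hq =>
      have : (aeval (cEnd A τ) (p + q) : Module.End ℤ (Additive A)) y - ((p + q).eval 1) • y =
          ((aeval (cEnd A τ) p : Module.End ℤ (Additive A)) y - (p.eval 1) • y) +
          ((aeval (cEnd A τ) q : Module.End ℤ (Additive A)) y - (q.eval 1) • y) := by
        rw [map_add, LinearMap.add_apply, eval_add, add_smul]
        abel
      rw [this]
      exact U.add_mem hp hq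
    | monomial n a =>
      have : (aeval (cEnd A τ) (monomial n a) : Module.End ℤ (Additive A)) y -
          ((monomial n a).eval 1) • y = a • (cEnd A (τ ^ n) y - y) := by
        rw [aeval_monomial, eval_monomial, one_pow, mul_one, smul_sub, Module.End.mul_apply,
          ← map_pow, Module.algebraMap_end_apply]
      rw [this]
      exact U.zsmul_mem (h1 _) a
  have h3 := h2 s
  rw [h, zero_sub, U.neg_mem_iff, memU, val_zsmul] at h3
  have h4 : t ^ (s.eval 1).natAbs ∈ lo t ht := by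
    have h5 : t ^ (s.eval 1) ∈ lo t ht := by
      rcases hty with h6 | h6
      · rw [h6.symm] at h3
        exact h3
      · have h7 : val y = t⁻¹ := by rw [h6, inv_inv]
        rw [h7, inv_zpow] at h3
        simpa using h3
    rcases Int.natAbs_eq (s.eval 1) with h6 | h6
    · rw [h6, zpow_natCast] at h5
      exact h5
    · rw [h6, zpow_neg, zpow_natCast] at h5
      simpa using h5
  have h5 : t ≤ t ^ (s.eval 1).natAbs := by
    have h6 : 1 ≤ (s.eval 1).natAbs := by omega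
    have := pow_le_pow_exp ht.le h6
    simpa using this
  exact self_notMem_lo t ht (hconv _ h4 t ht.le h5)

include hc in
lemma unip_of_aeval (τ : H) (x : Additive A) (p : ℤ[X]) (hp : p ≠ 0)
    (h : (aeval (cEnd A τ) p : Module.End ℤ (Additive A)) x = 0) :
    ∃ m : ℕ, ((cEnd A τ - 1) ^ m) x = 0 := by
  obtain ⟨q, hq, hq'⟩ := exists_eq_pow_rootMultiplicity_mul_and_not_dvd p hp 1
  set m := p.rootMultiplicity 1
  refine ⟨m, ?_⟩
  refine eq_zero_of_aeval hc τ _ q ?_ ?_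
  · rwa [dvd_iff_isRoot] at hq'
  · rw [hq, mul_comm, map_mul, Module.End.mul_apply, map_pow, map_sub, aeval_X] at h
    simpa using h

end central

section main

variable {H : Type u} [Group H] {A : Subgroup H} [hn : A.Normal] [hab : Ab A]

lemma cEnd_eq_of_mk {x y : H} (h : QuotientGroup.mk' A x = QuotientGroup.mk' A y) :
    cEnd A x = cEnd A y := by
  have h1 : x⁻¹ * y ∈ A := QuotientGroup.eq.1 h
  have h2 := cEnd_of_mem h1
  rw [map_mul] at h2
  calc cEnd A x = cEnd A x * 1 := by rw [mul_one]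
    _ = cEnd A x * (cEnd A x⁻¹ * cEnd A y) := by rw [h2]
    _ = cEnd A y := by rw [← mul_assoc, ← map_mul, mul_inv_cancel, map_one, one_mul]

theorem unipotent_of_AC (hB : BO H) (hA : AC H) (hBA : BO (H ⧸ A)) (b : H) (a0 : Additive A)
    (ha0 : ∀ n : ℕ, ((cEnd A b⁻¹ - 1) ^ n) a0 ≠ 0) : False := by
  obtain ⟨_, hl, hr⟩ := hB.exists_order
  have hc : Cen H := cen_of_AC hA
  set ρ := cEnd A with hρ
  let π := QuotientGroup.mk' A
  set B := ρ b⁻¹ with hBdef
  -- `b` is non trivial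
  have hb1 : π b⁻¹ ≠ 1 := by
    intro h
    have h1 : b⁻¹ ∈ A := by
      rw [← MonoidHom.mem_ker, QuotientGroup.ker_mk'] at h
      exact h
    apply ha0 1
    rw [hBdef, hρ, cEnd_of_mem h1]
    simp
  let M : Subgroup H := (isoEl hBA (π b⁻¹)).comap π
  have hMRC : RC M := (RC_isoEl hBA _).comap π
  let I : H → Prop := fun τ => ∃ n : ℕ, n ≠ 0 ∧ π τ ^ n = π b⁻¹
  have hIb : I b⁻¹ := ⟨1, one_ne_zero, by simp⟩
  have hI1 : ∀ τ, I τ → π τ ≠ 1 := by
    rintro τ ⟨n, hn, hτ⟩ h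
    rw [h, one_pow] at hτ
    exact hb1 hτ.symm
  have hIM : ∀ τ, I τ → τ ∈ M := by
    rintro τ ⟨n, hn, hτ⟩
    exact ⟨n, hn, 1, by rw [hτ, zpow_one]⟩
  have hcommon : ∀ τ₁, I τ₁ → ∀ h ∈ M, ∃ τ, I τ ∧ ∃ e : ℕ, e ≠ 0 ∧ ∃ j : ℤ,
      π τ ^ e = π τ₁ ∧ π τ ^ j = π h := by
    rintro τ₁ ⟨n, hn, hτ₁⟩ h ⟨k, hk, j, hj⟩
    have h1 : π h ^ k = π τ₁ ^ ((n : ℤ) * j) := by
      rw [zpow_mul, zpow_natCast, hτ₁]
      exact hj
    obtain ⟨τ, e, he, j', h2, h3⟩ := hBA.common_root hk h1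
    obtain ⟨τ, rfl⟩ := QuotientGroup.mk'_surjective A τ
    refine ⟨τ, ⟨e * n, Nat.mul_ne_zero he hn, ?_⟩, e, he, j', h2, h3⟩
    rw [pow_mul]
    change (QuotientGroup.mk' A τ ^ e) ^ n = _
    rw [h2]
    exact hτ₁
  have hpos : ∀ τ τ₂, I τ → I τ₂ → ∀ j : ℤ, π τ ^ j = π τ₂ → 0 < j := by
    rintro τ τ₂ hτI ⟨n₂, hn₂, hτ₂⟩ j hj
    obtain ⟨n, hn, hτ⟩ := hτI
    have h1 : π τ ^ (j * n₂) = π τ ^ (n : ℤ) := by
      rw [zpow_mul, hj, zpow_natCast, zpow_natCast, hτ₂, hτ]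
    have h2 := hBA.zpow_inj (hI1 τ ⟨n, hn, hτ⟩) h1
    have h3 : (0 : ℤ) < n := by positivity
    have h4 : (0 : ℤ) < n₂ := by positivity
    by_contra hcon
    rw [not_lt] at hcon
    have := mul_nonpos_of_nonpos_of_nonneg hcon h4.le
    omega
  have hρpow : ∀ (τ h : H) (e : ℕ), π τ ^ e = π h → ρ h = ρ τ ^ e := by
    intro τ h e he
    rw [← map_pow]
    refine cEnd_eq_of_mk ?_
    rw [map_pow]
    exact he.symm
  -- the torsion subgroup
  have hBcomm : ∀ h ∈ M, ρ h * B = B * ρ h := by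
    rintro h ⟨k, hk, j, hj⟩
    have h1 : Commute (π h) (π b⁻¹) := by
      refine hBA.commute_of_pow hk ?_
      have h2 : (π h) ^ k = π b⁻¹ ^ j := hj
      rw [h2]
      exact (Commute.refl _).zpow_left j
    rw [hBdef, ← map_mul, ← map_mul]
    refine cEnd_eq_of_mk ?_
    rw [map_mul, map_mul]
    exact h1
  have hBcomm' : ∀ h ∈ M, ∀ n : ℕ, ρ h * (B - 1) ^ n = (B - 1) ^ n * ρ h := by
    intro h hh n
    have h1 : Commute (ρ h) (B - 1) := by
      have : Commute (ρ h) B := hBcomm h hh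
      exact this.sub_right (Commute.one_right _)
    exact (h1.pow_right n).eq
  let Tor : AddSubgroup (Additive A) :=
    { carrier := {x | ∃ n : ℕ, ((B - 1) ^ n) x = 0}
      add_mem' := by
        rintro x y ⟨n, hx⟩ ⟨m, hy⟩
        refine ⟨n + m, ?_⟩
        rw [map_add, pow_add, Module.End.mul_apply, Module.End.mul_apply, hy, map_zero, add_zero,
          ← Module.End.mul_apply, ← pow_add, add_comm, pow_add, Module.End.mul_apply, hx, map_zero]
      zero_mem' := ⟨0, by simp⟩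
      neg_mem' := by
        rintro x ⟨n, hx⟩
        exact ⟨n, by rw [map_neg, hx, neg_zero]⟩ }
  have memTor : ∀ x, x ∈ Tor ↔ ∃ n : ℕ, ((B - 1) ^ n) x = 0 := fun _ => Iff.rfl
  have hTorM : ∀ h ∈ M, ∀ x ∈ Tor, ρ h x ∈ Tor := by
    rintro h hh x ⟨n, hx⟩
    refine ⟨n, ?_⟩
    rw [← Module.End.mul_apply, ← hBcomm' h hh, Module.End.mul_apply, hx, map_zero]
  have hTorM' : ∀ h ∈ M, ∀ x, ρ h x ∈ Tor → x ∈ Tor := by
    intro h hh x hx
    have h1 := hTorM h⁻¹ (M.inv_mem hh) _ hx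
    rw [← Module.End.mul_apply, ← map_mul, inv_mul_cancel, map_one, Module.End.one_apply] at h1
    exact h1
  -- torsion-freeness
  have htf : ∀ τ, I τ → ∀ p : ℤ[X], p ≠ 0 → ∀ x,
      (aeval (ρ τ) p : Module.End ℤ (Additive A)) x ∈ Tor → x ∈ Tor := by
    rintro τ ⟨e, he, hτ⟩ p hp x ⟨n, hx⟩
    have hB' : B = ρ τ ^ e := hρpow τ b⁻¹ e hτ
    have h1 : (aeval (ρ τ) ((X ^ e - 1) ^ n * p) : Module.End ℤ (Additive A)) x = 0 := by
      rw [map_mul, Module.End.mul_apply, map_pow, map_sub, map_pow, aeval_X, map_one, ← hB']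
      exact hx
    have h2 : (X ^ e - 1 : ℤ[X]) ≠ 0 := by
      have := X_pow_sub_C_ne_zero (R := ℤ) (Nat.pos_of_ne_zero he) 1
      simpa using this
    obtain ⟨m, hm⟩ := unip_of_aeval hc τ x _ (mul_ne_zero (pow_ne_zero n h2) hp) h1
    refine ⟨m, ?_⟩
    obtain ⟨r, hr⟩ : (X - 1 : ℤ[X]) ∣ X ^ e - 1 := by
      have := sub_dvd_pow_sub_pow (X : ℤ[X]) 1 e
      simpa using this
    have h3 : (B - 1 : Module.End ℤ (Additive A)) = aeval (ρ τ) r * (ρ τ - 1) := by
      have h4 : (aeval (ρ τ) (X ^ e - 1 : ℤ[X]) : Module.End ℤ (Additive A)) = B - 1 := by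
        rw [map_sub, map_pow, aeval_X, map_one, hB']
      rw [← h4, hr, mul_comm, map_mul, map_sub, aeval_X, map_one]
    have h5 : Commute (aeval (ρ τ) r : Module.End ℤ (Additive A)) (ρ τ - 1) := by
      have h6 : (ρ τ - 1 : Module.End ℤ (Additive A)) = aeval (ρ τ) (X - 1 : ℤ[X]) := by
        rw [map_sub, aeval_X, map_one]
      rw [h6]
      exact Commute.map (Commute.all r (X - 1)) (aeval (ρ τ))
    rw [h3, h5.mul_pow, Module.End.mul_apply]
    have h7 : ((ρ τ - 1) ^ m) x = 0 := hm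
    rw [h7, map_zero]
  -- the positive operators
  let S : Set (Module.End ℤ (Additive A)) := {φ | ∃ τ, I τ ∧ ∃ p : ℤ[X], 0 < p.leadingCoeff ∧
    ∃ k : ℕ, φ * ρ τ ^ k = aeval (ρ τ) p}
  have hrefine : ∀ φ : Module.End ℤ (Additive A), ∀ τ τ' : H, ∀ e : ℕ, e ≠ 0 →
      ρ τ' = ρ τ ^ e → ∀ p : ℤ[X], 0 < p.leadingCoeff → ∀ k : ℕ, φ * ρ τ' ^ k = aeval (ρ τ') p →
      ∃ q : ℤ[X], 0 < q.leadingCoeff ∧ φ * ρ τ ^ (e * k) = aeval (ρ τ) q := by
    intro φ τ τ' e he hτ p hp k hφ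
    refine ⟨expand ℤ e p, ?_, ?_⟩
    · rw [leadingCoeff_expand (Nat.pos_of_ne_zero he)]
      exact hp
    · rw [expand_aeval, ← hτ, pow_mul, ← hτ]
      exact hφ
  have hpair : ∀ φ ∈ S, ∀ ψ ∈ S, ∃ τ, I τ ∧ ∃ p q : ℤ[X], 0 < p.leadingCoeff ∧
      0 < q.leadingCoeff ∧ ∃ k l : ℕ, φ * ρ τ ^ k = aeval (ρ τ) p ∧
      ψ * ρ τ ^ l = aeval (ρ τ) q := by
    rintro φ ⟨τ₁, hτ₁, p, hp, k, hφ⟩ ψ ⟨τ₂, hτ₂, q, hq, l, hψ⟩
    obtain ⟨τ, hτ, e, he, j, h1, h2⟩ := hcommon τ₁ hτ₁ τ₂ (hIM _ hτ₂)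
    have hj := hpos τ τ₂ hτ hτ₂ j h2
    obtain ⟨j, rfl⟩ := Int.eq_ofNat_of_zero_le hj.le
    have hj0 : j ≠ 0 := by
      rintro rfl
      simp at hj
    rw [zpow_natCast] at h2
    obtain ⟨p', hp', hφ'⟩ := hrefine φ τ τ₁ e he (hρpow _ _ _ h1) p hp k hφ
    obtain ⟨q', hq', hψ'⟩ := hrefine ψ τ τ₂ j hj0 (hρpow _ _ _ h2) q hq l hψ
    exact ⟨τ, hτ, p', q', hp', hq', _, _, hφ', hψ'⟩
  have hunit : ∀ (τ : H) (k : ℕ), ρ τ ^ k * ρ τ⁻¹ ^ k = 1 := by
    intro τ k
    rw [← map_pow, ← map_pow, ← map_mul, inv_pow, mul_inv_cancel, map_one]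
  have hunit' : ∀ (τ : H) (k : ℕ), ρ τ⁻¹ ^ k * ρ τ ^ k = 1 := by
    intro τ k
    rw [← map_pow, ← map_pow, ← map_mul, inv_pow, inv_mul_cancel, map_one]
  have hcommpoly : ∀ (τ : H) (p : ℤ[X]) (k : ℕ),
      (aeval (ρ τ) p : Module.End ℤ (Additive A)) * ρ τ ^ k = ρ τ ^ k * aeval (ρ τ) p := by
    intro τ p k
    have h1 : (ρ τ ^ k : Module.End ℤ (Additive A)) = aeval (ρ τ) (X ^ k : ℤ[X]) := by
      rw [map_pow, aeval_X]
    rw [h1, ← map_mul, mul_comm, map_mul]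
  have hprod : ∀ (τ : H) (φ ψ : Module.End ℤ (Additive A)) (p q : ℤ[X]) (k l : ℕ),
      φ * ρ τ ^ k = aeval (ρ τ) p → ψ * ρ τ ^ l = aeval (ρ τ) q →
      (φ * ψ) * ρ τ ^ (l + k) = aeval (ρ τ) (p * q) := by
    intro τ φ ψ p q k l h1 h2
    rw [pow_add, mul_assoc, ← mul_assoc ψ, h2, hcommpoly, ← mul_assoc, h1, map_mul]
  have hS1 : ∀ φ ∈ S, ∀ ψ ∈ S, φ + ψ ∈ S := by
    intro φ hφ ψ hψ
    obtain ⟨τ, hτ, p, q, hp, hq, k, l, h1, h2⟩ := hpair φ hφ ψ hψ
    refine ⟨τ, hτ, p * X ^ l + q * X ^ k, ?_, k + l, ?_⟩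
    · refine lc_add_pos ?_ ?_
      · rw [leadingCoeff_mul, leadingCoeff_X_pow, mul_one]
        exact hp
      · rw [leadingCoeff_mul, leadingCoeff_X_pow, mul_one]
        exact hq
    · rw [add_mul, map_add, map_mul, map_mul, map_pow, map_pow, aeval_X, ← h1, ← h2, mul_assoc,
        mul_assoc, ← pow_add, ← pow_add, add_comm l k]
  have hS2 : ∀ φ ∈ S, ∀ ψ ∈ S, φ * ψ ∈ S := by
    intro φ hφ ψ hψ
    obtain ⟨τ, hτ, p, q, hp, hq, k, l, h1, h2⟩ := hpair φ hφ ψ hψ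
    refine ⟨τ, hτ, p * q, ?_, l + k, hprod τ φ ψ p q k l h1 h2⟩
    rw [leadingCoeff_mul]
    exact mul_pos hp hq
  have hS3 : ∀ φ ∈ S, ∀ ψ ∈ S, φ * ψ = ψ * φ := by
    intro φ hφ ψ hψ
    obtain ⟨τ, hτ, p, q, hp, hq, k, l, h1, h2⟩ := hpair φ hφ ψ hψ
    have h3 := hprod τ φ ψ p q k l h1 h2
    have h4 := hprod τ ψ φ q p l k h2 h1
    rw [mul_comm q p, ← h3, add_comm k l] at h4
    have h5 := congrArg (fun w => w * ρ τ⁻¹ ^ (l + k)) h4
    simp only [mul_assoc, hunit, mul_one] at h5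
    exact h5.symm
  have hstep : ∀ (τ : H) (k : ℕ) (x : Additive A), ∃ y, (ρ τ ^ k) y = x := by
    intro τ k x
    refine ⟨(ρ τ⁻¹ ^ k) x, ?_⟩
    rw [← Module.End.mul_apply, hunit, Module.End.one_apply]
  have hTorpow : ∀ τ, I τ → ∀ k : ℕ, ∀ x, (ρ τ ^ k) x ∈ Tor ↔ x ∈ Tor := by
    intro τ hτ k x
    rw [← map_pow]
    exact ⟨hTorM' _ (M.pow_mem (hIM _ hτ) k) x, hTorM _ (M.pow_mem (hIM _ hτ) k) x⟩
  have hS4 : ∀ φ ∈ S, ∀ x, φ x ∈ Tor → x ∈ Tor := by
    rintro φ ⟨τ, hτ, p, hp, k, h1⟩ x hx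
    obtain ⟨y, rfl⟩ := hstep τ k x
    rw [← Module.End.mul_apply, h1] at hx
    rw [hTorpow τ hτ]
    exact htf τ hτ p (by rintro rfl; simp at hp) y hx
  have hS5 : ∀ φ ∈ S, ∀ x ∈ Tor, φ x ∈ Tor := by
    rintro φ ⟨τ, hτ, p, hp, k, h1⟩ x hx
    obtain ⟨y, rfl⟩ := hstep τ k x
    rw [hTorpow τ hτ] at hx
    rw [← Module.End.mul_apply, h1]
    clear h1 hp
    induction p using Polynomial.induction_on' with
    | add p q hp hq =>
      rw [map_add, LinearMap.add_apply]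
      exact Tor.add_mem hp hq
    | monomial n a =>
      rw [aeval_monomial, Module.End.mul_apply, Module.algebraMap_end_apply]
      exact Tor.zsmul_mem ((hTorpow τ hτ n y).2 hx) a
  have hSM : ∀ h ∈ M, ρ h ∈ S := by
    intro h hh
    obtain ⟨τ, hτ, e, he, j, h1, h2⟩ := hcommon b⁻¹ hIb h hh
    rcases Int.eq_nat_or_neg j with ⟨n, rfl | rfl⟩
    · rw [zpow_natCast] at h2
      refine ⟨τ, hτ, X ^ n, by simp, 0, ?_⟩
      rw [hρpow τ h n h2, pow_zero, mul_one, map_pow, aeval_X]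
    · refine ⟨τ, hτ, 1, by simp, n, ?_⟩
      have h3 : ρ h * ρ τ ^ n = 1 := by
        rw [← map_pow, ← map_mul]
        refine (cEnd_eq_of_mk (A := A) (y := 1) ?_).trans (map_one _)
        rw [map_mul, map_pow, map_one]
        have h4 : π h = (π τ ^ n)⁻¹ := by
          rw [← h2, zpow_neg, zpow_natCast]
        change π h * π τ ^ n = 1
        rw [h4, inv_mul_cancel]
      rw [h3, map_one]
  obtain ⟨Q, hQ, hQt⟩ := exists_total_cone Tor S ⟨B, hSM _ (hIM _ hIb)⟩ hS1 hS2 hS3 hS4 hS5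
  -- `B - 2` is positive
  have hB2 : ∀ x ∈ Q, B x - 2 • x ∈ Q := by
    intro x hx
    have h1 : (B - 2 : Module.End ℤ (Additive A)) ∈ S := by
      refine ⟨b⁻¹, hIb, X - C 2, ?_, 0, ?_⟩
      · rw [leadingCoeff_X_sub_C]; norm_num
      · rw [pow_zero, mul_one, map_sub, aeval_X, aeval_C, map_ofNat]
    have h2 := hQ.smul _ h1 _ hx
    rw [LinearMap.sub_apply] at h2
    have h3 : (2 : Module.End ℤ (Additive A)) x = 2 • x := by
      have : (2 : Module.End ℤ (Additive A)) = ((2 : ℕ) : Module.End ℤ (Additive A)) := by norm_num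
      rw [this]
      exact Module.End.natCast_apply 2 x
    rwa [h3] at h2
  -- the cocycle
  have hcA : ∀ h ∈ M, b⁻¹ * h⁻¹ * b * h ∈ A := by
    rintro h ⟨k, hk, j, hj⟩
    have h1 : Commute (π h) (π b⁻¹) := by
      refine hBA.commute_of_pow hk ?_
      have h2 : (π h) ^ k = π b⁻¹ ^ j := hj
      rw [h2]
      exact (Commute.refl _).zpow_left j
    have h2 : π (b⁻¹ * h⁻¹ * b * h) = 1 := by
      have h3 : π b⁻¹ * (π h)⁻¹ = (π h)⁻¹ * π b⁻¹ := (h1.inv_left).eq.symm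
      calc π (b⁻¹ * h⁻¹ * b * h) = π b⁻¹ * (π h)⁻¹ * (π b⁻¹)⁻¹ * π h := by
            simp only [map_mul, map_inv, inv_inv]
        _ = 1 := by rw [h3]; group
    rwa [← MonoidHom.mem_ker, QuotientGroup.ker_mk'] at h2
  let c : M → Additive A := fun h => el _ (hcA h.1 h.2)
  have hcval : ∀ h : M, val (c h) = b⁻¹ * h.1⁻¹ * b * h.1 := fun h => rfl
  have hcmul : ∀ h k : M, c (h * k) = c k + ρ k.1⁻¹ (c h) := by
    intro h k
    apply val_inj
    rw [val_add, val_cEnd, hcval, hcval, hcval, Subgroup.coe_mul]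
    group
  have hcone : c 1 = 0 := by
    apply val_inj
    rw [hcval, val_zero]
    simp
  have hcinv : ∀ h : M, c h⁻¹ = -(ρ h.1 (c h)) := by
    intro h
    have h1 := hcmul h h⁻¹
    rw [mul_inv_cancel, hcone, Subgroup.coe_inv, inv_inv] at h1
    exact eq_neg_of_add_eq_zero_left h1.symm
  -- the cone
  have hQM : ∀ h ∈ M, ∀ x ∈ Q, ρ h x ∈ Q := fun h hh x hx => hQ.smul _ (hSM h hh) _ hx
  let Sb : Subgroup M :=
    { carrier := {h | c h ∈ Tor}
      mul_mem' := by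
        intro h k hh hk
        change c (h * k) ∈ Tor
        rw [hcmul]
        exact Tor.add_mem hk (hTorM _ (M.inv_mem k.2) _ hh)
      one_mem' := by
        change c 1 ∈ Tor
        rw [hcone]
        exact Tor.zero_mem
      inv_mem' := by
        intro h hh
        change c h⁻¹ ∈ Tor
        rw [hcinv]
        exact Tor.neg_mem (hTorM _ h.2 _ hh) }
  have hQK : ∀ k ∈ Tor, ∀ x ∈ Q, k + x ∈ Q := by
    intro k hk x hx
    rw [add_comm]
    exact hQ.addK _ hx _ hk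
  have hSbcone : RCone Sb {h : M | c h ∈ Q} := by
    refine ⟨?_, ?_, ?_, ?_, ?_⟩
    · intro x hx y hy
      change c (x * y) ∈ Q
      rw [hcmul]
      exact hQ.add _ hy _ (hQM _ (M.inv_mem y.2) _ hx)
    · intro s hs x hx
      change c (s * x) ∈ Q
      rw [hcmul]
      exact hQ.addK _ hx _ (hTorM _ (M.inv_mem x.2) _ hs)
    · intro x hx s hs
      change c (x * s) ∈ Q
      rw [hcmul]
      exact hQK _ hs _ (hQM _ (M.inv_mem s.2) _ hx)
    · intro x hx hx'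
      exact hQ.disj _ hx hx'
    · intro x hx
      rcases hQt (c x) hx with h1 | h1
      · exact Or.inl h1
      · right
        change c x⁻¹ ∈ Q
        rw [hcinv, ← map_neg]
        exact hQM _ x.2 _ h1
  -- a right order on `M`
  have hbne : (b : H) ≠ 1 := by
    rintro rfl
    simp at hb1
  have hbM : b ∈ M := by simpa using M.inv_mem (hIM _ hIb)
  obtain ⟨P', hP', hbP'⟩ : ∃ P' : Set M, RCone (⊥ : Subgroup M) P' ∧ (⟨b, hbM⟩ : M) ∈ P' := by
    obtain ⟨P', hP'⟩ := (hB.subgroup M).rc_bot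
    rcases hP'.total ⟨b, hbM⟩ (by
      rw [Subgroup.mem_bot]
      intro h
      exact hbne (congrArg Subtype.val h)) with h | h
    · exact ⟨P', hP', h⟩
    · exact ⟨_, hP'.inv, h⟩
  have hR := hSbcone.combine' hP'
  have hAM := hA.subgroup hMRC
  -- the element `x`
  have hAleM : ∀ x ∈ A, x ∈ M := by
    intro x hx
    have h1 : π x = 1 := by
      rwa [← MonoidHom.mem_ker, QuotientGroup.ker_mk']
    change π x ∈ isoEl hBA (π b⁻¹)
    rw [h1]
    exact Subgroup.one_mem _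
  have ha0Tor : a0 ∉ Tor := by
    rintro ⟨n, h⟩
    exact ha0 n h
  have ha0Tor' : (B - 1) a0 ∉ Tor := by
    rintro ⟨n, h⟩
    rw [← Module.End.mul_apply, ← pow_succ] at h
    exact ha0 _ h
  obtain ⟨x, hx⟩ : ∃ x : Additive A, (B - 1) x ∈ Q := by
    rcases hQt _ ha0Tor' with h | h
    · exact ⟨a0, h⟩
    · exact ⟨-a0, by rwa [map_neg]⟩
  set v0 := (B - 1) x with hv0
  let f : M := ⟨b, hbM⟩
  let y : M := ⟨val x, hAleM _ (val_mem x)⟩
  let g : M := f⁻¹ * y⁻¹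
  have hcf : c f = 0 := by
    apply val_inj
    rw [hcval, val_zero]
    change b⁻¹ * b⁻¹ * b * b = 1
    group
  have hcg : c g = v0 := by
    apply val_inj
    rw [hcval, hv0, LinearMap.sub_apply, Module.End.one_apply, val_sub, hBdef, val_cEnd]
    change b⁻¹ * (b⁻¹ * (val x)⁻¹)⁻¹ * b * (b⁻¹ * (val x)⁻¹) = _
    group
  have hρg : ρ g.1⁻¹ = ρ b := by
    refine cEnd_eq_of_mk ?_
    change QuotientGroup.mk' A (b⁻¹ * (val x)⁻¹)⁻¹ = QuotientGroup.mk' A b
    have h1 : QuotientGroup.mk' A (val x) = 1 := by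
      rw [← MonoidHom.mem_ker, QuotientGroup.ker_mk']
      exact val_mem x
    rw [mul_inv_rev, inv_inv, inv_inv, map_mul, h1, one_mul]
  have hBb : B * ρ b = 1 := by
    rw [hBdef, ← map_mul, inv_mul_cancel, map_one]
  have hbB : ρ b * B = 1 := by
    rw [hBdef, ← map_mul, mul_inv_cancel, map_one]
  have hs : ∀ m : ℕ, 2 • v0 - c (g ^ (m + 1)) ∈ Q := by
    intro m
    induction m with
    | zero =>
      rw [zero_add, pow_one, hcg, two_nsmul, add_sub_cancel_right]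
      exact hx
    | succ m ih =>
      have h1 : c (g ^ (m + 1 + 1)) = v0 + ρ b (c (g ^ (m + 1))) := by
        rw [pow_succ, hcmul, hcg, hρg]
      have h2 : 2 • v0 - c (g ^ (m + 1 + 1)) =
          ρ b ((B v0 - 2 • v0) + (2 • v0 - c (g ^ (m + 1)))) := by
        rw [h1, sub_add_sub_cancel, map_sub, ← Module.End.mul_apply, hbB, Module.End.one_apply,
          two_nsmul]
        abel
      rw [h2]
      exact hQM _ hbM _ (hQ.add _ (hB2 _ hx) _ ih)
  refine hAM _ hR f g (Bad.mk' hR ?_ ?_ ?_)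
  · right
    refine ⟨?_, hbP'⟩
    change c f ∈ Tor
    rw [hcf]
    exact Tor.zero_mem
  · left
    change c (g * f⁻¹) ∈ Q
    rw [hcmul, hcinv, hcf, map_zero, neg_zero, zero_add, hcg]
    exact hQM _ (M.inv_mem (f⁻¹).2) _ hx
  · intro m hm
    left
    change c (g * f * (f * g ^ m)⁻¹) ∈ Q
    obtain ⟨m, rfl⟩ := Nat.exists_eq_succ_of_ne_zero hm.ne'
    have h1 : c (g * f) = B v0 := by
      rw [hcmul, hcf, zero_add, hcg]
    have h2 : c (f * g ^ (m + 1)) = c (g ^ (m + 1)) := by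
      rw [hcmul, hcf, map_zero, add_zero]
    have h3 : c (g * f * (f * g ^ (m + 1))⁻¹) =
        ρ (f * g ^ (m + 1) : M).1 ((B v0 - 2 • v0) + (2 • v0 - c (g ^ (m + 1)))) := by
      rw [hcmul, hcinv, h1, h2, Subgroup.coe_inv, inv_inv, sub_add_sub_cancel, map_sub]
      abel
    rw [Nat.succ_eq_add_one, h3]
    exact hQM _ (f * g ^ (m + 1) : M).2 _ (hQ.add _ (hB2 _ hx) _ (hs m))

end main

end CRO
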