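import Pool.Agent.CRO.Cone

/-!
Bi-ordered groups: centralisers are relatively convex, non central orders give non Conrad right
orders, convex subgroups.
-/

namespace CRO

universe u

section basic

variable {G : Type u} [Group G]

/-- the linear order given by a bi-invariant cone -/
@[instance_reducible]
noncomputable def BCone.order {P : Set G} (hP : BCone P) : LinearOrder G :=
  letI : DecidableRel fun a b : G => a = b ∨ b * a⁻¹ ∈ P := Classical.decRel _
  { le := fun a b => a = b ∨ b * a⁻¹ ∈ P
    le_refl := fun a => Or.inl rfl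
    le_trans := by
      rintro a b c (rfl | h1) (rfl | h2)
      · exact Or.inl rfl
      · exact Or.inr h2
      · exact Or.inr h1
      · right
        have := hP.mul _ h2 _ h1
        simpa using this
    le_antisymm := by
      rintro a b (rfl | h1) (h2 | h2)
      · rfl
      · rfl
      · exact h2.symm
      · exfalso
        have := hP.mul _ h2 _ h1
        simp at this
        exact hP.one this
    le_total := by
      intro a b
      by_cases h : a = b
      · exact Or.inl (Or.inl h)
      · have : b * a⁻¹ ≠ 1 := by
          rw [Ne, mul_inv_eq_one]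
          exact fun h' => h h'.symm
        rcases hP.total _ this with h1 | h1
        · exact Or.inl (Or.inr h1)
        · right; right
          simpa using h1
    toDecidableLE := inferInstance }

lemma BCone.order_lt {P : Set G} (hP : BCone P) {a b : G} :
    hP.order.lt a b ↔ b * a⁻¹ ∈ P := by
  let := hP.order
  change a < b ↔ _
  rw [lt_iff_le_and_ne]
  constructor
  · rintro ⟨h1 | h1, h2⟩
    · exact absurd h1 h2
    · exact h1
  · intro h
    refine ⟨Or.inr h, ?_⟩
    rintro rfl
    rw [mul_inv_cancel] at h
    exact hP.one h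

lemma BO.exists_order (h : BO G) : ∃ _ : LinearOrder G, MulLeftStrictMono G ∧ MulRightStrictMono G := by
  obtain ⟨P, hP⟩ := h
  refine ⟨hP.order, ⟨?_⟩, ⟨?_⟩⟩
  · intro c a b hab
    change hP.order.lt _ _
    rw [hP.order_lt]
    have h1 := hP.order_lt.1 hab
    have := hP.conj _ h1 c⁻¹
    change c * b * (c * a)⁻¹ ∈ P
    convert this using 1
    group
  · intro c a b hab
    change hP.order.lt _ _
    rw [hP.order_lt]
    have h1 := hP.order_lt.1 hab
    change b * c * (a * c)⁻¹ ∈ P
    convert h1 using 1
    group

end basic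

section order

variable {G : Type u} [Group G] [LinearOrder G] [MulLeftStrictMono G] [MulRightStrictMono G]

lemma conj_lt_conj {x y : G} (h : x < y) (g : G) : g⁻¹ * x * g < g⁻¹ * y * g :=
  mul_lt_mul_left (mul_lt_mul_right h g⁻¹) g

lemma conj_le_conj {x y : G} (h : x ≤ y) (g : G) : g⁻¹ * x * g ≤ g⁻¹ * y * g := by
  rcases h.eq_or_lt with h | h
  · rw [h]
  · exact (conj_lt_conj h g).le

variable (G) in
lemma bcone_pos : BCone {x : G | 1 < x} where
  mul := fun x hx y hy => by
    have h1 : x * 1 < x * y := mul_lt_mul_right hy x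
    rw [mul_one] at h1
    exact lt_trans hx h1
  conj := fun x hx g => by simpa using conj_lt_conj hx g
  one := lt_irrefl 1
  total := fun x hx => by
    rcases lt_or_gt_of_ne hx with h | h
    · right
      simpa using h
    · exact Or.inl h

variable (G) in
lemma rcone_pos : RCone (⊥ : Subgroup G) {x : G | 1 < x} := (bcone_pos G).rcone

variable (G) in
lemma bo_of_order : BO G := ⟨_, bcone_pos G⟩

/-- the stabiliser of `b` under conjugation is relatively convex -/
lemma rcone_centralizer (b : G) :
    RCone (Subgroup.centralizer {b}) {h : G | b < h⁻¹ * b * h} where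
  mul := by
    intro x hx y hy
    simp only [Set.mem_ofPred_eq] at *
    have := conj_lt_conj hx y
    refine hy.trans ?_
    convert this using 1
    group
  left := by
    intro c hc x hx
    simp only [Set.mem_ofPred_eq, Subgroup.mem_centralizer_singleton_iff] at *
    have : (c * x)⁻¹ * b * (c * x) = x⁻¹ * b * x := by
      rw [mul_inv_rev]
      have : c⁻¹ * b * c = b := by
        rw [mul_assoc, ← hc]; group
      calc x⁻¹ * c⁻¹ * b * (c * x) = x⁻¹ * (c⁻¹ * b * c) * x := by group
        _ = _ := by rw [this]
    rw [this]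
    exact hx
  right := by
    intro x hx c hc
    simp only [Set.mem_ofPred_eq, Subgroup.mem_centralizer_singleton_iff] at *
    have h1 : c⁻¹ * b * c = b := by
      rw [mul_assoc, ← hc]; group
    have := conj_lt_conj hx c
    rw [h1] at this
    convert this using 1
    group
  disj := by
    intro x hx hxC
    simp only [Set.mem_ofPred_eq, Subgroup.mem_centralizer_singleton_iff] at *
    have h1 : x⁻¹ * b * x = b := by
      rw [mul_assoc, ← hxC]; group
    rw [h1] at hx
    exact lt_irrefl _ hx
  total := by
    intro x hx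
    simp only [Set.mem_ofPred_eq, Subgroup.mem_centralizer_singleton_iff] at *
    rcases lt_trichotomy b (x⁻¹ * b * x) with h | h | h
    · exact Or.inl h
    · exfalso
      apply hx
      calc x * b = x * (x⁻¹ * b * x) := by rw [← h]
        _ = b * x := by group
    · right
      have := conj_lt_conj h x⁻¹
      convert this using 1
      group

lemma RC_centralizer_singleton (b : G) : RC (Subgroup.centralizer {b}) :=
  ⟨_, rcone_centralizer b⟩

lemma RC_centralizer (s : Set G) : RC (Subgroup.centralizer s) := by
  have : Subgroup.centralizer s = ⨅ b : s, Subgroup.centralizer {b.1} := by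
    ext x
    simp only [Subgroup.mem_iInf, Subgroup.mem_centralizer_iff, Set.mem_singleton_iff,
      forall_eq, Subtype.forall]
  rw [this]
  exact RC.iInf _ fun b => RC_centralizer_singleton _

variable (G) in
/-- the order is central -/
def Cen : Prop := ∀ x b : G, 1 < x → b⁻¹ * x * b < x ^ 2

/-- (1): if all right orders are Conrad, every bi-order is central -/
theorem cen_of_AC (h : AC G) : Cen G := by
  intro x b hx
  by_contra hcon
  rw [not_lt] at hcon
  -- `b ≠ 1`
  have hb : b ≠ 1 := by
    rintro rfl
    have : x ^ 2 ≤ x := by simpa using hcon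
    have h2 : x < x ^ 2 := by
      rw [pow_two]
      exact lt_mul_of_one_lt_right' x hx
    exact absurd h2 (not_lt.2 this)
  obtain ⟨P', hP', hbP'⟩ : ∃ P' : Set G, RCone (⊥ : Subgroup G) P' ∧ b ∈ P' := by
    rcases lt_or_gt_of_ne hb with h1 | h1
    · refine ⟨_, (rcone_pos G).inv, ?_⟩
      simpa using h1
    · exact ⟨_, rcone_pos G, h1⟩
  have hR := (rcone_centralizer b).combine' hP'
  set g : G := (x * b)⁻¹ with hg
  have hbg : g⁻¹ * b * g = x * b * x⁻¹ := by
    rw [hg]; group
  refine h _ hR b g (Bad.mk' hR ?_ ?_ ?_)
  · right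
    refine ⟨?_, hbP'⟩
    rw [Subgroup.mem_centralizer_singleton_iff]
  · left
    change b < (g * b⁻¹)⁻¹ * b * (g * b⁻¹)
    have h1 : (g * b⁻¹)⁻¹ * b * (g * b⁻¹) = b⁻¹⁻¹ * (x * b * x⁻¹) * b⁻¹ := by
      rw [← hbg]; group
    rw [h1]
    have h2 : b < x * b * x⁻¹ := by
      rw [lt_mul_inv_iff_mul_lt]
      -- b * x < x * b
      have h3 : x < b⁻¹ * x * b := by
        refine lt_of_lt_of_le ?_ hcon
        rw [pow_two]
        exact lt_mul_of_one_lt_right' x hx
      have h4 := mul_lt_mul_right h3 b
      convert h4 using 1
      group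
    have h3 := conj_lt_conj h2 b⁻¹
    convert h3 using 1
    group
  · intro m _
    left
    change b < (g * b * (b * g ^ m)⁻¹)⁻¹ * b * (g * b * (b * g ^ m)⁻¹)
    -- it suffices `b ^ (b g^m) < b ^ (g b)`
    have key : (b * g ^ m)⁻¹ * b * (b * g ^ m) < (g * b)⁻¹ * b * (g * b) := by
      have h1 : (b * g ^ m)⁻¹ * b * (b * g ^ m) = (g ^ m)⁻¹ * b * g ^ m := by group
      rw [h1]
      have h2 : b < x * b := lt_mul_of_one_lt_left' b hx
      have h3 := conj_lt_conj h2 (g ^ m)
      have h4 : (g ^ m)⁻¹ * (x * b) * g ^ m = x * b := by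
        have : Commute (x * b) (g ^ m) := by
          rw [hg]
          exact ((Commute.refl (x * b)).inv_right).pow_right m
        rw [mul_assoc, this.eq]
        group
      rw [h4] at h3
      refine h3.trans_le ?_
      have h5 : (g * b)⁻¹ * b * (g * b) = b⁻¹ * (x * b * x⁻¹) * b := by
        rw [← hbg]; group
      rw [h5]
      -- x b ≤ b⁻¹ x b x⁻¹ b
      have h6 : b⁻¹ * (x ^ 2) * b ≤ b⁻¹ * (b⁻¹ * x * b) * b := conj_le_conj hcon b
      have h7 : x * b ≤ b⁻¹ * (x * b * x⁻¹) * b ↔ b⁻¹ * (x ^ 2) * b ≤ b⁻¹ * (b⁻¹ * x * b) * b := by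
        constructor
        · intro h
          exact h6
        · intro h
          have h8 : b * (b⁻¹ * (x ^ 2) * b) ≤ b * (b⁻¹ * (b⁻¹ * x * b) * b) := by
            rcases h.eq_or_lt with h | h
            · rw [h]
            · exact (mul_lt_mul_right h b).le
          have h9 : b * (b⁻¹ * (x ^ 2) * b) * (b⁻¹ * x⁻¹ * b) ≤
              b * (b⁻¹ * (b⁻¹ * x * b) * b) * (b⁻¹ * x⁻¹ * b) := by
            rcases h8.eq_or_lt with h | h
            · rw [h]
            · exact (mul_lt_mul_left h _).le
          convert h9 using 1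
          · rw [pow_two]; group
          · group
      exact h7.2 h6
    have h2 := conj_lt_conj key (b * g ^ m)⁻¹
    convert h2 using 1
    · group
    · group

end order

end CRO
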