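import Pool.Agent.CRO.Hull

/-!
* ping-pong: a bad pair generates a free subsemigroup, which is impossible in a nilpotent group;
* generation of the lower central series by left-normed commutators.
-/

open scoped commutatorElement

namespace CRO

universe u

variable {G : Type u} [Group G]

/-- Mal'cev words `x, y ↦ xy, yx`. -/
def mseq (x y : G) : ℕ → G × G
  | 0 => (x, y)
  | n + 1 => ((mseq x y n).1 * (mseq x y n).2, (mseq x y n).2 * (mseq x y n).1)

lemma mseq_mem {S : Subgroup G} {x y : G} (hx : x ∈ S) (hy : y ∈ S) (n : ℕ) :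
    (mseq x y n).1 ∈ S ∧ (mseq x y n).2 ∈ S := by
  induction n with
  | zero => exact ⟨hx, hy⟩
  | succ n ih => exact ⟨S.mul_mem ih.1 ih.2, S.mul_mem ih.2 ih.1⟩

lemma mseq_gam {S : Subgroup G} {x y : G} (hx : x ∈ S) (hy : y ∈ S) (n : ℕ) :
    (mseq x y n).2⁻¹ * (mseq x y n).1 ∈ gam S n := by
  induction n with
  | zero => exact S.mul_mem (S.inv_mem hy) hx
  | succ n ih =>
    obtain ⟨h1, h2⟩ := mseq_mem hx hy n
    set a := (mseq x y n).1
    set b := (mseq x y n).2
    have h3 : (mseq x y (n + 1)).2⁻¹ * (mseq x y (n + 1)).1 =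
        ⁅(b⁻¹ * a)⁻¹, b⁻¹⁆ := by
      change (b * a)⁻¹ * (a * b) = _
      rw [commutatorElement_def]
      group
    rw [h3, gam_succ]
    exact Subgroup.commutator_mem_commutator (Subgroup.inv_mem _ ih) (S.inv_mem h2)

lemma mseq_eq_of_gam {S : Subgroup G} {x y : G} (hx : x ∈ S) (hy : y ∈ S) {n : ℕ}
    (h : gam S n = ⊥) : (mseq x y n).1 = (mseq x y n).2 := by
  have := mseq_gam hx hy n
  rw [h, Subgroup.mem_bot, inv_mul_eq_one] at this
  exact this.symm

section pingpong

/-- A bad pair gives rise to a free semigroup. -/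
theorem mseq_ne_of_bad {P : Set G} (hP : RCone (⊥ : Subgroup G) P) {f g : G} (h : Bad P f g)
    (n : ℕ) : (mseq g (g * f⁻¹) n).1 ≠ (mseq g (g * f⁻¹) n).2 := by
  have hf := h.pos
  have hgf := h.lt
  have hg : g ∈ P := by
    have := hP.mul _ hgf _ hf
    simpa using this
  have hstr := h.strict hP
  -- the interval
  let J : G → Prop := fun u => (u = 1 ∨ u ∈ P) ∧ ∃ m : ℕ, 0 < m ∧ f * g ^ m * u⁻¹ ∈ P
  let A : G → Prop := fun w => ∀ v, J v → J (v * w) ∧ (v * w = g ∨ v * w * g⁻¹ ∈ P)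
  let B : G → Prop := fun w => ∀ v, J v → J (v * w) ∧ g * (v * w)⁻¹ ∈ P
  have hJ1 : J 1 := ⟨Or.inl rfl, 1, one_pos, by simpa using hP.mul _ hf _ hg⟩
  have hA : A g := by
    intro v hv
    obtain ⟨hv1, m, hm, hvm⟩ := hv
    have h1 : v * g = g ∨ v * g * g⁻¹ ∈ P := by
      rcases hv1 with h1 | h1
      · left; rw [h1, one_mul]
      · right; simpa using h1
    refine ⟨⟨Or.inr ?_, m + 1, by omega, ?_⟩, h1⟩
    · rcases hv1 with h1 | h1
      · rw [h1, one_mul]; exact hg
      · exact hP.mul _ h1 _ hg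
    · have h2 : f * g ^ (m + 1) * (v * g)⁻¹ = f * g ^ m * v⁻¹ := by
        rw [pow_succ]; group
      rw [h2]
      exact hvm
  have hB : B (g * f⁻¹) := by
    intro v hv
    obtain ⟨⟨_, m, hm, hvm⟩, h1⟩ := hA v hv
    have hlt : g * (v * (g * f⁻¹))⁻¹ ∈ P := by
      -- v g < f g^m < g f
      have h2 := hP.mul _ (hstr m hm) _ hvm
      have h3 : g * f * (f * g ^ m)⁻¹ * (f * g ^ m * (v * g)⁻¹) = g * (v * (g * f⁻¹))⁻¹ := by
        group
      rwa [h3] at h2
    refine ⟨⟨Or.inr ?_, 1, one_pos, ?_⟩, hlt⟩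
    · -- v g f⁻¹ > 1
      have h2 : v * (g * f⁻¹) = v * g * g⁻¹ * (g * f⁻¹) := by group
      rw [h2]
      rcases h1 with h1 | h1
      · rw [h1, mul_inv_cancel, one_mul]
        exact hgf
      · exact hP.mul _ h1 _ hgf
    · have h2 := hP.mul _ hf _ hlt
      have h3 : f * (g * (v * (g * f⁻¹))⁻¹) = f * g ^ 1 * (v * (g * f⁻¹))⁻¹ := by
        rw [pow_one]; group
      rwa [h3] at h2
  have hmulA : ∀ u w, (A u ∨ B u) → A w → A (u * w) := by
    intro u w hu hw v hv
    rw [← mul_assoc]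
    rcases hu with hu | hu
    · exact hw _ (hu v hv).1
    · exact hw _ (hu v hv).1
  have hmulB : ∀ u w, (A u ∨ B u) → B w → B (u * w) := by
    intro u w hu hw v hv
    rw [← mul_assoc]
    rcases hu with hu | hu
    · exact hw _ (hu v hv).1
    · exact hw _ (hu v hv).1
  have key : ∀ n, (A (mseq g (g * f⁻¹) n).1 ∧ B (mseq g (g * f⁻¹) n).2) ∨
      (B (mseq g (g * f⁻¹) n).1 ∧ A (mseq g (g * f⁻¹) n).2) := by
    intro n
    induction n with
    | zero => exact Or.inl ⟨hA, hB⟩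
    | succ n ih =>
      rcases ih with ⟨h1, h2⟩ | ⟨h1, h2⟩
      · exact Or.inr ⟨hmulB _ _ (Or.inl h1) h2, hmulA _ _ (Or.inr h2) h1⟩
      · exact Or.inl ⟨hmulA _ _ (Or.inr h1) h2, hmulB _ _ (Or.inl h2) h1⟩
  have hAB : ∀ w, A w → B w → False := by
    intro w h1 h2
    obtain ⟨_, h3⟩ := h1 1 hJ1
    obtain ⟨_, h4⟩ := h2 1 hJ1
    rw [one_mul] at h3 h4
    rcases h3 with h3 | h3
    · rw [h3, mul_inv_cancel] at h4
      exact hP.one_notMem h4
    · have := hP.mul _ h3 _ h4
      simp at this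
      exact hP.one_notMem this
  intro heq
  rcases key n with ⟨h1, h2⟩ | ⟨h1, h2⟩
  · rw [heq] at h1
    exact hAB _ h1 h2
  · rw [heq] at h1
    exact hAB _ h2 h1

end pingpong

/-- left-normed commutators of weight `n + 1` in elements of `X` -/
def lnc (X : Set G) : ℕ → Set G
  | 0 => X
  | n + 1 => {w | ∃ c ∈ lnc X n, ∃ x ∈ X, w = ⁅c, x⁆}

lemma lnc_finite {X : Set G} (hX : X.Finite) (n : ℕ) : (lnc X n).Finite := by
  induction n with
  | zero => exact hX
  | succ n ih =>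
    have : lnc X (n + 1) = Set.image2 (fun c x => ⁅c, x⁆) (lnc X n) X := by
      ext w
      constructor
      · rintro ⟨c, hc, x, hx, rfl⟩
        exact ⟨c, hc, x, hx, rfl⟩
      · rintro ⟨c, hc, x, hx, rfl⟩
        exact ⟨c, hc, x, hx, rfl⟩
    rw [this]
    exact ih.image2 _ hX

lemma lnc_mem_gam {X : Set G} (n : ℕ) : lnc X n ⊆ gam (Subgroup.closure X) n := by
  induction n with
  | zero => exact Subgroup.subset_closure
  | succ n ih =>
    rintro _ ⟨c, hc, x, hx, rfl⟩
    exact Subgroup.commutator_mem_commutator (ih hc) (Subgroup.subset_closure hx)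

/-- the subgroup generated by the `L`-conjugates of `Y` -/
def ncl (L : Subgroup G) (Y : Set G) : Subgroup G :=
  Subgroup.closure {w | ∃ l ∈ L, ∃ y ∈ Y, w = l * y * l⁻¹}

lemma ncl_conj {L : Subgroup G} {Y : Set G} {l : G} (hl : l ∈ L) {w : G} (hw : w ∈ ncl L Y) :
    l * w * l⁻¹ ∈ ncl L Y := by
  induction hw using Subgroup.closure_induction with
  | mem w hw =>
    obtain ⟨k, hk, y, hy, rfl⟩ := hw
    exact Subgroup.subset_closure ⟨l * k, L.mul_mem hl hk, y, hy, by group⟩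
  | one => simp
  | mul a b _ _ ha hb =>
    have : l * (a * b) * l⁻¹ = (l * a * l⁻¹) * (l * b * l⁻¹) := by group
    rw [this]
    exact Subgroup.mul_mem _ ha hb
  | inv a _ ha =>
    have : l * a⁻¹ * l⁻¹ = (l * a * l⁻¹)⁻¹ := by group
    rw [this]
    exact Subgroup.inv_mem _ ha

lemma ncl_le {L : Subgroup G} {Y : Set G} {U : Subgroup G} (hY : Y ⊆ U)
    (hU : ∀ l ∈ L, ∀ u ∈ U, l * u * l⁻¹ ∈ U) : ncl L Y ≤ U := by
  rw [ncl, Subgroup.closure_le]
  rintro _ ⟨l, hl, y, hy, rfl⟩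
  exact hU l hl y (hY hy)

lemma gam_le_ncl (X : Set G) (n : ℕ) :
    gam (Subgroup.closure X) n ≤ ncl (Subgroup.closure X) (lnc X n) := by
  set L := Subgroup.closure X with hL
  have hle : ∀ n, ncl L (lnc X n) ≤ L := by
    intro n
    refine ncl_le (fun y hy => gam_le _ _ (lnc_mem_gam n hy)) ?_
    intro l hl u hu
    exact L.mul_mem (L.mul_mem hl hu) (L.inv_mem hl)
  induction n with
  | zero =>
    rw [gam_zero, hL, Subgroup.closure_le]
    intro x hx
    exact Subgroup.subset_closure ⟨1, Subgroup.one_mem _, x, hx, by group⟩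
  | succ n ih =>
    refine (Subgroup.commutator_mono ih le_rfl).trans ?_
    rw [Subgroup.commutator_le]
    -- first for `c ∈ lnc X n`
    have h1 : ∀ c ∈ lnc X n, ∀ k ∈ L, ⁅c, k⁆ ∈ ncl L (lnc X (n + 1)) := by
      intro c hc k hk
      rw [hL] at hk
      induction hk using Subgroup.closure_induction with
      | mem x hx =>
        exact Subgroup.subset_closure ⟨1, Subgroup.one_mem _, _, ⟨c, hc, x, hx, rfl⟩, by group⟩
      | one => simp [commutatorElement_def]
      | mul a b ha _ ha' hb' =>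
        have h2 : ⁅c, a * b⁆ = ⁅c, a⁆ * (a * ⁅c, b⁆ * a⁻¹) := by
          simp only [commutatorElement_def]; group
        rw [h2]
        exact Subgroup.mul_mem _ ha' (ncl_conj ha hb')
      | inv a ha ha' =>
        have h2 : ⁅c, a⁻¹⁆ = a⁻¹ * ⁅c, a⁆⁻¹ * a⁻¹⁻¹ := by
          simp only [commutatorElement_def]; group
        rw [h2]
        exact ncl_conj (Subgroup.inv_mem _ ha) (Subgroup.inv_mem _ ha')
    have h2 : ∀ a ∈ ncl L (lnc X n), ∀ k ∈ L, ⁅a, k⁆ ∈ ncl L (lnc X (n + 1)) := by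
      intro a ha
      rw [ncl] at ha
      induction ha using Subgroup.closure_induction with
      | mem w hw =>
        obtain ⟨l, hl, y, hy, rfl⟩ := hw
        intro k hk
        have h3 : ⁅l * y * l⁻¹, k⁆ = l * ⁅y, l⁻¹ * k * l⁆ * l⁻¹ := by
          simp only [commutatorElement_def]; group
        rw [h3]
        exact ncl_conj hl (h1 y hy _ (L.mul_mem (L.mul_mem (L.inv_mem hl) hk) hl))
      | one =>
        intro k _
        simp [commutatorElement_def]
      | mul a b ha _ ha' hb' =>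
        intro k hk
        have h3 : ⁅a * b, k⁆ = (a * ⁅b, k⁆ * a⁻¹) * ⁅a, k⁆ := by
          simp only [commutatorElement_def]; group
        rw [h3]
        exact Subgroup.mul_mem _ (ncl_conj (hle n ha) (hb' k hk)) (ha' k hk)
      | inv a ha ha' =>
        intro k hk
        have h3 : ⁅a⁻¹, k⁆ = a⁻¹ * ⁅a, k⁆⁻¹ * a⁻¹⁻¹ := by
          simp only [commutatorElement_def]; group
        rw [h3]
        exact ncl_conj (L.inv_mem (hle n ha)) (Subgroup.inv_mem _ (ha' k hk))
    intro a ha k hk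
    exact h2 a ha k hk

lemma gam_closure_le_of_lnc {X : Set G} {n : ℕ} {D : Subgroup G} [hD : D.Normal]
    (h : lnc X n ⊆ D) : gam (Subgroup.closure X) n ≤ D :=
  (gam_le_ncl X n).trans (ncl_le h fun l _ u hu => hD.conj_mem u hu l)

end CRO
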