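import Pool.Agent.CRO.Metab
import Pool.Agent.CRO.Words

/-!
Reduction: a finitely generated non-nilpotent subgroup of a bi-orderable group all of whose right
orders are Conrad can be moved to a group which is the relatively convex hull of a non-nilpotent
image and which is residually (nilpotent and bi-orderable).
-/

open scoped commutatorElement

namespace CRO

universe u

variable {G : Type u} [Group G]

lemma BO.ker_quotient {K : Type u} [Group K] (φ : G →* K) (h : BO K) : BO (G ⧸ φ.ker) :=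
  BO.of_injective (QuotientGroup.kerLift φ) (QuotientGroup.kerLift_injective φ) h

section Ordered

set_option linter.unusedSectionVars false

variable [LinearOrder G] [MulLeftStrictMono G] [MulRightStrictMono G]

/-- the smallest convex subgroup containing a set -/
def cvx (Y : Set G) : Subgroup G := ⨅ C : {C : Subgroup G // IsConv C ∧ Y ⊆ C}, C.1

lemma isConv_cvx (Y : Set G) : IsConv (cvx Y) := IsConv.iInf fun C => C.2.1

lemma subset_cvx (Y : Set G) : Y ⊆ cvx Y := by
  intro y hy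
  rw [SetLike.mem_coe, cvx, Subgroup.mem_iInf]
  intro C
  exact C.2.2 hy

lemma cvx_le {Y : Set G} {C : Subgroup G} (hC : IsConv C) (h : Y ⊆ C) : cvx Y ≤ C :=
  iInf_le (fun C : {C : Subgroup G // IsConv C ∧ Y ⊆ C} => C.1) ⟨C, hC, h⟩

/-- the commutators of a finite set lie in a smaller convex subgroup -/
lemma exists_notMem_cvx (hc : Cen G) {X Y : Set G} (hY : Y.Finite) (hne : ∃ y ∈ Y, y ≠ 1) :
    ∃ y ∈ Y, y ∉ cvx {w | ∃ c ∈ Y, ∃ x ∈ X, w = ⁅c, x⁆} := by
  obtain ⟨y0, hy0, hy1⟩ := hne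
  obtain ⟨y, hy, hmax⟩ := Set.exists_max_image Y (fun w => max w w⁻¹) hY ⟨y0, hy0⟩
  have hlt0 : ∀ w : G, w ≠ 1 → 1 < max w w⁻¹ := by
    intro w hw
    rcases lt_trichotomy w 1 with h | h | h
    · refine lt_max_of_lt_right ?_
      exact one_lt_inv'.2 h
    · exact absurd h hw
    · exact lt_max_of_lt_left h
  have ht : 1 < max y y⁻¹ := (hlt0 y0 hy1).trans_le (hmax y0 hy0)
  refine ⟨y, hy, fun hyc => ?_⟩
  have h1 : cvx {w | ∃ c ∈ Y, ∃ x ∈ X, w = ⁅c, x⁆} ≤ lo _ ht := by
    refine cvx_le (isConv_lo _ ht) ?_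
    rintro w ⟨c, hcY, x, hx, rfl⟩
    have h2 : c⁻¹ ∈ up _ ht.le := by
      have h3 := hmax c hcY
      have hup := isConv_up _ ht.le
      rcases le_or_gt 1 c with h | h
      · refine Subgroup.inv_mem _ (hup _ (self_mem_up _ ht.le) c h ?_)
        exact (le_max_left _ _).trans h3
      · refine hup _ (self_mem_up _ ht.le) c⁻¹ (one_lt_inv'.2 h).le ?_
        exact (le_max_right _ _).trans h3
    have h4 := comm_mem_lo_of_mem_up hc ht h2 x⁻¹
    rw [inv_inv, inv_inv] at h4
    have h5 : ⁅c, x⁆ = c * (x * c⁻¹ * x⁻¹) := by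
      rw [commutatorElement_def]; group
    rw [SetLike.mem_coe, h5]
    exact h4
  have h2 := h1 hyc
  have key : ∀ (t : G) (ht : 1 < t), t = y ∨ t = y⁻¹ → y ∉ lo t ht := by
    intro s hs h hys
    rcases h with h | h
    · subst h
      exact self_notMem_lo _ _ hys
    · subst h
      exact self_notMem_lo _ _ (Subgroup.inv_mem _ hys)
  exact key _ ht (max_choice y y⁻¹) h2

end Ordered

theorem reduction (hB : BO G) (hA : AC G) {X : Set G} (hX : X.Finite)
    (hne : ∀ n, gam (Subgroup.closure X) n ≠ ⊥) :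
    ∃ (H : Type u) (_ : Group H) (φ : Subgroup.closure X →* H) (E : ℕ → Subgroup H),
      BO H ∧ AC H ∧ hull φ.range = ⊤ ∧ (∀ n, ∃ _ : (E n).Normal, BO (H ⧸ E n)) ∧
      (⨅ n, E n = ⊥) ∧ (∀ n, ∃ m, gam (⊤ : Subgroup H) m ≤ E n) ∧ ∀ n, gam φ.range n ≠ ⊥ := by
  obtain ⟨_, _, _⟩ := hB.exists_order
  have hc : Cen G := cen_of_AC hA
  set L := Subgroup.closure X with hL
  let D : ℕ → Subgroup G := fun n => cvx (lnc X n)
  have hDn : ∀ n, (D n).Normal := fun n => (isConv_cvx _).normal hc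
  have hgD : ∀ n, gam L n ≤ D n := fun n => gam_closure_le_of_lnc (subset_cvx _)
  have hDlt : ∀ n, ∃ y ∈ lnc X n, y ∉ D (n + 1) := by
    intro n
    refine exists_notMem_cvx hc (lnc_finite hX n) ?_
    by_contra hcon
    push Not at hcon
    refine hne n (le_bot_iff.1 (gam_closure_le_of_lnc ?_))
    intro y hy
    exact Subgroup.mem_bot.2 (hcon y hy)
  let D' : Subgroup G := ⨅ n, D n
  have hD'c : IsConv D' := IsConv.iInf fun n => isConv_cvx _
  haveI hD'n : D'.Normal := hD'c.normal hc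
  have hB1 : BO (G ⧸ D') := hD'c.BO_quotient
  have hA1 : AC (G ⧸ D') := hA.quotient hB.rc_bot D'
  let π : G →* G ⧸ D' := QuotientGroup.mk' D'
  let L1 : Subgroup (G ⧸ D') := L.map π
  let H : Subgroup (G ⧸ D') := hull L1
  let φ : L →* H := (π.comp L.subtype).codRestrict H (fun l => le_hull L1 ⟨l.1, l.2, rfl⟩)
  have hφr : φ.range.map H.subtype = L1 := by
    ext y
    constructor
    · rintro ⟨_, ⟨l, rfl⟩, rfl⟩
      exact ⟨l.1, l.2, rfl⟩
    · rintro ⟨l, hl, rfl⟩
      exact ⟨φ ⟨l, hl⟩, ⟨⟨l, hl⟩, rfl⟩, rfl⟩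
  have hle : ∀ n, D' ≤ (D n) := fun n => iInf_le _ n
  let q : ∀ n, (G ⧸ D') →* G ⧸ D n := fun n =>
    QuotientGroup.map D' (D n) (MonoidHom.id G) (hle n)
  have hqπ : ∀ n, (q n).comp π = QuotientGroup.mk' (D n) := by
    intro n
    ext g
    rfl
  let E : ℕ → Subgroup H := fun n => ((q n).comp H.subtype).ker
  refine ⟨H, inferInstance, φ, E, hB1.subgroup H, hA1.subgroup (RC_hull _), ?_, ?_, ?_, ?_, ?_⟩
  · rw [eq_top_iff]
    have h1 : RC ((hull φ.range).map H.subtype) := (RC_hull L1).trans (RC_hull φ.range)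
    have h2 : L1 ≤ (hull φ.range).map H.subtype := by
      rw [← hφr]
      exact Subgroup.map_mono (le_hull _)
    have h3 : H ≤ (hull φ.range).map H.subtype := hull_le h1 h2
    intro x _
    obtain ⟨y, hy, hyx⟩ := h3 x.2
    have : y = x := H.subtype_injective hyx
    exact this ▸ hy
  · intro n
    refine ⟨inferInstance, ?_⟩
    haveI := hDn n
    exact BO.ker_quotient _ (isConv_cvx (lnc X n)).BO_quotient
  · rw [eq_bot_iff]
    intro x hx
    rw [Subgroup.mem_iInf] at hx
    obtain ⟨g, hg⟩ := QuotientGroup.mk'_surjective D' x.1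
    have h1 : g ∈ D' := by
      rw [Subgroup.mem_iInf]
      intro n
      have h2 : (q n) x.1 = 1 := hx n
      rw [← hg] at h2
      have h3 : QuotientGroup.mk' (D n) g = 1 := h2
      rwa [← MonoidHom.mem_ker, QuotientGroup.ker_mk'] at h3
    have h2 : x.1 = 1 := by
      rw [← hg, ← MonoidHom.mem_ker, QuotientGroup.ker_mk']
      exact h1
    exact Subgroup.mem_bot.2 (Subtype.ext h2)
  · intro n
    refine ⟨n, ?_⟩
    haveI := hDn n
    have hBn : BO (G ⧸ D n) := (isConv_cvx (lnc X n)).BO_quotient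
    have hAn : AC (G ⧸ D n) := hA.quotient hB.rc_bot (D n)
    have h1 : gam (L.map (QuotientGroup.mk' (D n))) n = ⊥ := by
      rw [← map_gam, eq_bot_iff, Subgroup.map_le_iff_le_comap]
      intro g hg
      rw [Subgroup.mem_comap, Subgroup.mem_bot, ← MonoidHom.mem_ker, QuotientGroup.ker_mk']
      exact hgD n hg
    have h2 := gam_hull n _ hBn hAn _ h1
    have h3 : ((⊤ : Subgroup H).map ((q n).comp H.subtype)) ≤
        hull (L.map (QuotientGroup.mk' (D n))) := by
      rintro _ ⟨x, -, rfl⟩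
      have h4 := hull_comap_le (q n) L1 x.2
      have h5 : L1.map (q n) = L.map (QuotientGroup.mk' (D n)) := by
        rw [Subgroup.map_map, hqπ]
      rw [h5] at h4
      exact h4
    intro x hx
    have h6 : ((q n).comp H.subtype) x ∈ gam ((⊤ : Subgroup H).map ((q n).comp H.subtype)) n := by
      rw [← map_gam]
      exact ⟨x, hx, rfl⟩
    have h7 := gam_mono h3 n h6
    rw [h2, Subgroup.mem_bot] at h7
    exact h7
  · intro n hn
    obtain ⟨y, hy, hy'⟩ := hDlt n
    have h1 : (gam φ.range n).map H.subtype = ⊥ := by rw [hn, Subgroup.map_bot]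
    rw [map_gam, hφr] at h1
    have h2 : π y ∈ gam L1 n := by
      rw [← map_gam]
      exact ⟨y, lnc_mem_gam n hy, rfl⟩
    rw [h1, Subgroup.mem_bot] at h2
    have h3 : y ∈ D' := by
      rwa [← MonoidHom.mem_ker, QuotientGroup.ker_mk'] at h2
    exact hy' (hle _ h3)

end CRO
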