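import Pool.Agent.CRO.ConjEnd

/-!
* torsion-free nilpotent groups are bi-orderable;
* intersections of normal subgroups with bi-orderable quotient;
* the isolator of an element is relatively convex.
-/

open scoped commutatorElement

namespace CRO

universe u

lemma center_isolated {K : Type u} [Group K] {n : ℕ} (hn : gam (⊤ : Subgroup K) n = ⊥)
    (htf : ∀ x : K, ∀ k : ℕ, k ≠ 0 → x ^ k = 1 → x = 1) {x : K} {k : ℕ} (hk : k ≠ 0)
    (hx : x ^ k ∈ Subgroup.center K) : x ∈ Subgroup.center K := by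
  have key : ∀ i, i ≤ n → ∀ y ∈ gam (⊤ : Subgroup K) (n - i), Commute x y := by
    intro i
    induction i with
    | zero =>
      intro _ y hy
      rw [Nat.sub_zero, hn, Subgroup.mem_bot] at hy
      rw [hy]
      exact Commute.one_right x
    | succ i ih =>
      intro hi y hy
      have h1 : ⁅y, x⁆ ∈ gam (⊤ : Subgroup K) (n - i) := by
        have h2 : n - i = (n - (i + 1)) + 1 := by omega
        rw [h2, gam_succ]
        exact Subgroup.commutator_mem_commutator hy (Subgroup.mem_top x)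
      have h2 := ih (by omega) _ h1
      set u := ⁅y, x⁆ with hu
      have h3 : y * x * y⁻¹ = u * x := by
        rw [hu, commutatorElement_def]; group
      have h4 : (y * x * y⁻¹) ^ k = x ^ k := by
        rw [conj_pow]
        have := Subgroup.mem_center_iff.1 hx y
        rw [this]; group
      rw [h3, h2.symm.mul_pow] at h4
      have h5 : u ^ k = 1 := by
        have := congrArg (fun w => w * (x ^ k)⁻¹) h4
        simpa using this
      have h6 := htf _ k hk h5
      rw [hu, commutatorElement_eq_one_iff_commute] at h6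
      exact h6.symm
  rw [Subgroup.mem_center_iff]
  intro y
  have := key n le_rfl y (by rw [Nat.sub_self]; exact Subgroup.mem_top y)
  exact this.symm.eq

theorem BO_of_nilpotent : ∀ (n : ℕ) (K : Type u) [Group K], gam (⊤ : Subgroup K) n = ⊥ →
    (∀ x : K, ∀ k : ℕ, k ≠ 0 → x ^ k = 1 → x = 1) → BO K := by
  intro n
  induction n with
  | zero =>
    intro K _ hn _
    have h1 : ∀ x : K, x = 1 := by
      intro x
      have : x ∈ gam (⊤ : Subgroup K) 0 := Subgroup.mem_top x
      rw [hn] at this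
      exact this
    exact ⟨∅, by simp, by simp, by simp, fun x hx => absurd (h1 x) hx⟩
  | succ n ih =>
    intro K _ hn htf
    let Z := Subgroup.center K
    let π := QuotientGroup.mk' Z
    have hZ : gam (⊤ : Subgroup K) n ≤ Z := by
      intro x hx
      rw [Subgroup.mem_center_iff]
      intro y
      have h1 : ⁅x, y⁆ ∈ gam (⊤ : Subgroup K) (n + 1) :=
        Subgroup.commutator_mem_commutator hx (Subgroup.mem_top y)
      rw [hn, Subgroup.mem_bot, commutatorElement_eq_one_iff_mul_comm] at h1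
      exact h1.symm
    have h1 : BO (K ⧸ Z) := by
      refine ih (K ⧸ Z) ?_ ?_
      · have h2 : (⊤ : Subgroup K).map π = ⊤ :=
          Subgroup.map_top_of_surjective _ (QuotientGroup.mk'_surjective Z)
        rw [← h2, ← map_gam, Subgroup.map_eq_bot_iff, QuotientGroup.ker_mk']
        exact hZ
      · intro q k hk hq
        obtain ⟨x, rfl⟩ := QuotientGroup.mk'_surjective Z q
        rw [← map_pow, ← MonoidHom.mem_ker, QuotientGroup.ker_mk'] at hq
        rw [← MonoidHom.mem_ker, QuotientGroup.ker_mk']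
        exact center_isolated hn htf hk hq
    obtain ⟨P, hP⟩ := h1
    obtain ⟨Q, q1, q2, q3, q4, q5, q6⟩ := exists_cone_of_abelian Z ⊥ bot_le (by
      intro x _ y hy
      have := Subgroup.mem_center_iff.1 hy x
      rw [Subgroup.mem_bot, this]
      group) (by
      intro y _ k hk hyk
      rw [Subgroup.mem_bot] at *
      exact htf y k hk hyk)
    have hR : RCone (⊥ : Subgroup K) ((π ⁻¹' P) ∪ Q) := by
      have h2 := hP.rcone.comap π
      have h3 : (⊥ : Subgroup (K ⧸ Z)).comap π = Z := by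
        rw [MonoidHom.comap_bot, QuotientGroup.ker_mk']
      rw [h3] at h2
      exact RCone.combine bot_le h2 q2 q3 q4 q5 q1 q6
    refine ⟨_, hR.mul, ?_, hR.one_notMem, fun x hx => hR.total x (by simpa using hx)⟩
    rintro x (hx | hx) g
    · left
      have := hP.conj _ hx (π g)
      simpa using this
    · right
      have h2 := Subgroup.mem_center_iff.1 (q1 x hx) g⁻¹
      have h3 : g⁻¹ * x * g = x := by
        rw [h2]; group
      rw [h3]
      exact hx

lemma BO.exists_cone {K : Type u} [Group K] {N : Subgroup K} [N.Normal] (h : BO (K ⧸ N)) :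
    ∃ P : Set K, RCone N P ∧ ∀ x ∈ P, ∀ g, g⁻¹ * x * g ∈ P := by
  obtain ⟨P, hP⟩ := h
  have h2 := hP.rcone.comap (QuotientGroup.mk' N)
  rw [MonoidHom.comap_bot, QuotientGroup.ker_mk'] at h2
  refine ⟨_, h2, ?_⟩
  intro x hx g
  have := hP.conj _ hx (QuotientGroup.mk' N g)
  simpa using this

theorem BO_iInf {K : Type u} [Group K] (N : ℕ → Subgroup K) [hN : ∀ i, (N i).Normal]
    (h : ∀ i, BO (K ⧸ N i)) : ∀ [(⨅ i, N i).Normal], BO (K ⧸ (⨅ i, N i)) := by
  intro _
  choose P hP hPc using fun i => (h i).exists_cone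
  refine BO_quotient_of_cone (P := {g | ∃ i, (∀ j < i, g ∈ N j) ∧ g ∈ P i}) _
    ⟨?_, ?_, ?_, ?_, ?_⟩ ?_
  · rintro x ⟨i, hi, hxi⟩ y ⟨j, hj, hyj⟩
    rcases lt_trichotomy i j with h | h | h
    · exact ⟨i, fun k hk => (N k).mul_mem (hi k hk) (hj k (hk.trans h)),
        (hP i).right _ hxi _ (hj i h)⟩
    · subst h
      exact ⟨i, fun k hk => (N k).mul_mem (hi k hk) (hj k hk), (hP i).mul _ hxi _ hyj⟩
    · exact ⟨j, fun k hk => (N k).mul_mem (hi k (hk.trans h)) (hj k hk),
        (hP j).left _ (hi j h) _ hyj⟩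
  · rintro c hc x ⟨i, hi, hxi⟩
    rw [Subgroup.mem_iInf] at hc
    exact ⟨i, fun k hk => (N k).mul_mem (hc k) (hi k hk), (hP i).left _ (hc i) _ hxi⟩
  · rintro x ⟨i, hi, hxi⟩ c hc
    rw [Subgroup.mem_iInf] at hc
    exact ⟨i, fun k hk => (N k).mul_mem (hi k hk) (hc k), (hP i).right _ hxi _ (hc i)⟩
  · rintro x ⟨i, hi, hxi⟩ hx
    rw [Subgroup.mem_iInf] at hx
    exact (hP i).disj _ hxi (hx i)
  · intro x hx
    rw [Subgroup.mem_iInf, not_forall] at hx
    classical
    have hmin : ∀ j < Nat.find hx, x ∈ N j := by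
      intro j hj
      by_contra hc
      exact Nat.find_min hx hj hc
    rcases (hP (Nat.find hx)).total x (Nat.find_spec hx) with h | h
    · exact Or.inl ⟨_, hmin, h⟩
    · exact Or.inr ⟨_, fun j hj => (N j).inv_mem (hmin j hj), h⟩
  · rintro x ⟨i, hi, hxi⟩ g
    refine ⟨i, fun j hj => ?_, hPc i _ hxi g⟩
    have := (hN j).conj_mem _ (hi j hj) g⁻¹
    simpa using this

section rankone

variable {K : Type u} [Group K]

lemma BO.torsionfree (h : BO K) {x : K} {k : ℕ} (hk : k ≠ 0) (hx : x ^ k = 1) : x = 1 :=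
  h.pow_inj hk (by rw [hx, one_pow])

lemma BO.zpow_inj (h : BO K) {x : K} (hx : x ≠ 1) {k l : ℤ} (hkl : x ^ k = x ^ l) : k = l := by
  by_contra hne
  have h1 : x ^ (k - l) = 1 := by
    rw [zpow_sub, hkl, mul_inv_cancel]
  have h2 : x ^ (k - l).natAbs = 1 := by
    rcases Int.natAbs_eq (k - l) with h3 | h3
    · rw [← zpow_natCast, ← h3]
      exact h1
    · have h4 : ((k - l).natAbs : ℤ) = -(k - l) := by omega
      rw [← zpow_natCast, h4, zpow_neg, h1, inv_one]
  exact hx (h.torsionfree (by omega) h2)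

/-- the isolator of an element -/
def isoEl (h : BO K) (b : K) : Subgroup K where
  carrier := {t | ∃ k : ℕ, k ≠ 0 ∧ ∃ j : ℤ, t ^ k = b ^ j}
  one_mem' := ⟨1, one_ne_zero, 0, by simp⟩
  inv_mem' := by
    rintro t ⟨k, hk, j, hj⟩
    exact ⟨k, hk, -j, by rw [inv_pow, hj, zpow_neg]⟩
  mul_mem' := by
    rintro s t ⟨k, hk, i, hi⟩ ⟨l, hl, j, hj⟩
    have hst : Commute s t := by
      refine h.commute_of_pow_pow hk hl ?_
      rw [hi, hj]
      exact (Commute.refl b).zpow_zpow i j
    refine ⟨k * l, Nat.mul_ne_zero hk hl, i * l + j * k, ?_⟩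
    rw [hst.mul_pow, pow_mul, hi, mul_comm k l, pow_mul, hj, zpow_add, zpow_mul, zpow_mul,
      zpow_natCast, zpow_natCast]

lemma mem_isoEl {h : BO K} {b t : K} : t ∈ isoEl h b ↔ ∃ k : ℕ, k ≠ 0 ∧ ∃ j : ℤ, t ^ k = b ^ j :=
  Iff.rfl

lemma self_mem_isoEl (h : BO K) (b : K) : b ∈ isoEl h b := ⟨1, one_ne_zero, 1, by simp⟩

lemma RC_isoEl (h : BO K) (b : K) : RC (isoEl h b) := by
  set C : Subgroup K := Subgroup.centralizer {b} with hC
  set Z : Subgroup K := Subgroup.centralizer (C : Set K) with hZ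
  have hZRC : RC Z := h.RC_centralizer _
  have hbC : b ∈ C := by
    rw [hC, Subgroup.mem_centralizer_singleton_iff]
  have hZC : Z ≤ C := by
    intro z hz
    rw [hC, Subgroup.mem_centralizer_singleton_iff]
    exact (Subgroup.mem_centralizer_iff.1 hz b hbC).symm
  have hTZ : isoEl h b ≤ Z := by
    rintro t ⟨k, hk, j, hj⟩
    rw [hZ, Subgroup.mem_centralizer_iff]
    intro x hx
    rw [SetLike.mem_coe, hC, Subgroup.mem_centralizer_singleton_iff] at hx
    have h1 : Commute (t ^ k) x := by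
      rw [hj]
      have : Commute x b := hx
      exact (this.zpow_right j).symm
    exact (h.commute_of_pow hk h1).symm
  obtain ⟨P, hP⟩ := hZRC
  obtain ⟨Q, q1, q2, q3, q4, q5, q6⟩ := exists_cone_of_abelian Z (isoEl h b) hTZ (by
    intro x hx y hy
    have h1 := Subgroup.mem_centralizer_iff.1 hy x (hZC hx)
    rw [h1]
    have : y * x * x⁻¹ * y⁻¹ = 1 := by group
    rw [this]
    exact Subgroup.one_mem _) (by
    rintro y _ k hk ⟨l, hl, j, hj⟩
    exact ⟨k * l, Nat.mul_ne_zero hk hl, j, by rw [pow_mul, hj]⟩)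
  exact ⟨_, RCone.combine hTZ hP q2 q3 q4 q5 q1 q6⟩

/-- two commensurable elements are powers of a common one -/
lemma BO.common_root (h : BO K) {s t : K} {k : ℕ} (hk : k ≠ 0) {l : ℤ} (hst : t ^ k = s ^ l) :
    ∃ τ : K, ∃ e : ℕ, e ≠ 0 ∧ ∃ j : ℤ, τ ^ e = s ∧ τ ^ j = t := by
  have hcomm : Commute t s := by
    refine h.commute_of_pow hk ?_
    rw [hst]
    exact (Commute.refl s).zpow_left l
  set d : ℕ := Int.gcd k l with hd
  have hd0 : d ≠ 0 := by
    rw [hd]
    intro h0
    have := (Int.gcd_eq_zero_iff.1 h0).1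
    exact hk (by exact_mod_cast this)
  obtain ⟨k', hk'⟩ : ∃ k' : ℕ, k = d * k' := by
    have : (d : ℤ) ∣ (k : ℤ) := Int.gcd_dvd_left ..
    exact Int.natCast_dvd_natCast.1 this
  obtain ⟨l', hl'⟩ : ∃ l' : ℤ, l = d * l' := Int.gcd_dvd_right ..
  have hk'0 : k' ≠ 0 := by
    rintro rfl
    rw [mul_zero] at hk'
    exact hk hk'
  have h1 : t ^ k' = s ^ l' := by
    refine h.pow_inj hd0 ?_
    rw [← pow_mul, mul_comm, ← hk', hst, hl', mul_comm, zpow_mul, zpow_natCast]
  have hb : (d : ℤ) = k * Int.gcdA k l + l * Int.gcdB k l := Int.gcd_eq_gcd_ab k l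
  set u := Int.gcdA k l
  set v := Int.gcdB k l
  have h2 : (k' : ℤ) * u + l' * v = 1 := by
    have h3 : (d : ℤ) * ((k' : ℤ) * u + l' * v) = d * 1 := by
      have h4 : (k : ℤ) = d * k' := by exact_mod_cast hk'
      calc (d : ℤ) * ((k' : ℤ) * u + l' * v) = (d * k') * u + (d * l') * v := by ring
        _ = k * u + l * v := by rw [← h4, ← hl']
        _ = d * 1 := by rw [← hb, mul_one]
    exact mul_left_cancel₀ (by exact_mod_cast hd0) h3
  have h1' : t ^ (k' : ℤ) = s ^ l' := by rw [zpow_natCast]; exact h1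
  have hcz : ∀ i j : ℤ, Commute (t ^ i) (s ^ j) := fun i j => hcomm.zpow_zpow i j
  refine ⟨t ^ v * s ^ u, k', hk'0, l', ?_, ?_⟩
  · rw [← zpow_natCast, (hcz v u).mul_zpow, ← zpow_mul, ← zpow_mul, mul_comm v, zpow_mul, h1',
      ← zpow_mul, ← zpow_add]
    have : l' * v + u * k' = 1 := by linarith
    rw [this, zpow_one]
  · rw [(hcz v u).mul_zpow, ← zpow_mul, ← zpow_mul, mul_comm u, zpow_mul s, ← h1', ← zpow_mul,
      ← zpow_add]
    have : v * l' + k' * u = 1 := by linarith
    rw [this, zpow_one]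

end rankone

end CRO
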